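import Pool.Agent.H.MP_ac3185_nt.V.Defs
import Pool.Agent.H.MP_ac3185_nt.R.PlA

/-! Local conditions, root numbers and the parity conjecture. -/

set_option autoImplicit false

open CategoryTheory AlgebraicGeometry NumberField IsDedekindDomain
open scoped MonObj

namespace Pool.Agent.H.MP_ac3185_nt

universe u

section field

variable {K : Type u} [Field K]

/-- Some point of `A(L)` has no multiple in `A(K)`, i.e. `A(L) / A(K)` is not a torsion group. -/
def NewPoint (A : Over (Spec (.of K))) [GrpObj A] [IsAbVar A]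
    (L : IntermediateField K (AlgebraicClosure K)) : Prop :=
  ∃ x : Pts A (AlgebraicClosure K), (∀ s ∈ L.fixingSubgroup, act A s x = x) ∧
    ∀ n : ℕ, 0 < n → ∃ s, act A s (n • x) ≠ n • x

end field

section numberField

variable {K : Type u} [Field K] [NumberField K]

/-- The number `g_v` of the places of `L` above the finite place `v` of `K`. -/
noncomputable def placeCount (L : IntermediateField K (AlgebraicClosure K))
    (v : HeightOneSpectrum (𝓞 K)) : ℕ :=
  Nat.card {w : HeightOneSpectrum (𝓞 L) // Divides L w v}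

/-- `A` is semistable at the finite place `v` of `K` and its reduction has a split torus of rank
`r`: for the primes `𝔓` above `v` and the prime numbers `ℓ` not in `𝔓` the space `V = V_ℓ(A)` is
finite dimensional, `(g - 1) ^ 2 = 0` on `V` for `g` in the inertia group `I` of `𝔓`, the
decomposition group of `𝔓` acts trivially on `V / V^I`, and `dim V / V^I = r`. -/
def SplitTorus (A : Over (Spec (.of K))) [GrpObj A] [IsAbVar A] (v : HeightOneSpectrum (𝓞 K))
    (r : ℕ) : Prop :=
  ∀ 𝔓 : Ideal (𝓞 (AlgebraicClosure K)), Above 𝔓 v → SemistableOver A ⊥ 𝔓 ∧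
    ∀ (ℓ : ℕ) [Fact ℓ.Prime], (ℓ : 𝓞 (AlgebraicClosure K)) ∉ 𝔓 →
      (∀ g ∈ decomp K 𝔓, ∀ x, galV A ℓ g x - x ∈ fixedBy (ops A ℓ (inertia K 𝔓))) ∧
      Module.finrank ℚ_[ℓ] (VTate ℓ (Pts A (AlgebraicClosure K)) ⧸
        fixedBy (ops A ℓ (inertia K 𝔓))) = r

/-- `A` is semistable at the finite place `v` of `K`, and its reduction has a split torus of rank
`r` over the unramified quadratic extension of `K_v` (example: `r = 1` for an elliptic curve with
multiplicative reduction): for the primes `𝔓` above `v` and the prime numbers `ℓ` not in `𝔓`,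
`dim (V / V^I)^H = r` for `V = V_ℓ(A)`, the inertia group `I` of `𝔓` and the subgroup `H` of index
`2` of the decomposition group of `𝔓` which contains `I`. -/
def QuadTorus (A : Over (Spec (.of K))) [GrpObj A] [IsAbVar A] (v : HeightOneSpectrum (𝓞 K))
    (r : ℕ) : Prop :=
  ∀ 𝔓 : Ideal (𝓞 (AlgebraicClosure K)), Above 𝔓 v → SemistableOver A ⊥ 𝔓 ∧
    ∀ (ℓ : ℕ) [Fact ℓ.Prime], (ℓ : 𝓞 (AlgebraicClosure K)) ∉ 𝔓 →
      ∀ H : Subgroup (AlgebraicClosure K ≃ₐ[K] AlgebraicClosure K), H ≤ decompGrp K 𝔓 →
        inertiaGrp K 𝔓 ≤ H → H.relIndex (decompGrp K 𝔓) = 2 →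
          quotRank (ops A ℓ (inertia K 𝔓)) (ops A ℓ H) = r

/-- The ramification indices over `v` of the places of `L` above `v` are odd. -/
def OddRam (L : IntermediateField K (AlgebraicClosure K)) (v : HeightOneSpectrum (𝓞 K)) : Prop :=
  ∀ 𝔓 : Ideal (𝓞 (AlgebraicClosure K)), Above 𝔓 v →
    Odd (L.fixingSubgroup.relIndex (inertiaGrp K 𝔓))

/-- The finite place `v` of `K` is unramified in `L`. -/
def UnrIn (L : IntermediateField K (AlgebraicClosure K)) (v : HeightOneSpectrum (𝓞 K)) : Prop :=
  ∀ 𝔓 : Ideal (𝓞 (AlgebraicClosure K)), Above 𝔓 v →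
    inertia K 𝔓 ⊆ (L.fixingSubgroup : Set (AlgebraicClosure K ≃ₐ[K] AlgebraicClosure K))

/-- The local root numbers given by `W` over the unramified extensions of `K_v` of even degree are
`(-1) ^ r`. Example: `W` is the family of the local root numbers of an abelian variety `A / K`, and `r`
is the exponent of the conductor of `A` at `v`. -/
def EvenSign (W : LocalSigns K) (v : HeightOneSpectrum (𝓞 K)) (r : ℕ) : Prop :=
  ∀ (L : IntermediateField K (AlgebraicClosure K)) [FiniteDimensional K L]
    (w : HeightOneSpectrum (𝓞 L)) (𝔓 : Ideal (𝓞 (AlgebraicClosure K))),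
    PrimeOver L 𝔓 w → Above 𝔓 v →
    inertia K 𝔓 ⊆ (L.fixingSubgroup : Set (AlgebraicClosure K ≃ₐ[K] AlgebraicClosure K)) →
    Even (L.fixingSubgroup.relIndex (decompGrp K 𝔓)) → W L w = (-1) ^ r

/-- The number `g (#∞_L + #∞_K) + ∑ r_v (g_v - 1)`, the sum over the places `v` in `T`; here `#∞` is
the number of infinite places and `g_v` the number of places of `L` above `v`. -/
noncomputable def signChange (L : IntermediateField K (AlgebraicClosure K)) (g : ℕ)
    (T : Finset (HeightOneSpectrum (𝓞 K))) (r : HeightOneSpectrum (𝓞 K) → ℕ) : ℕ :=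
  g * (Nat.card (InfinitePlace L) +
    Nat.card (InfinitePlace (⊥ : IntermediateField K (AlgebraicClosure K)))) +
    ∑ v ∈ T, r v * (placeCount L v - 1)

/-- The parity conjecture for `A` over `L`. -/
def ParityFor (A : Over (Spec (.of K))) [GrpObj A] [IsAbVar A] (g : ℕ) (W : LocalSigns K)
    (L : IntermediateField K (AlgebraicClosure K)) : Prop :=
  (-1) ^ rk A L = signOver W g L

end numberField

end Pool.Agent.H.MP_ac3185_nt
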