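import Pool.Agent.H.MP_ac3185_nt.V.Defs
import Pool.Agent.H.MP_ac3185_nt.R.PlA
import Pool.Agent.H.MP_ac3185_nt.V2.SignDefs

/-! Definitions for the theorem on the growth of the rank and the change of the root number in
extensions of odd degree. -/

set_option autoImplicit false

open CategoryTheory AlgebraicGeometry NumberField IsDedekindDomain
open scoped MonObj

namespace Pool.Agent.H.MP_ac3185_nt

universe u

section field

variable {K : Type u} [Field K]

/-- The elements of `X` lie in at most `n` classes modulo the squares of nonzero elements. -/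
def SquareClasses {L : IntermediateField K (AlgebraicClosure K)} (X : Set L) (n : ℕ) : Prop :=
  ∃ T : Finset L, T.card ≤ n ∧ ∀ a ∈ X, ∃ t ∈ T, ∃ u : L, u ≠ 0 ∧ a = t * (u * u)

/-- `f : B → C` is an isogeny of degree `2`. -/
structure DegTwo {B C : Over (Spec (.of K))} [GrpObj B] [IsAbVar B] [GrpObj C] [IsAbVar C]
    (f : B ⟶ C) : Prop where
  hom : IsMonHom f
  surj : ∀ y, ∃ x, onPts f x = y
  ker : ∃ t, t ≠ 0 ∧ ∀ x, onPts f x = 0 ↔ x = 0 ∨ x = t

/-- Let `f : B → C` be an isogeny of degree `2`. If `f(x)` is a point of `C(L)`, so that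
`L(x) = L(√a)` for some `a = z²` in `L`, then `a` has even valuation at the place of `L` below `𝔓`.
Example: `B` has good reduction at this place. -/
def EvenFibres (L : IntermediateField K (AlgebraicClosure K)) {B C : Over (Spec (.of K))}
    [GrpObj B] [IsAbVar B] [GrpObj C] [IsAbVar C] (f : B ⟶ C)
    (𝔓 : Ideal (𝓞 (AlgebraicClosure K))) : Prop :=
  ∀ (x : Pts B (AlgebraicClosure K)) (z : AlgebraicClosure K), z ≠ 0 → z * z ∈ L →
    (∀ s ∈ L.fixingSubgroup, act C s (onPts f x) = onPts f x) →
    (∀ s ∈ L.fixingSubgroup, act B s x = x ↔ s z = z) → EvenAt L 𝔓 (z * z)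

/-- `C(L)` is the union of at most `2 ^ b` cosets `t + (C(K) + f(B(L)))`. -/
def QuotBound (L : IntermediateField K (AlgebraicClosure K)) {B C : Over (Spec (.of K))}
    [GrpObj B] [IsAbVar B] [GrpObj C] [IsAbVar C] (f : B ⟶ C) (b : ℕ) : Prop :=
  ∃ T : Finset (Pts C (AlgebraicClosure K)), T.card ≤ 2 ^ b ∧
    (∀ t ∈ T, ∀ s ∈ L.fixingSubgroup, act C s t = t) ∧
    ∀ y, (∀ s ∈ L.fixingSubgroup, act C s y = y) → ∃ t ∈ T, ∃ y₀ x,
      (∀ s, act C s y₀ = y₀) ∧ (∀ s ∈ L.fixingSubgroup, act B s x = x) ∧
      y = t + (y₀ + onPts f x)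

end field

section numberField

variable {K : Type u} [Field K] [NumberField K]

/-- The kernel of `f` is etale at the finite place `v` of `K`. -/
def FibresEtale {B C : Over (Spec (.of K))} [GrpObj B] [IsAbVar B] [GrpObj C] [IsAbVar C]
    (f : B ⟶ C) (v : HeightOneSpectrum (𝓞 K)) : Prop :=
  ∀ 𝔓 : Ideal (𝓞 (AlgebraicClosure K)), Above 𝔓 v → EtaleAt f 𝔓

/-- The fibres of `f` over `C(L)` are given by square roots of elements of even valuation at the
places of `L` above the finite place `v` of `K`. -/
def FibresEven (L : IntermediateField K (AlgebraicClosure K)) {B C : Over (Spec (.of K))}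
    [GrpObj B] [IsAbVar B] [GrpObj C] [IsAbVar C] (f : B ⟶ C) (v : HeightOneSpectrum (𝓞 K)) :
    Prop :=
  ∀ 𝔓 : Ideal (𝓞 (AlgebraicClosure K)), Above 𝔓 v → EvenFibres L f 𝔓

/-- `∑ (g_v - 1)` over the places `v` in `S`, where `g_v` is the number of places of `L` above
`v`. -/
noncomputable def excess (L : IntermediateField K (AlgebraicClosure K))
    (S : Finset (HeightOneSpectrum (𝓞 K))) : ℕ :=
  ∑ v ∈ S, (placeCount L v - 1)

/-- The `a ≠ 0` in `L` whose norm to `K` is a square, such that `L(√a) / L` is unramified at the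
finite places which do not lie above `2` and at those above `T`, the valuation of `a` is even at the
other places above `2`, and `a` is positive at the real places of `L` above the embeddings of `K` in
`R`. Let `2 ^ ρ` be the number of these elements modulo squares. If `T` is the set of all places above
`2` and `R` is empty, then `ρ` is the difference of the `2`-ranks of the narrow class groups of `L` and
`K`; if `T` is empty and `R` is the set of all embeddings, then it is this difference plus the
difference of the numbers of complex places of `L` and `K` (for `[L : K]` odd). -/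
def selClasses (L : IntermediateField K (AlgebraicClosure K))
    (T : Set (HeightOneSpectrum (𝓞 K))) (R : Set (K →+* ℂ)) : Set L :=
  {a | a ≠ 0 ∧ IsSquare (Algebra.norm K a) ∧
    (∀ v 𝔓, Above 𝔓 v → 2 ∉ v.asIdeal ∨ v ∈ T → UnrAt L 𝔓 (a : AlgebraicClosure K)) ∧
    (∀ v 𝔓, Above 𝔓 v → 2 ∈ v.asIdeal → v ∉ T → EvenAt L 𝔓 (a : AlgebraicClosure K)) ∧
    ∀ e : AlgebraicClosure K →+* ℂ, e.comp (algebraMap K (AlgebraicClosure K)) ∈ R →
      (∀ x ∈ L, starRingEnd ℂ (e x) = e x) → ∃ t : ℝ, 0 < t ∧ e (a : AlgebraicClosure K) = t}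

/-- `f : B → C` is an isogeny of degree `2` over `K` with these properties:
its kernel is etale at the places in `T`; at the other places above `2` outside `S` its fibres are
even; at the finite places outside `S` which do not lie above `2` its kernel is etale or its fibres
are even; if `f(x)` is fixed by a complex conjugation above an embedding in `R`, then so is `x`. -/
structure StepAt (L : IntermediateField K (AlgebraicClosure K))
    (T : Set (HeightOneSpectrum (𝓞 K))) (R : Set (K →+* ℂ))
    (S : Finset (HeightOneSpectrum (𝓞 K))) {B C : Over (Spec (.of K))}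
    [GrpObj B] [IsAbVar B] [GrpObj C] [IsAbVar C] (f : B ⟶ C) : Prop extends DegTwo f where
  etale : ∀ v ∈ T, FibresEtale f v
  two : ∀ v ∉ S, v ∉ T → 2 ∈ v.asIdeal → FibresEven L f v
  odd : ∀ v ∉ S, 2 ∉ v.asIdeal → FibresEtale f v ∨ FibresEven L f v
  real : ∀ (e : AlgebraicClosure K →+* ℂ) (s : AlgebraicClosure K ≃ₐ[K] AlgebraicClosure K),
    e.comp (algebraMap K (AlgebraicClosure K)) ∈ R → (∀ z, e (s z) = starRingEnd ℂ (e z)) →
    ∀ x, act C s (onPts f x) = onPts f x → act B s x = x

/-- `Chain L A B h b`: the homomorphism `h : A → B` is a composition of isogenies `f` of degree `2`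
over `K` satisfying `StepAt L T R S f` (where `T`, `R`, `S` depend on `f`), and `b` is the sum over
these `f` of the numbers `ρ + ∑ (g_v - 1)`, `v ∈ S`, where `selClasses L T R` consists of at most
`2 ^ ρ` classes modulo squares. -/
inductive Chain (L : IntermediateField K (AlgebraicClosure K))
    (A : Over (Spec (.of K))) [GrpObj A] [IsAbVar A] :
    (B : Over (Spec (.of K))) → [GrpObj B] → [IsAbVar B] → (A ⟶ B) → ℕ → Prop
  | refl : Chain L A A (𝟙 A) 0
  | step {B C : Over (Spec (.of K))} [GrpObj B] [IsAbVar B] [GrpObj C] [IsAbVar C] (h : A ⟶ B)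
      (f : B ⟶ C) (b ρ : ℕ) (T : Set (HeightOneSpectrum (𝓞 K))) (R : Set (K →+* ℂ))
      (S : Finset (HeightOneSpectrum (𝓞 K))) : Chain L A B h b → StepAt L T R S f →
      SquareClasses (selClasses L T R) (2 ^ ρ) → Chain L A C (h ≫ f) (b + (ρ + excess L S))

end numberField

end Pool.Agent.H.MP_ac3185_nt
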