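import Pool.Agent.H.MP_ac3185_nt.V2.ValC
import Pool.Agent.H.MP_ac3185_nt.R.PlB
import Pool.Agent.H.MP_ac3185_nt.V2.Defs

/-! The subgroup of the points with even valuations: statements without number field instances. -/

set_option autoImplicit false

open NumberField IsDedekindDomain

namespace Pool.Agent.H.MP_ac3185_nt

universe u

variable {K : Type u} [Field K] [NumberField K]

/-- The place of `L` below `𝔓`. -/
theorem v2_place (L : IntermediateField K (AlgebraicClosure K)) [NumberField L]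
    {v : HeightOneSpectrum (𝓞 K)} {𝔓 : Ideal (𝓞 (AlgebraicClosure K))} (h : Above 𝔓 v) :
    ∃ w : PlacesOver L v, PrimeOver L 𝔓 w.1 := by
  obtain ⟨w, hw, hv⟩ := exists_placeBelow L v 𝔓 h 1
  rw [one_smul] at hw
  exact ⟨⟨w, hv⟩, hw⟩

/-- A prime above a place. -/
theorem v2_prime (L : IntermediateField K (AlgebraicClosure K)) [NumberField L]
    {v : HeightOneSpectrum (𝓞 K)} (w : PlacesOver L v) :
    ∃ 𝔓 : Ideal (𝓞 (AlgebraicClosure K)), Above 𝔓 v ∧ PrimeOver L 𝔓 w.1 := by
  have hi := plb_integral L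
  have hwp : w.1.asIdeal.IsPrime := w.1.isPrime
  obtain ⟨𝔔, hQ, hQw⟩ := Ideal.exists_ideal_over_prime_of_isIntegral_of_isDomain
    (S := 𝓞 (AlgebraicClosure K)) w.1.asIdeal (by
      rw [(RingHom.injective_iff_ker_eq_bot _).1
        (FaithfulSMul.algebraMap_injective (𝓞 L) (𝓞 (AlgebraicClosure K)))]
      exact bot_le)
  refine ⟨𝔔, ⟨hQ, ?_⟩, hQ, hQw⟩
  rw [← plb_comap_comap L 𝔔, hQw]
  exact w.2

/-- For primes above `v`: all valuations above `v` are even. -/
theorem v2_all (L : IntermediateField K (AlgebraicClosure K)) [NumberField L]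
    (v : HeightOneSpectrum (𝓞 K)) {c : L} (hc : c ≠ 0) :
    (∀ 𝔓, Above 𝔓 v → EvenAt L 𝔓 (c : AlgebraicClosure K)) ↔
      ∀ w : PlacesOver L v, Even (vOrd w.1 c) := by
  constructor
  · intro h w
    obtain ⟨𝔓, h1, h2⟩ := v2_prime L w
    exact (evenAt_iff L h2 hc).1 (h 𝔓 h1)
  · intro h 𝔓 h𝔓
    obtain ⟨w, hw⟩ := v2_place L h𝔓
    exact (evenAt_iff L hw hc).2 (h w)

/-- If the valuations of `a` above `v` are even, then so are those of `a N(a)`. -/
theorem v2_integral (L : IntermediateField K (AlgebraicClosure K)) [FiniteDimensional K L]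
    (v : HeightOneSpectrum (𝓞 K)) {a : L} (ha : a ≠ 0)
    (h : ∀ 𝔓, Above 𝔓 v → EvenAt L 𝔓 (a : AlgebraicClosure K)) :
    ∀ 𝔓, Above 𝔓 v → EvenAt L 𝔓 ((a : AlgebraicClosure K) *
      algebraMap K (AlgebraicClosure K) (Algebra.norm K a)) := by
  have _ : NumberField L := NumberField.of_module_finite K L
  have hN : Algebra.norm K a ≠ 0 := (Algebra.norm_ne_zero_iff).2 ha
  have hc : a * algebraMap K L (Algebra.norm K a) ≠ 0 :=
    mul_ne_zero ha ((map_ne_zero (algebraMap K L)).2 hN)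
  exact (v2_all L v hc).2 (vOrd_mul_norm v ha ((v2_all L v ha).1 h))

/-- The elements `P` for which `φ(P)` has even valuation at all places above the places of `S` form a
subgroup of index at most `2 ^ ∑ (g_v - 1)`; the hypotheses say that `φ` is a homomorphism modulo
squares with values in the kernel of the norm to `Kˣ / Kˣ²`. -/
theorem v2_even_subgroup (L : IntermediateField K (AlgebraicClosure K)) [FiniteDimensional K L]
    (hodd : Odd (Module.finrank K L)) {A : Type*} [AddCommGroup A] (φ : A → L)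
    (h0 : ∀ P, φ P ≠ 0) (h1 : ∀ P, IsSquare (Algebra.norm K (φ P)))
    (h2 : ∀ P Q, IsSquare (φ P * φ Q * φ (P + Q))) (S : Finset (HeightOneSpectrum (𝓞 K))) :
    ∃ B : AddSubgroup A, B.index ≠ 0 ∧ B.index ≤ 2 ^ (∑ v ∈ S, (placeCount L v - 1)) ∧
      ∀ P, P ∈ B ↔ ∀ v ∈ S, ∀ 𝔓, Above 𝔓 v → EvenAt L 𝔓 (φ P : AlgebraicClosure K) := by
  have _ : NumberField L := NumberField.of_module_finite K L
  obtain ⟨B, hB0, hB, hBe⟩ := exists_even_subgroup hodd φ h0 h1 h2 S
  refine ⟨B, hB0, hB, fun P => ?_⟩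
  rw [hBe]
  constructor
  · intro h v hv
    exact (v2_all L v (h0 P)).2 (h v hv)
  · intro h v hv
    exact (v2_all L v (h0 P)).1 (h v hv)

end Pool.Agent.H.MP_ac3185_nt
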