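import Pool.Agent.H.MP_ac3185_nt.V2.Step
import Pool.Agent.H.MP_ac3185_nt.V2.Val

/-! The index of `C(K) + f(B(L))` in `C(L)`, for an isogeny `f : B → C` of degree `2`. -/

set_option autoImplicit false

open CategoryTheory AlgebraicGeometry NumberField IsDedekindDomain
open scoped MonObj

namespace Pool.Agent.H.MP_ac3185_nt

universe u

section defs

variable {K : Type u} [Field K]

/-- The group `C(L)`, as a subgroup of `C(Kbar)`. -/
def fixAdd (L : IntermediateField K (AlgebraicClosure K)) (C : Over (Spec (.of K))) [GrpObj C]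
    [IsAbVar C] : AddSubgroup (Pts C (AlgebraicClosure K)) where
  carrier := {x | ∀ s ∈ L.fixingSubgroup, act C s x = x}
  zero_mem' := fun s _ => v2s_act_zero C s
  add_mem' := fun {x y} hx hy s hs => by
    rw [vc_act_add, hx s hs, hy s hs]
  neg_mem' := fun {x} hx s hs => by
    rw [v2s_act_neg, hx s hs]

/-- The group `C(K) + f(B(L))`, as a subgroup of `C(Kbar)`. -/
def splitAdd (L : IntermediateField K (AlgebraicClosure K)) {B C : Over (Spec (.of K))}
    [GrpObj B] [IsAbVar B] [GrpObj C] [IsAbVar C] (f : B ⟶ C) (hf : IsMonHom f) :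
    AddSubgroup (Pts C (AlgebraicClosure K)) where
  carrier := {P | ∃ y0 x, (∀ s, act C s y0 = y0) ∧ (∀ s ∈ L.fixingSubgroup, act B s x = x) ∧
    P = y0 + onPts f x}
  zero_mem' := ⟨0, 0, v2s_act_zero C, fun s _ => v2s_act_zero B s, by
    rw [v2s_onPts_zero, add_zero]⟩
  add_mem' := by
    rintro _ _ ⟨y0, x, h1, h2, rfl⟩ ⟨z0, w, h3, h4, rfl⟩
    refine ⟨y0 + z0, x + w, fun s => ?_, fun s hs => ?_, ?_⟩
    · rw [vc_act_add, h1, h3]
    · rw [vc_act_add, h2 s hs, h4 s hs]
    · rw [vc_onPts_add]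
      abel
  neg_mem' := by
    rintro _ ⟨y0, x, h1, h2, rfl⟩
    refine ⟨-y0, -x, fun s => ?_, fun s hs => ?_, ?_⟩
    · rw [v2s_act_neg, h1]
    · rw [v2s_act_neg, h2 s hs]
    · rw [v2s_onPts_neg]
      abel

theorem mem_fixAdd {L : IntermediateField K (AlgebraicClosure K)} {C : Over (Spec (.of K))}
    [GrpObj C] [IsAbVar C] {x : Pts C (AlgebraicClosure K)} :
    x ∈ fixAdd L C ↔ ∀ s ∈ L.fixingSubgroup, act C s x = x := Iff.rfl

theorem mem_splitAdd {L : IntermediateField K (AlgebraicClosure K)} {B C : Over (Spec (.of K))}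
    [GrpObj B] [IsAbVar B] [GrpObj C] [IsAbVar C] {f : B ⟶ C} {hf : IsMonHom f}
    {P : Pts C (AlgebraicClosure K)} :
    P ∈ splitAdd L f hf ↔ ∃ y0 x, (∀ s, act C s y0 = y0) ∧
      (∀ s ∈ L.fixingSubgroup, act B s x = x) ∧ P = y0 + onPts f x := Iff.rfl

end defs

section index

/-- A subgroup `D` such that a function from the group `B` to a finite set separates the classes
modulo `D`. -/
theorem v2c_index {A : Type*} [AddCommGroup A] (D B : AddSubgroup A) {T : Type*} [Finite T]
    (g : B → T) (hg : ∀ x y : B, g x = g y → (x : A) - y ∈ D) :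
    D.relIndex B ≠ 0 ∧ D.relIndex B ≤ Nat.card T := by
  classical
  let F : B ⧸ D.addSubgroupOf B → T := fun q => g q.out
  have hF : Function.Injective F := by
    intro p q h
    have h1 := hg _ _ h
    have h2 : -q.out + p.out ∈ D.addSubgroupOf B := by
      rw [AddSubgroup.mem_addSubgroupOf, AddSubgroup.coe_add, AddSubgroup.coe_neg,
        neg_add_eq_sub]
      exact h1
    have h3 := QuotientAddGroup.eq.2 h2
    rw [QuotientAddGroup.out_eq', QuotientAddGroup.out_eq'] at h3
    exact h3.symm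
  have hfin : Finite (B ⧸ D.addSubgroupOf B) := Finite.of_injective F hF
  constructor
  · show (D.addSubgroupOf B).index ≠ 0
    rw [AddSubgroup.index]
    exact Nat.card_pos.ne'
  · show (D.addSubgroupOf B).index ≤ _
    rw [AddSubgroup.index]
    exact Nat.card_le_card_of_injective F hF

end index

section step

variable {K : Type u} [Field K] [NumberField K]

/-- A set `X` of elements of `L` which is covered by `n` square classes. -/
def CoveredBy (L : IntermediateField K (AlgebraicClosure K)) (X : Set L) (n : ℕ) : Prop :=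
  ∃ T : Finset L, T.card ≤ n ∧ ∀ c ∈ X, ∃ t ∈ T, t ≠ 0 ∧ IsSquare (c * t)

/-- The index of `C(K) + f(B(L))` in `C(L)`. -/
theorem v2c_step (L : IntermediateField K (AlgebraicClosure K)) [FiniteDimensional K L]
    (hodd : Odd (Module.finrank K L)) {B C : Over (Spec (.of K))} [GrpObj B] [IsAbVar B]
    [GrpObj C] [IsAbVar C] (f : B ⟶ C) (hf : IsMonHom f)
    (S : Finset (HeightOneSpectrum (𝓞 K))) (X : Set L) (n : ℕ)
    (hX : CoveredBy L X n) (c : Pts C (AlgebraicClosure K) → L) (h0 : ∀ P, c P ≠ 0)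
    (h1 : ∀ P, (∀ s ∈ L.fixingSubgroup, act C s P = P) → IsSquare (Algebra.norm K (c P)))
    (h2 : ∀ P Q, (∀ s ∈ L.fixingSubgroup, act C s P = P) →
        (∀ s ∈ L.fixingSubgroup, act C s Q = Q) → IsSquare (c P * c Q * c (P + Q)))
    (h3 : ∀ P, (∀ s ∈ L.fixingSubgroup, act C s P = P) → IsSquare (c P) →
        ∃ y0 x, (∀ s, act C s y0 = y0) ∧ (∀ s ∈ L.fixingSubgroup, act B s x = x) ∧
          P = y0 + onPts f x)
    (h4 : ∀ P, (∀ s ∈ L.fixingSubgroup, act C s P = P) →
      (∀ v ∈ S, ∀ 𝔓, Above 𝔓 v → EvenAt L 𝔓 (c P : AlgebraicClosure K)) → c P ∈ X) :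
    (splitAdd L f hf).relIndex (fixAdd L C) ≠ 0 ∧
      (splitAdd L f hf).relIndex (fixAdd L C) ≤ n * 2 ^ (∑ v ∈ S, (placeCount L v - 1)) := by
  classical
  let D : AddSubgroup (fixAdd L C) := (splitAdd L f hf).addSubgroupOf (fixAdd L C)
  obtain ⟨E, hE0, hE, hEm⟩ := v2_even_subgroup L hodd (A := fixAdd L C) (fun P => c P)
    (fun P => h0 P) (fun P => h1 P P.2) (fun P Q => h2 P Q P.2 Q.2) S
  obtain ⟨T, hT, hTX⟩ := hX
  have hpick : ∀ P : E, ∃ t : T, (t : L) ≠ 0 ∧ IsSquare (c ((P : fixAdd L C) :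
      Pts C (AlgebraicClosure K)) * (t : L)) := by
    intro P
    obtain ⟨t, ht, ht0, hs⟩ := hTX _ (h4 ((P : fixAdd L C) : Pts C (AlgebraicClosure K))
      (P : fixAdd L C).2 ((hEm P).1 P.2))
    exact ⟨⟨t, ht⟩, ht0, hs⟩
  choose g hg0 hg using hpick
  have hsep : ∀ x y : E, g x = g y → (x : fixAdd L C) - y ∈ D := by
    intro x y hxy
    have e1 := hg x
    have e2 := hg y
    rw [← hxy] at e2
    set P := ((x : fixAdd L C) : Pts C (AlgebraicClosure K)) with hP
    set Q := ((y : fixAdd L C) : Pts C (AlgebraicClosure K)) with hQ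
    have hPm := (x : fixAdd L C).2
    have hQm := (y : fixAdd L C).2
    have hPQm : P - Q ∈ fixAdd L C := sub_mem hPm hQm
    have e3 := h2 (P - Q) Q hPQm hQm
    rw [sub_add_cancel] at e3
    -- the classes of `c P` and `c Q` are equal
    have e4 : IsSquare (c (P - Q)) := by
      obtain ⟨a, ha⟩ := e1
      obtain ⟨b, hb⟩ := e2
      obtain ⟨d, hd⟩ := e3
      have ht := hg0 x
      have hcP := h0 P
      have hcQ := h0 Q
      refine ⟨d * (g x : L) / (a * b), ?_⟩
      have hab : a * b ≠ 0 := by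
        intro h
        have h5 : (c P * (g x : L)) * (c Q * (g x : L)) = (a * b) * (a * b) := by
          rw [ha, hb]
          ring
        rw [h, mul_zero] at h5
        exact mul_ne_zero (mul_ne_zero hcP ht) (mul_ne_zero hcQ ht) h5
      have h6 : d * (g x : L) / (a * b) * (d * (g x : L) / (a * b)) =
          (d * d) * ((g x : L) * (g x : L)) / ((a * a) * (b * b)) := by
        field_simp
      rw [h6, ← hd, ← ha, ← hb]
      field_simp
    exact h3 (P - Q) hPQm e4
  obtain ⟨i1, i2⟩ := v2c_index D E g hsep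
  have hTc : Nat.card T ≤ n := by
    rw [Nat.card_eq_fintype_card, Fintype.card_coe]
    exact hT
  have hmul : D.relIndex E * E.index = (D ⊓ E).index := by
    rw [← AddSubgroup.inf_relIndex_right, AddSubgroup.relIndex_mul_index inf_le_right]
  have hne : (D ⊓ E).index ≠ 0 := by
    rw [← hmul]
    exact mul_ne_zero i1 hE0
  have hdvd : D.index ∣ (D ⊓ E).index := AddSubgroup.index_dvd_of_le inf_le_left
  have hDi : D.index = (splitAdd L f hf).relIndex (fixAdd L C) := rfl
  rw [← hDi]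
  refine ⟨fun h => hne (Nat.eq_zero_of_zero_dvd (h ▸ hdvd)), ?_⟩
  calc D.index ≤ (D ⊓ E).index := Nat.le_of_dvd (Nat.pos_of_ne_zero hne) hdvd
    _ = D.relIndex E * E.index := hmul.symm
    _ ≤ n * 2 ^ (∑ v ∈ S, (placeCount L v - 1)) := Nat.mul_le_mul (i2.trans hTc) hE

end step

end Pool.Agent.H.MP_ac3185_nt
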