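import Pool.Agent.H.MP_ac3185_nt.V.RootA
import Pool.Agent.H.MP_ac3185_nt.V2.CountA

/-! Counting in one step. -/

set_option autoImplicit false

open CategoryTheory AlgebraicGeometry NumberField IsDedekindDomain
open scoped MonObj

namespace Pool.Agent.H.MP_ac3185_nt

universe u

variable {K : Type u} [Field K] [NumberField K]

/-- Every finite prime lies above a finite place. -/
theorem v2c_above (𝔓 : Ideal (𝓞 (AlgebraicClosure K))) (h : FinPrime 𝔓) :
    ∃ v : HeightOneSpectrum (𝓞 K), Above 𝔓 v := by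
  obtain ⟨hp, h0⟩ := h
  have hint : Algebra.IsIntegral (𝓞 K) (𝓞 (AlgebraicClosure K)) := by
    constructor
    intro x
    have h1 : IsIntegral ℤ x := by
      have h2 := RingOfIntegers.isIntegral_coe x
      exact (isIntegral_algebraMap_iff
        (RingOfIntegers.coe_injective (K := AlgebraicClosure K))).1 h2
    exact h1.tower_top
  obtain ⟨x, hx, hx0⟩ := Submodule.exists_mem_ne_zero_of_ne_bot h0
  have hne : 𝔓.comap (algebraMap (𝓞 K) (𝓞 (AlgebraicClosure K))) ≠ ⊥ :=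
    Ideal.comap_ne_bot_of_integral_mem hx0 hx (Algebra.IsIntegral.isIntegral x)
  exact ⟨⟨𝔓.comap (algebraMap (𝓞 K) (𝓞 (AlgebraicClosure K))), Ideal.comap_isPrime _ _, hne⟩,
    hp, rfl⟩

theorem v2c_two_mem {𝔓 : Ideal (𝓞 (AlgebraicClosure K))} {v : HeightOneSpectrum (𝓞 K)}
    (h : Above 𝔓 v) : (2 : 𝓞 (AlgebraicClosure K)) ∈ 𝔓 ↔ (2 : 𝓞 K) ∈ v.asIdeal := by
  rw [← h.2, Ideal.mem_comap, map_ofNat]

/-- From the index of `C(K) + f(B(L))` in `C(L)` to representatives of the cosets. -/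
theorem v2c_reps (L : IntermediateField K (AlgebraicClosure K)) {B C : Over (Spec (.of K))}
    [GrpObj B] [IsAbVar B] [GrpObj C] [IsAbVar C] (f : B ⟶ C) (hf : IsMonHom f) (b : ℕ)
    (h0 : (splitAdd L f hf).relIndex (fixAdd L C) ≠ 0)
    (h1 : (splitAdd L f hf).relIndex (fixAdd L C) ≤ 2 ^ b) : QuotBound L f b := by
  classical
  let D : AddSubgroup (fixAdd L C) := (splitAdd L f hf).addSubgroupOf (fixAdd L C)
  have hDi : D.index = (splitAdd L f hf).relIndex (fixAdd L C) := rfl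
  rw [← hDi] at h0 h1
  have hfin : Finite (fixAdd L C ⧸ D) := (Nat.card_ne_zero.1 h0).2
  let _ := Fintype.ofFinite (fixAdd L C ⧸ D)
  let F : fixAdd L C ⧸ D → Pts C (AlgebraicClosure K) :=
    fun q => ((q.out : fixAdd L C) : Pts C (AlgebraicClosure K))
  refine ⟨Finset.univ.image F, ?_, ?_, ?_⟩
  · refine Finset.card_image_le.trans ?_
    rw [Finset.card_univ, ← Nat.card_eq_fintype_card]
    exact h1
  · intro t ht
    obtain ⟨q, -, rfl⟩ := Finset.mem_image.1 ht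
    exact (q.out : fixAdd L C).2
  · intro y hy
    let y' : fixAdd L C := ⟨y, hy⟩
    have h2 : -(y' : fixAdd L C ⧸ D).out + y' ∈ D := by
      rw [← QuotientAddGroup.eq, QuotientAddGroup.out_eq']
    have h3 : y - ((y' : fixAdd L C ⧸ D).out : fixAdd L C) ∈ splitAdd L f hf := by
      have h4 : -(((y' : fixAdd L C ⧸ D).out : fixAdd L C) : Pts C (AlgebraicClosure K)) + y ∈
        splitAdd L f hf := h2
      rwa [neg_add_eq_sub] at h4
    obtain ⟨y0, x, e1, e2, e3⟩ := h3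
    refine ⟨F (y' : fixAdd L C ⧸ D), Finset.mem_image_of_mem F (Finset.mem_univ _), y0, x, e1, e2,
      ?_⟩
    rw [← e3]
    show y = _ + (y - _)
    abel

theorem v2c_covered {L : IntermediateField K (AlgebraicClosure K)} {X : Set L} {n : ℕ}
    (hX : SquareClasses X n) (h0 : ∀ a ∈ X, a ≠ 0) : CoveredBy L X n := by
  obtain ⟨T, hT, h⟩ := hX
  refine ⟨T, hT, fun c hc => ?_⟩
  obtain ⟨t, ht, u, hu, h1⟩ := h c hc
  refine ⟨t, ht, ?_, t * u, ?_⟩
  · rintro rfl
    rw [zero_mul] at h1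
    exact h0 c hc h1
  · rw [h1]
    ring

/-- Even fibres give even valuations of `c(P)`. -/
theorem v2c_even (L : IntermediateField K (AlgebraicClosure K)) [FiniteDimensional K L]
    {B C : Over (Spec (.of K))} [GrpObj B] [IsAbVar B] [GrpObj C] [IsAbVar C] (f : B ⟶ C)
    (v : HeightOneSpectrum (𝓞 K)) (hv : FibresEven L f v) (P : Pts C (AlgebraicClosure K))
    (hP : ∀ s ∈ L.fixingSubgroup, act C s P = P) (c : L)
    (hc : ∃ (a : L) (r : AlgebraicClosure K) (b : Pts B (AlgebraicClosure K)), a ≠ 0 ∧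
      r * r = a ∧ onPts f b = P ∧ (∀ s ∈ L.fixingSubgroup, s r = r ↔ act B s b = b) ∧
      c = a * algebraMap K L (Algebra.norm K a)) (𝔓 : Ideal (𝓞 (AlgebraicClosure K)))
    (h𝔓 : Above 𝔓 v) : EvenAt L 𝔓 (c : AlgebraicClosure K) := by
  obtain ⟨a, r, b, ha, hr, hb, hs, rfl⟩ := hc
  have hr0 : r ≠ 0 := by
    rintro rfl
    rw [zero_mul] at hr
    exact ha (Subtype.ext hr.symm)
  have h1 : ∀ 𝔓, Above 𝔓 v → EvenAt L 𝔓 (a : AlgebraicClosure K) := by
    intro 𝔔 h𝔔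
    rw [← hr]
    refine hv 𝔔 h𝔔 b r hr0 (by rw [hr]; exact a.2) (fun s hs' => ?_)
      (fun s hs' => (hs s hs').symm)
    rw [hb]
    exact hP s hs'
  exact v2_integral L v ha h1 𝔓 h𝔓

/-- One step. -/
theorem v2c_mix (L : IntermediateField K (AlgebraicClosure K)) [FiniteDimensional K L]
    (hodd : Odd (Module.finrank K L)) (ρ : ℕ) (T : Set (HeightOneSpectrum (𝓞 K)))
    (R : Set (K →+* ℂ)) (hρ : SquareClasses (selClasses L T R) (2 ^ ρ))
    (S : Finset (HeightOneSpectrum (𝓞 K))) {B C : Over (Spec (.of K))} [GrpObj B] [IsAbVar B]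
    [GrpObj C] [IsAbVar C] (f : B ⟶ C) (hf : StepAt L T R S f) :
    QuotBound L f (ρ + excess L S) := by
  obtain ⟨c, h0, h1, h2, h3, -, h5, h6, h7⟩ := v2s_gen L hodd f hf.hom hf.surj hf.ker
  obtain ⟨i1, i2⟩ := v2c_step L hodd f hf.hom S (selClasses L T R) (2 ^ ρ)
    (v2c_covered hρ fun a ha => ha.1) c h0 h1 h2 h6 (by
      intro P hP hS
      refine ⟨h0 P, h1 P hP, fun v 𝔓 hv hcase => ?_, fun v 𝔓 hv hv2 hvT => ?_,
        fun e heR he => h5 e (fun x => he x x.2) (fun s hs => hf.real e s heR hs) P hP⟩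
      · have h𝔓 := vr_finPrime v 𝔓 hv
        by_cases hvT : v ∈ T
        · exact h3 𝔓 (hf.etale v hvT 𝔓 hv) P hP
        · have hv2 : (2 : 𝓞 K) ∉ v.asIdeal := hcase.resolve_right hvT
          have h2' : (2 : 𝓞 (AlgebraicClosure K)) ∉ 𝔓 := fun h => hv2 ((v2c_two_mem hv).1 h)
          by_cases hvS : v ∈ S
          · exact vu_unr L h𝔓 h2' (c P).2 (hS v hvS 𝔓 hv)
          · rcases hf.odd v hvS hv2 with h | h
            · exact h3 𝔓 (h 𝔓 hv) P hP
            · exact vu_unr L h𝔓 h2' (c P).2 (v2c_even L f v h P hP (c P) (h7 P hP) 𝔓 hv)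
      · by_cases hvS : v ∈ S
        · exact hS v hvS 𝔓 hv
        · exact v2c_even L f v (hf.two v hvS hvT hv2) P hP (c P) (h7 P hP) 𝔓 hv)
  refine v2c_reps L f hf.hom _ i1 (i2.trans (le_of_eq ?_))
  rw [pow_add]
  rfl

end Pool.Agent.H.MP_ac3185_nt
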