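import Pool.Agent.H.MP_ac3185_nt.V2.Count

/-! Composition of steps and the rank (names `v2k_`). -/

set_option autoImplicit false

open CategoryTheory AlgebraicGeometry NumberField IsDedekindDomain
open scoped MonObj

namespace Pool.Agent.H.MP_ac3185_nt

universe u

variable {K : Type u} [Field K] [NumberField K]

omit [NumberField K] in
/-- Composition. -/
theorem v2k_comp {L : IntermediateField K (AlgebraicClosure K)}
    {A B C : Over (Spec (.of K))} [GrpObj A] [IsAbVar A] [GrpObj B] [IsAbVar B] [GrpObj C]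
    [IsAbVar C] {h : A ⟶ B} {f : B ⟶ C} (hf : IsMonHom f) {a c : ℕ} (h1 : QuotBound L h a)
    (h2 : QuotBound L f c) : QuotBound L (h ≫ f) (a + c) := by
  classical
  obtain ⟨T1, hT1, g1, k1⟩ := h1
  obtain ⟨T2, hT2, g2, k2⟩ := h2
  refine ⟨(T2 ×ˢ T1).image fun p => p.1 + onPts f p.2, ?_, ?_, ?_⟩
  · refine Finset.card_image_le.trans ?_
    rw [Finset.card_product, mul_comm, pow_add]
    exact Nat.mul_le_mul hT1 hT2
  · intro t ht s hs
    obtain ⟨⟨t2, t1⟩, hp, rfl⟩ := Finset.mem_image.1 ht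
    obtain ⟨ht2, ht1⟩ := Finset.mem_product.1 hp
    simp only at ht1 ht2 ⊢
    rw [vc_act_add, vc_onPts_act, g2 t2 ht2 s hs, g1 t1 ht1 s hs]
  · intro y hy
    obtain ⟨t2, ht2, y0, x, hy0, hx, rfl⟩ := k2 y hy
    obtain ⟨t1, ht1, x0, z, hx0, hz, rfl⟩ := k1 x hx
    refine ⟨t2 + onPts f t1, Finset.mem_image.2 ⟨(t2, t1), Finset.mem_product.2 ⟨ht2, ht1⟩, rfl⟩,
      y0 + onPts f x0, z, fun s => ?_, hz, ?_⟩
    · rw [vc_act_add, hy0, vc_onPts_act, hx0]
    · rw [vc_onPts_comp, vc_onPts_add, vc_onPts_add]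
      abel

theorem v2k_chain (L : IntermediateField K (AlgebraicClosure K)) [FiniteDimensional K L]
    (hodd : Odd (Module.finrank K L)) (A : Over (Spec (.of K))) [GrpObj A] [IsAbVar A]
    {B : Over (Spec (.of K))} [GrpObj B] [IsAbVar B] (h : A ⟶ B) (b : ℕ)
    (hc : Chain L A B h b) : QuotBound L h b := by
  induction hc with
  | refl =>
    refine ⟨{0}, by simp, fun t ht s _ => ?_, fun y hy => ⟨0, Finset.mem_singleton_self 0, 0, y,
      fun s => map_zero (galHom A s), hy, ?_⟩⟩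
    · rw [Finset.mem_singleton.1 ht]
      exact map_zero (galHom A s)
    · rw [vc_onPts_id, zero_add, zero_add]
  | step h f b ρ T R S _ hf hρ ih => exact v2k_comp hf.hom ih (v2c_mix L hodd ρ T R hρ S f hf)

/-- A finitely generated abelian group `M`, covered by at most `2 ^ b` cosets of `N + 2 ^ m M`. -/
theorem v2k_group {M : Type*} [AddCommGroup M] [Module.Finite ℤ M] (N : Submodule ℤ M) (m b : ℕ)
    (T : Finset M) (hT : T.card ≤ 2 ^ b)
    (h : ∀ y, ∃ t ∈ T, ∃ n ∈ N, ∃ x, y = t + (n + (2 ^ m : ℕ) • x)) :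
    Module.finrank ℤ N ≤ Module.finrank ℤ M ∧
      m * (Module.finrank ℤ M - Module.finrank ℤ N) ≤ b := by
  classical
  have e1 : Module.finrank ℤ (M ⧸ N) + Module.finrank ℤ N = Module.finrank ℤ M :=
    Submodule.finrank_quotient_add_finrank N
  refine ⟨by omega, ?_⟩
  obtain ⟨r, hr⟩ : ∃ r, r = Module.finrank ℤ (M ⧸ N) := ⟨_, rfl⟩
  have e2 : Module.finrank ℤ M - Module.finrank ℤ N = r := by omega
  rw [e2]
  have e3 : Module.finrank ℤ ((M ⧸ N) ⧸ Submodule.torsion ℤ (M ⧸ N)) = r := by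
    rw [hr]
    unfold Module.finrank
    rw [rank_quotient_eq_of_le_torsion (le_refl _)]
  have hfree : Module.Free ℤ ((M ⧸ N) ⧸ Submodule.torsion ℤ (M ⧸ N)) := inferInstance
  let B := Module.finBasis ℤ ((M ⧸ N) ⧸ Submodule.torsion ℤ (M ⧸ N))
  let φ : M →ₗ[ℤ] (Fin (Module.finrank ℤ ((M ⧸ N) ⧸ Submodule.torsion ℤ (M ⧸ N))) → ℤ) :=
    (B.equivFun.toLinearMap).comp ((Submodule.mkQ _).comp (Submodule.mkQ N))
  have hφ : Function.Surjective φ :=
    B.equivFun.surjective.comp ((Submodule.mkQ_surjective _).comp (Submodule.mkQ_surjective N))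
  have hφN : ∀ n ∈ N, φ n = 0 := by
    intro n hn
    have h1 : Submodule.mkQ N n = 0 := by
      rw [Submodule.mkQ_apply]
      exact (Submodule.Quotient.mk_eq_zero N).2 hn
    show B.equivFun (Submodule.mkQ _ (Submodule.mkQ N n)) = 0
    rw [h1, map_zero, map_zero]
  let ψ : M → (Fin (Module.finrank ℤ ((M ⧸ N) ⧸ Submodule.torsion ℤ (M ⧸ N))) →
      ZMod (2 ^ m)) := fun y i => ((φ y i : ℤ) : ZMod (2 ^ m))
  have hψ : Function.Surjective ψ := by
    intro z
    choose w hw using fun i => ZMod.intCast_surjective (z i)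
    obtain ⟨y, hy⟩ := hφ w
    refine ⟨y, funext fun i => ?_⟩
    show ((φ y i : ℤ) : ZMod (2 ^ m)) = z i
    rw [hy, hw]
  have hψT : ∀ z, ∃ t ∈ T, ψ t = z := by
    intro z
    obtain ⟨y, rfl⟩ := hψ z
    obtain ⟨t, ht, n, hn, x, rfl⟩ := h y
    refine ⟨t, ht, funext fun i => ?_⟩
    show ((φ t i : ℤ) : ZMod (2 ^ m)) = ((φ (t + (n + (2 ^ m : ℕ) • x)) i : ℤ) : ZMod (2 ^ m))
    rw [map_add, map_add, hφN n hn, map_nsmul, zero_add, Pi.add_apply, Pi.smul_apply,
      nsmul_eq_mul]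
    push_cast
    have h2 : ((2 : ZMod (2 ^ m)) ^ m) = 0 := by
      have h3 := ZMod.natCast_self (2 ^ m)
      push_cast at h3
      exact h3
    rw [h2, zero_mul, add_zero]
  have hcard : Nat.card (Fin (Module.finrank ℤ ((M ⧸ N) ⧸ Submodule.torsion ℤ (M ⧸ N))) →
      ZMod (2 ^ m)) ≤ T.card := by
    have h1 : Function.Surjective fun t : T => ψ (t : M) := by
      intro z
      obtain ⟨t, ht, h2⟩ := hψT z
      exact ⟨⟨t, ht⟩, h2⟩
    have h2 := Nat.card_le_card_of_surjective _ h1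
    have h3 : Nat.card T = T.card := by simp
    rwa [h3] at h2
  rw [Nat.card_fun, Nat.card_zmod, Nat.card_fin, e3, ← pow_mul] at hcard
  exact (Nat.pow_le_pow_iff_right (by norm_num)).1 (hcard.trans hT)

/-- The bound for the rank; `E = A(K) + 2^m A(L)` has at most `2 ^ b` cosets in `A(L)`. -/
theorem v2k_rank (L : IntermediateField K (AlgebraicClosure K)) [FiniteDimensional K L]
    (A : Over (Spec (.of K))) [GrpObj A] [IsAbVar A] (hMW : Module.Finite ℤ (Pts A L))
    (m b : ℕ) (h : A ⟶ A) (hh : ∀ x, onPts h x = (2 ^ m : ℕ) • x) (hb : QuotBound L h b) :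
    rk A ⊥ ≤ rk A L ∧ m * (rk A L - rk A ⊥) ≤ b := by
  classical
  obtain ⟨T, hT, hT1, hT2⟩ := hb
  set j := ptsa_j A (bot_le : ⊥ ≤ L) with hj
  let N : Submodule ℤ (Pts A L) := LinearMap.range j.toIntLinearMap
  have hinj : Function.Injective j.toIntLinearMap := sp_j_inj A _
  have h4 : Module.finrank ℤ (Pts A (⊥ : IntermediateField K (AlgebraicClosure K))) =
      Module.finrank ℤ N := (LinearEquiv.ofInjective j.toIntLinearMap hinj).finrank_eq
  have hc : ∀ t : T, ∃ t' : Pts A L, toBar A L t' = (t : Pts A (AlgebraicClosure K)) := by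
    rintro ⟨t, ht⟩
    obtain ⟨t', ht'⟩ := sp_bar_of_fixed A L t (hT1 t ht)
    exact ⟨t', ht'⟩
  choose τ hτ using hc
  have h5 := v2k_group N m b (Finset.univ.image τ) (by
      refine Finset.card_image_le.trans ?_
      rw [Finset.card_univ, Fintype.card_coe]
      exact hT) fun y => by
    obtain ⟨t, ht, y0, z, hy0, hz, he⟩ := hT2 (toBar A L y)
      (fun s hs' => sp_bar_fix A L s hs' y)
    obtain ⟨y1, rfl⟩ := sp_bar_of_fixed A ⊥ y0 (fun s _ => hy0 s)
    obtain ⟨z1, rfl⟩ := sp_bar_of_fixed A L z hz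
    refine ⟨τ ⟨t, ht⟩, Finset.mem_image_of_mem _ (Finset.mem_univ _), j y1, ⟨y1, rfl⟩, z1, ?_⟩
    apply sp_bar_inj A L
    rw [he, hh, map_add, map_add, hj, sp_bar_j, map_nsmul, hτ]
  unfold rk
  rw [h4]
  exact h5

/-- A submodule of the same rank contains a multiple of every element. -/
theorem v2k_mult {M : Type*} [AddCommGroup M] [Module.Finite ℤ M] (N : Submodule ℤ M)
    (h : Module.finrank ℤ M = Module.finrank ℤ N) (x : M) : ∃ n : ℕ, 0 < n ∧ n • x ∈ N := by
  have e1 : Module.finrank ℤ (M ⧸ N) + Module.finrank ℤ N = Module.finrank ℤ M :=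
    Submodule.finrank_quotient_add_finrank N
  have e2 : Module.finrank ℤ (M ⧸ N) = 0 := by omega
  have e3 : Module.IsTorsion ℤ (M ⧸ N) := Module.finrank_eq_zero_iff_isTorsion.1 e2
  obtain ⟨⟨a, ha⟩, h1⟩ := e3 (x := Submodule.Quotient.mk x)
  have ha0 : a ≠ 0 := nonZeroDivisors.ne_zero ha
  have h2 : a • x ∈ N := by
    have h3 : a • (Submodule.Quotient.mk x : M ⧸ N) = 0 := h1
    rw [← Submodule.Quotient.mk_smul] at h3
    exact (Submodule.Quotient.mk_eq_zero N).1 h3
  refine ⟨a.natAbs, Int.natAbs_pos.2 ha0, ?_⟩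
  rw [← natCast_zsmul]
  rcases Int.natAbs_eq a with h4 | h4
  · rw [← h4]
    exact h2
  · have h5 : (a.natAbs : ℤ) = -a := by omega
    rw [h5, neg_smul]
    exact N.neg_mem h2

/-- A point of `A(L)` with no multiple in `A(K)` gives a larger rank. -/
theorem v2k_new (L : IntermediateField K (AlgebraicClosure K)) [FiniteDimensional K L]
    (A : Over (Spec (.of K))) [GrpObj A] [IsAbVar A] (hMW : Module.Finite ℤ (Pts A L))
    (x : Pts A (AlgebraicClosure K)) (hx : ∀ s ∈ L.fixingSubgroup, act A s x = x)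
    (hx' : ∀ n : ℕ, 0 < n → ∃ s, act A s (n • x) ≠ n • x) : rk A L ≠ rk A ⊥ := by
  intro h0
  set j := ptsa_j A (bot_le : ⊥ ≤ L) with hj
  let N : Submodule ℤ (Pts A L) := LinearMap.range j.toIntLinearMap
  have hinj : Function.Injective j.toIntLinearMap := sp_j_inj A _
  have h4 : Module.finrank ℤ (Pts A (⊥ : IntermediateField K (AlgebraicClosure K))) =
      Module.finrank ℤ N := (LinearEquiv.ofInjective j.toIntLinearMap hinj).finrank_eq
  obtain ⟨x1, rfl⟩ := sp_bar_of_fixed A L x hx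
  unfold rk at h0
  rw [h4] at h0
  obtain ⟨n, hn, y, hy⟩ := v2k_mult N h0 x1
  obtain ⟨s, hs⟩ := hx' n hn
  refine hs ?_
  have h5 : n • toBar A L x1 = toBar A ⊥ y := by
    rw [← map_nsmul, ← hy]
    exact sp_bar_j A _ y
  rw [h5]
  exact sp_bar_fix A ⊥ s (by rw [IntermediateField.fixingSubgroup_bot]; trivial) y

end Pool.Agent.H.MP_ac3185_nt
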