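import Pool.Agent.H.MP_ac3185_nt.V2.Defs
import Pool.Agent.H.MP_ac3185_nt.V.RootC

/-! The sum of the local degrees (names `v2p_`). -/

set_option autoImplicit false

open CategoryTheory AlgebraicGeometry NumberField IsDedekindDomain
open scoped MonObj Pointwise

namespace Pool.Agent.H.MP_ac3185_nt

universe u

/-- The size of the orbit of the coset of `s`. -/
theorem v2p_orbit {G : Type*} [Group G] (D H : Subgroup G) (s : G) :
    (MulAction.orbit D (s : G ⧸ H)).ncard =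
      H.relIndex (D.map (MulAut.conj s⁻¹).toMonoidHom) := by
  rw [← MulAction.index_stabilizer, ← Subgroup.relIndex_comap]
  have h1 : MulAction.stabilizer D (s : G ⧸ H) =
      (H.comap (MulAut.conj s⁻¹).toMonoidHom).subgroupOf D := by
    ext ⟨d, hd⟩
    rw [MulAction.mem_stabilizer_iff, Subgroup.mem_subgroupOf, Subgroup.mem_comap]
    have h2 : (⟨d, hd⟩ : D) • (s : G ⧸ H) = ((d * s : G) : G ⧸ H) := rfl
    rw [h2, QuotientGroup.eq]
    have h3 : (d * s)⁻¹ * s = (s⁻¹ * d * s)⁻¹ := by group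
    have h4 : (MulAut.conj s⁻¹).toMonoidHom d = s⁻¹ * d * s := by
      simp
    rw [h3, inv_mem_iff]
    show s⁻¹ * d * s ∈ H ↔ (MulAut.conj s⁻¹).toMonoidHom d ∈ H
    rw [h4]
  rw [h1]
  rfl

/-- The sum over representatives of the double cosets `D s H`. -/
theorem v2p_dc {G : Type*} [Group G] (D H : Subgroup G) [H.FiniteIndex] {J : Type*} (s : J → G)
    (h1 : ∀ i j, ∀ d ∈ D, (s i)⁻¹ * (d * s j) ∈ H → i = j)
    (h2 : ∀ g : G, ∃ i, ∃ d ∈ D, (s i)⁻¹ * (d * g) ∈ H) :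
    ∑ᶠ i, H.relIndex (D.map (MulAut.conj (s i)⁻¹).toMonoidHom) = H.index := by
  classical
  have hinj : Function.Injective fun i => ((s i : G) : G ⧸ H) := by
    intro i j hij
    have h3 : (s i)⁻¹ * s j ∈ H := QuotientGroup.eq.1 hij
    exact h1 i j 1 D.one_mem (by rwa [one_mul])
  have : Finite J := Finite.of_injective _ hinj
  have := Fintype.ofFinite J
  have : Fintype (G ⧸ H) := Fintype.ofFinite _
  rw [finsum_eq_sum_of_fintype]
  have h4 : Nat.card (G ⧸ H) = ∑ i, (MulAction.orbit D (s i : G ⧸ H)).ncard := by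
    let φ : (Σ i, MulAction.orbit D (s i : G ⧸ H)) → G ⧸ H := fun p => p.2.1
    have hφ : Function.Bijective φ := by
      constructor
      · rintro ⟨i, x, hx⟩ ⟨j, y, hy⟩ hxy
        obtain rfl : x = y := hxy
        obtain ⟨⟨d, hd⟩, hd'⟩ := hx
        obtain ⟨⟨e, he⟩, he'⟩ := hy
        have h5 : ((d * s i : G) : G ⧸ H) = ((e * s j : G) : G ⧸ H) := hd'.trans he'.symm
        have h6 : (s i)⁻¹ * ((d⁻¹ * e) * s j) ∈ H := by
          have h7 := QuotientGroup.eq.1 h5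
          have h8 : (s i)⁻¹ * ((d⁻¹ * e) * s j) = (d * s i)⁻¹ * (e * s j) := by group
          rw [h8]
          exact h7
        obtain rfl := h1 i j (d⁻¹ * e) (D.mul_mem (D.inv_mem hd) he) h6
        rfl
      · intro x
        obtain ⟨g, rfl⟩ := QuotientGroup.mk_surjective x
        obtain ⟨i, d, hd, hi⟩ := h2 g
        refine ⟨⟨i, ⟨(g : G ⧸ H), ⟨⟨d⁻¹, D.inv_mem hd⟩, ?_⟩⟩⟩, rfl⟩
        show ((d⁻¹ * s i : G) : G ⧸ H) = ((g : G) : G ⧸ H)
        rw [QuotientGroup.eq]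
        have h8 : (d⁻¹ * s i)⁻¹ * g = (s i)⁻¹ * (d * g) := by group
        rw [h8]
        exact hi
    rw [← Nat.card_congr (Equiv.ofBijective φ hφ), Nat.card_sigma]
    rfl
  rw [Subgroup.index, h4]
  exact Finset.sum_congr rfl fun i _ => (v2p_orbit D H (s i)).symm

variable {K : Type u} [Field K] [NumberField K]

/-- The sum of the degrees `(D : D ∩ Gal(Kbar / L))` of the places of `L` above `v`, where `D` is the
decomposition group of a prime `P w` above the place `w`, is the degree of `L`. -/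
theorem v2p_sum (L : IntermediateField K (AlgebraicClosure K)) [FiniteDimensional K L]
    (v : HeightOneSpectrum (𝓞 K))
    (P : {w : HeightOneSpectrum (𝓞 L) // Divides L w v} → Ideal (𝓞 (AlgebraicClosure K)))
    (hP : ∀ w, Above (P w) v ∧ PrimeOver L (P w) w.1) :
    ∑ᶠ w, L.fixingSubgroup.relIndex (decompGrp K (P w)) = Module.finrank K L := by
  classical
  have hG : IsGalois K (AlgebraicClosure K) := IsAlgClosure.isGalois K (AlgebraicClosure K)
  obtain ⟨𝔓, h𝔓⟩ := exists_above v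
  have hp : 𝔓.IsPrime := h𝔓.1
  have hidx : L.fixingSubgroup.index = Module.finrank K L := by
    rw [← IntermediateField.finrank_eq_fixingSubgroup_index]
  have hfin : L.fixingSubgroup.FiniteIndex := by
    refine ⟨?_⟩
    rw [hidx]
    exact Module.finrank_pos.ne'
  have h1 : ∀ w, ∃ σ : AlgebraicClosure K ≃ₐ[K] AlgebraicClosure K, σ • 𝔓 = P w := by
    intro w
    have hPp : (P w).IsPrime := (hP w).1.1
    obtain ⟨g, hg⟩ := exists_gal (K := K) 𝔓 (P w) (by rw [h𝔓.2, (hP w).1.2])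
    exact ⟨g, plb_smul_eq hg⟩
  choose σ hσ using h1
  have h2 : ∀ w, decompGrp K (P w) =
      (decompGrp K 𝔓).map (MulAut.conj ((σ w)⁻¹)⁻¹).toMonoidHom := by
    intro w
    ext g
    rw [Subgroup.mem_map, ← hσ w]
    have h3 : g ∈ decompGrp K (σ w • 𝔓) ↔ (σ w)⁻¹ * g * σ w ∈ decompGrp K 𝔓 :=
      decomp_smul 𝔓 (σ w) g
    rw [h3]
    constructor
    · intro h4
      refine ⟨_, h4, ?_⟩
      simp only [inv_inv, MulEquiv.toMonoidHom_eq_coe, MonoidHom.coe_coe, MulAut.conj_apply]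
      group
    · rintro ⟨d, hd, rfl⟩
      simp only [inv_inv, MulEquiv.toMonoidHom_eq_coe, MonoidHom.coe_coe, MulAut.conj_apply]
      have h5 : (σ w)⁻¹ * (σ w * d * (σ w)⁻¹) * σ w = d := by group
      rw [h5]
      exact hd
  have h3 := v2p_dc (decompGrp K 𝔓) L.fixingSubgroup (fun w => (σ w)⁻¹) (by
      intro w w' d hd h
      have h4 : ((σ w * (d * (σ w')⁻¹)) • σ w' • 𝔓) = σ w • 𝔓 := by
        rw [smul_smul]
        have h5 : σ w * (d * (σ w')⁻¹) * σ w' = σ w * d := by group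
        rw [h5, ← smul_smul, (plc_decomp 𝔓 d).1 hd]
      have h6 : σ w * (d * (σ w')⁻¹) ∈ L.fixingSubgroup := by
        have h7 := h
        simp only [inv_inv] at h7
        exact h7
      have h8 := (same_place_iff L 𝔓 (σ w') (σ w)).2 ⟨_, h6, h4⟩
      apply Subtype.ext
      refine HeightOneSpectrum.ext ?_
      rw [← (hP w).2.2, ← (hP w').2.2, ← hσ w, ← hσ w']
      exact h8.symm) (by
      intro g
      obtain ⟨w, hw1, hw2⟩ := exists_placeBelow L v 𝔓 h𝔓 g⁻¹
      have h4 : (g⁻¹ • 𝔓).comap (algebraMap (𝓞 L) (𝓞 (AlgebraicClosure K))) =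
          (σ ⟨w, hw2⟩ • 𝔓).comap (algebraMap (𝓞 L) (𝓞 (AlgebraicClosure K))) := by
        rw [hσ, hw1.2, (hP ⟨w, hw2⟩).2.2]
      obtain ⟨h, hh, he⟩ := (same_place_iff L 𝔓 _ _).1 h4
      refine ⟨⟨w, hw2⟩, (σ ⟨w, hw2⟩)⁻¹ * h * g⁻¹, ?_, ?_⟩
      · rw [plc_decomp, ← smul_smul, ← smul_smul, he, inv_smul_smul]
      · have h5 : ((σ ⟨w, hw2⟩)⁻¹)⁻¹ * ((σ ⟨w, hw2⟩)⁻¹ * h * g⁻¹ * g) = h := by group
        rw [h5]
        exact hh)
  rw [← hidx, ← h3]
  exact finsum_congr fun w => by rw [h2 w]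

end Pool.Agent.H.MP_ac3185_nt
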