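import Pool.Agent.H.MP_ac3185_nt.R.AbsC

/-! Invariants of subgroups of a decomposition group, pure algebra (prefix `v2q_`). -/

set_option autoImplicit false

namespace Pool.Agent.H.MP_ac3185_nt

universe u

/-- A finite commutative group of even order has a nontrivial character with values `±1`. -/
theorem v2q_exists_char {G : Type*} [CommGroup G] [Finite G] (h : Even (Nat.card G)) :
    ∃ ε : G →* ℤˣ, ε ≠ 1 := by
  classical
  let q : G →* G := powMonoidHom 2
  obtain ⟨x, hx⟩ := exists_prime_orderOf_dvd_card' (G := G) 2 (even_iff_two_dvd.1 h)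
  have hninj : ¬ Function.Injective q := by
    intro hi
    have h1 : q x = q 1 := by
      show x ^ 2 = 1 ^ 2
      rw [one_pow, ← hx, pow_orderOf_eq_one]
    have h2 : x = 1 := hi h1
    rw [h2, orderOf_one] at hx
    omega
  have hns : ¬ Function.Surjective q := fun hs => hninj (Finite.injective_iff_surjective.2 hs)
  obtain ⟨a, ha⟩ : ∃ a, a ∉ q.range := by
    by_contra hcon
    push Not at hcon
    exact hns fun a => hcon a
  have hexp : Monoid.exponent (G ⧸ q.range) ∣ 2 := by
    rw [Monoid.exponent_dvd_iff_forall_pow_eq_one]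
    intro y
    obtain ⟨g, rfl⟩ := QuotientGroup.mk'_surjective q.range y
    rw [← map_pow]
    exact (QuotientGroup.eq_one_iff _).2 ⟨g, rfl⟩
  have hroots : HasEnoughRootsOfUnity ℤ (Monoid.exponent (G ⧸ q.range)) := by
    have h2 : HasEnoughRootsOfUnity ℤ 2 := by
      refine ⟨⟨-1, IsPrimitiveRoot.neg_one 0 (by norm_num)⟩, ?_⟩
      infer_instance
    exact HasEnoughRootsOfUnity.of_dvd ℤ hexp
  have ha' : (QuotientGroup.mk' q.range a) ≠ 1 := fun h1 => ha ((QuotientGroup.eq_one_iff _).1 h1)
  obtain ⟨φ, hφ⟩ := CommGroup.exists_apply_ne_one_of_hasEnoughRootsOfUnity (G ⧸ q.range) ℤ ha'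
  refine ⟨φ.comp (QuotientGroup.mk' q.range), fun h1 => hφ ?_⟩
  exact DFunLike.congr_fun h1 a

/-- The number of characters `ε` of a finite commutative group of even order is even. -/
theorem v2q_sum {G : Type*} [CommGroup G] [Finite G] (h : Even (Nat.card G)) (w : (G →* ℤˣ) → ℕ)
    (r : ℕ) (hw : ∀ ε : G →* ℤˣ, ε ≠ 1 → r ≡ w 1 + w ε [MOD 2]) :
    ∑ᶠ ε : G →* ℤˣ, w ε ≡ r [MOD 2] := by
  classical
  have hfin : Finite (G →* ℤˣ) := DFunLike.finite _
  let _ : Fintype (G →* ℤˣ) := Fintype.ofFinite _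
  obtain ⟨ε₀, hε₀⟩ := v2q_exists_char h
  have hcard : Even (Fintype.card (G →* ℤˣ)) := by
    have h1 : orderOf ε₀ = 2 := by
      apply orderOf_eq_prime
      · ext g
        rw [MonoidHom.pow_apply, MonoidHom.one_apply, Int.units_sq]
      · exact hε₀
    rw [even_iff_two_dvd, ← h1]
    exact orderOf_dvd_card
  rw [finsum_eq_sum_of_fintype, ← ZMod.natCast_eq_natCast_iff]
  push_cast
  have h2 : ∀ ε : G →* ℤˣ, (w ε : ZMod 2) = ((r : ZMod 2) + w 1) + if ε = 1 then (r : ZMod 2) else 0 := by
    intro ε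
    have e2 : ∀ a : ZMod 2, a + a = 0 := by decide
    by_cases he : ε = 1
    · rw [if_pos he, he]
      have := e2 (r : ZMod 2)
      calc ((w 1 : ℕ) : ZMod 2) = ((w 1 : ℕ) : ZMod 2) + ((r : ZMod 2) + r) := by rw [this, add_zero]
        _ = _ := by ring
    · rw [if_neg he, add_zero]
      have h3 := (ZMod.natCast_eq_natCast_iff _ _ 2).2 (hw ε he)
      push_cast at h3
      rw [h3]
      have := e2 ((w 1 : ℕ) : ZMod 2)
      calc ((w ε : ℕ) : ZMod 2) = ((w ε : ℕ) : ZMod 2) + (((w 1 : ℕ) : ZMod 2) + (w 1 : ℕ)) := by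
            rw [this, add_zero]
        _ = _ := by ring
  rw [Finset.sum_congr rfl fun ε _ => h2 ε, Finset.sum_add_distrib, Finset.sum_const,
    Finset.sum_ite_eq' Finset.univ (1 : G →* ℤˣ) (fun _ => (r : ZMod 2)), if_pos (Finset.mem_univ _),
    Finset.card_univ, nsmul_eq_mul]
  have h4 : ((Fintype.card (G →* ℤˣ) : ℕ) : ZMod 2) = 0 :=
    (ZMod.natCast_eq_zero_iff _ 2).2 (even_iff_two_dvd.1 hcard)
  rw [h4, zero_mul, zero_add]

/-- A homomorphism to `±1` from a group of odd order is trivial. -/
theorem v2q_odd {G : Type*} [Group G] [Finite G] (h : Odd (Nat.card G)) (ε : G →* ℤˣ) : ε = 1 := by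
  ext g
  rw [MonoidHom.one_apply]
  have h1 : ε g ^ Nat.card G = 1 := by rw [← map_pow, pow_card_eq_one', map_one]
  obtain ⟨k, hk⟩ := h
  rw [hk, pow_succ, pow_mul, Int.units_sq, one_pow, one_mul] at h1
  rw [h1]

variable {k D : Type*} {V : Type u} [Field k] [AddCommGroup V] [Module k V] [Group D]

/-- Let `D` act on `V`, the normal subgroup `I` by unipotent operators, `D / I` commutative. Let `E`
be a subgroup of finite index. If `(D : IE)` is odd, then `dim (V / V^(I ∩ E))^E` and
`dim (V / V^I)^D` are congruent modulo `2`. If it is even, then `dim (V / V^(I ∩ E))^E` is congruent to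
`r`, if `dim (V / V^I)^H = r` for all subgroups `H` of index `2` which contain `I`.

Proof. `V^(I ∩ E) = V^I` (`unip_pow`, as in `fixedBy_finiteIndex`), and `(V / V^I)^E = (V / V^I)^(IE)`: an
element `x` of the left side is fixed by a power of every `g` in `I`, and `g` is unipotent. `N = I ⊔ E` is
normal (it contains the commutators) of finite index. Apply `abs_local` to `Γ = D`, `D = ⊤`, `G = D ⧸ N`,
`Δ = N, ⊤` and the kernels of the characters `ε : D ⧸ N → ±1`: with `w` of this lemma,
`dim (V / V^I)^N ≡ ∑ w ε`, `dim (V / V^I)^D ≡ w 1`, `r = dim (V / V^I)^(ker ε) ≡ w 1 + w ε` for `ε ≠ 1`. If the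
index of `N` is odd there is only `ε = 1`. If it is even, then the number of the `ε ≠ 1` is odd
(multiplication by one of them is an involution without fixed points of the group of all `ε`), and
`∑ w ε ≡ w 1 + (number) (r - w 1) ≡ r`. -/
theorem v2q_abs [CharZero k] [FiniteDimensional k V] (ρ : Representation k D V) (I E : Subgroup D)
    [E.FiniteIndex] (hI : ∀ g ∈ I, IsUnip (ρ g)) (hc : ∀ a b : D, a * b * a⁻¹ * b⁻¹ ∈ I)
    (h4 : ¬ IsSquare (-1 : k))
    (hp : ∀ p : ℕ, p.Prime → p ≠ 2 → p ∣ (I ⊔ E).index → ¬ IsSquare ((pstar p : ℤ) : k))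
    (r : ℕ) (hr : ∀ H : Subgroup D, I ≤ H → H.index = 2 →
      quotRank ((fun g => ρ g) '' (I : Set D)) ((fun g => ρ g) '' (H : Set D)) = r) :
    (Odd (I ⊔ E).index →
      quotRank ((fun g => ρ g) '' ((I : Set D) ∩ E)) ((fun g => ρ g) '' (E : Set D)) ≡
        quotRank ((fun g => ρ g) '' (I : Set D)) ((fun g => ρ g) '' (Set.univ : Set D)) [MOD 2]) ∧
    (Even (I ⊔ E).index →
      quotRank ((fun g => ρ g) '' ((I : Set D) ∩ E)) ((fun g => ρ g) '' (E : Set D)) ≡
        r [MOD 2]) := by
  classical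
  have hmul : ∀ a b x, ρ (a * b) x = ρ a (ρ b x) := fun a b x => by
    rw [map_mul]; rfl
  have hIn : I.Normal := by
    refine ⟨fun n hn g => ?_⟩
    have h1 := I.mul_mem (hc g n) hn
    have e : g * n * g⁻¹ * n⁻¹ * n = g * n * g⁻¹ := by group
    rwa [e] at h1
  -- the fixed vectors
  have hEn : (E.normalCore).FiniteIndex := inferInstance
  have hfG : Finite (D ⧸ E.normalCore) := inferInstance
  have hfix : fixedBy ((fun g => ρ g) '' ((I : Set D) ∩ E)) =
      fixedBy ((fun g => ρ g) '' (I : Set D)) := by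
    refine fixedBy_finiteIndex ρ (QuotientGroup.mk' E.normalCore) I hI E ?_
    rw [QuotientGroup.ker_mk']
    exact Subgroup.normalCore_le E
  have hstab : ∀ d : D, ∀ x ∈ fixedBy ((fun g => ρ g) '' (I : Set D)),
      ρ d x ∈ fixedBy ((fun g => ρ g) '' (I : Set D)) := by
    rintro d x hx _ ⟨g, hg, rfl⟩
    have hx' : ρ (d⁻¹ * g * d) x = x := by
      refine hx _ ⟨d⁻¹ * g * d, ?_, rfl⟩
      have h1 := hIn.conj_mem g hg d⁻¹
      rwa [inv_inv] at h1
    show ρ g (ρ d x) = ρ d x
    rw [← hmul]
    have e : g * d = d * (d⁻¹ * g * d) := by group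
    rw [e, hmul, hx']
  have hpre : ∀ x, x ∈ preInv ((fun g => ρ g) '' (I : Set D)) ((fun g => ρ g) '' (E : Set D)) ↔
      x ∈ preInv ((fun g => ρ g) '' (I : Set D))
        ((fun g => ρ g) '' ((I ⊔ E : Subgroup D) : Set D)) := by
    intro x
    constructor
    · intro hx
      let S : Subgroup D :=
        { carrier := {g | ρ g x - x ∈ fixedBy ((fun g => ρ g) '' (I : Set D))}
          one_mem' := by
            show ρ 1 x - x ∈ fixedBy ((fun g => ρ g) '' (I : Set D))
            rw [map_one]
            show x - x ∈ fixedBy ((fun g => ρ g) '' (I : Set D))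
            rw [sub_self]
            exact zero_mem _
          mul_mem' := fun {a b} ha hb => by
            show ρ (a * b) x - x ∈ fixedBy ((fun g => ρ g) '' (I : Set D))
            rw [hmul]
            have e : ρ a (ρ b x) - x = ρ a (ρ b x - x) + (ρ a x - x) := by
              rw [map_sub]; abel
            rw [e]
            exact add_mem (hstab a _ hb) ha
          inv_mem' := fun {a} ha => by
            show ρ a⁻¹ x - x ∈ fixedBy ((fun g => ρ g) '' (I : Set D))
            have e : ρ a⁻¹ x - x = - ρ a⁻¹ (ρ a x - x) := by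
              rw [map_sub, ← hmul, inv_mul_cancel, map_one]
              show ρ a⁻¹ x - x = -(x - ρ a⁻¹ x)
              abel
            rw [e]
            exact neg_mem (hstab a⁻¹ _ ha) }
      have hE : E ≤ S := fun g hg => hx _ ⟨g, hg, rfl⟩
      have hIS : I ≤ S := by
        intro g hg
        have hn : 0 < Nat.card (D ⧸ E.normalCore) := Nat.card_pos
        have h1 : g ^ Nat.card (D ⧸ E.normalCore) ∈ E := by
          apply Subgroup.normalCore_le E
          rw [← QuotientGroup.eq_one_iff]
          rw [QuotientGroup.mk_pow]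
          exact pow_card_eq_one'
        have h2 : ρ (g ^ Nat.card (D ⧸ E.normalCore)) x - x ∈
          fixedBy ((fun g => ρ g) '' (I : Set D)) := hx _ ⟨_, h1, rfl⟩
        rw [map_pow, unip_pow (ρ g) (hI g hg), add_sub_cancel_left, ← Nat.cast_smul_eq_nsmul k] at h2
        have h3 : ((Nat.card (D ⧸ E.normalCore) : ℕ) : k) ≠ 0 := by
          rw [Nat.cast_ne_zero]
          exact hn.ne'
        exact ((fixedBy _).smul_mem_iff h3).1 h2
      rintro _ ⟨g, hg, rfl⟩
      exact (sup_le hIS hE) hg
    · rintro hx _ ⟨g, hg, rfl⟩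
      exact hx _ ⟨g, (le_sup_right : E ≤ I ⊔ E) hg, rfl⟩
  have hleft : quotRank ((fun g => ρ g) '' ((I : Set D) ∩ E)) ((fun g => ρ g) '' (E : Set D)) =
      quotRank ((fun g => ρ g) '' (I : Set D))
        ((fun g => ρ g) '' ((I ⊔ E : Subgroup D) : Set D)) := by
    rw [absb_quotRank_congr _ _ _ hfix]
    have h1 : preInv ((fun g => ρ g) '' (I : Set D)) ((fun g => ρ g) '' (E : Set D)) =
        preInv ((fun g => ρ g) '' (I : Set D))
          ((fun g => ρ g) '' ((I ⊔ E : Subgroup D) : Set D)) := by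
      ext x
      exact hpre x
    unfold quotRank quotInv
    rw [h1]
  rw [hleft]
  -- the quotient by `N`
  obtain ⟨N, hN⟩ : ∃ N : Subgroup D, N = I ⊔ E := ⟨_, rfl⟩
  have hIN : I ≤ N := by rw [hN]; exact le_sup_left
  have hNn : N.Normal := by
    refine ⟨fun n hn g => ?_⟩
    have h1 := N.mul_mem (hIN (hc g n)) hn
    have e : g * n * g⁻¹ * n⁻¹ * n = g * n * g⁻¹ := by group
    rwa [e] at h1
  have hNf : N.FiniteIndex := by
    rw [hN]
    exact Subgroup.finiteIndex_of_le le_sup_right
  rw [← hN] at hp ⊢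
  have hGf : Finite (D ⧸ N) := inferInstance
  obtain ⟨w, hw⟩ := abs_local (G := D ⧸ N) h4 (fun p h1 h2 h3 => hp p h1 h2 h3) ρ
    (QuotientGroup.mk' N) ⊤ I hI le_top (fun a _ b _ => hc a b)
  let M : Subgroup (D ⧸ N) := (⊤ : Subgroup D).map (QuotientGroup.mk' N)
  have hMtop : M = ⊤ := by
    show (⊤ : Subgroup D).map (QuotientGroup.mk' N) = ⊤
    rw [← MonoidHom.range_eq_map, MonoidHom.range_eq_top]
    exact QuotientGroup.mk'_surjective N
  have hMc : ∀ a b : M, a * b = b * a := by
    rintro ⟨a, ha⟩ ⟨b, hb⟩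
    apply Subtype.ext
    show a * b = b * a
    obtain ⟨x, rfl⟩ := QuotientGroup.mk'_surjective N a
    obtain ⟨y, rfl⟩ := QuotientGroup.mk'_surjective N b
    rw [← map_mul, ← map_mul]
    apply QuotientGroup.eq.2
    have h1 := hIN (hc y⁻¹ x⁻¹)
    have e : y⁻¹ * x⁻¹ * y⁻¹⁻¹ * x⁻¹⁻¹ = (x * y)⁻¹ * (y * x) := by group
    rwa [e] at h1
  let cg : CommGroup M := { (inferInstance : Group M) with mul_comm := hMc }
  have hMcard : Nat.card M = N.index := by
    rw [hMtop, Subgroup.card_top]
    rfl
  -- `hw` for `σ = 1` and subgroups which contain `N`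
  have hw' : ∀ Δ : Subgroup D, N ≤ Δ →
      quotRank ((fun g => ρ g) '' (I : Set D)) ((fun g => ρ g) '' (Δ : Set D)) ≡
      ∑ᶠ ε : M →* ℤˣ, (if ∀ d : M, (d : D ⧸ N) ∈ Δ.map (QuotientGroup.mk' N) → ε d = 1
        then w ε else 0) [MOD 2] := by
    intro Δ hΔ
    have h1 := hw Δ (by rw [QuotientGroup.ker_mk']; exact hΔ) 1
    have e1 : ({g | (1 : D)⁻¹ * g * 1 ∈ I} ∩ (Δ : Set D)) = (I : Set D) := by
      ext g
      simp only [Set.mem_inter_iff, Set.mem_ofPred_eq, inv_one, one_mul, mul_one, SetLike.mem_coe]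
      exact ⟨fun h => h.1, fun h => ⟨h, hΔ (hIN h)⟩⟩
    have e2 : ({g | (1 : D)⁻¹ * g * 1 ∈ (⊤ : Subgroup D)} ∩ (Δ : Set D)) = (Δ : Set D) := by
      ext g
      simp only [Set.mem_inter_iff, Set.mem_ofPred_eq, Subgroup.mem_top, true_and]
    rw [e1, e2] at h1
    refine h1.trans ?_
    have e3 : ∀ d : D ⧸ N, (QuotientGroup.mk' N) 1 * d * ((QuotientGroup.mk' N) 1)⁻¹ = d := by
      intro d
      rw [map_one, one_mul, inv_one, mul_one]
    have e4 : ∀ ε : M →* ℤˣ,
        (∀ d : M, (QuotientGroup.mk' N) 1 * (d : D ⧸ N) * ((QuotientGroup.mk' N) 1)⁻¹ ∈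
          Δ.map (QuotientGroup.mk' N) → ε d = 1) ↔
        ∀ d : M, (d : D ⧸ N) ∈ Δ.map (QuotientGroup.mk' N) → ε d = 1 := by
      intro ε
      refine forall_congr' fun d => ?_
      rw [e3]
    rw [finsum_congr fun ε => if_congr (e4 ε) rfl rfl]
  -- `Δ = N`
  have hwN : quotRank ((fun g => ρ g) '' (I : Set D)) ((fun g => ρ g) '' (N : Set D)) ≡
      ∑ᶠ ε : M →* ℤˣ, w ε [MOD 2] := by
    refine (hw' N le_rfl).trans ?_
    have h2 : ∀ ε : M →* ℤˣ,
        (if ∀ d : M, (d : D ⧸ N) ∈ N.map (QuotientGroup.mk' N) → ε d = 1 then w ε else 0) =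
          w ε := by
      intro ε
      refine if_pos ?_
      intro d hd
      obtain ⟨g, hg, hgd⟩ := hd
      have h1 : d = 1 := by
        apply Subtype.ext
        rw [← hgd]
        exact (QuotientGroup.eq_one_iff g).2 hg
      rw [h1, map_one]
    rw [finsum_congr h2]
  -- `Δ = ⊤`
  have hwT : quotRank ((fun g => ρ g) '' (I : Set D)) ((fun g => ρ g) '' (Set.univ : Set D)) ≡
      w 1 [MOD 2] := by
    have h1 := hw' ⊤ le_top
    rw [Subgroup.coe_top] at h1
    refine h1.trans ?_
    have h2 : ∀ ε : M →* ℤˣ,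
        (if ∀ d : M, (d : D ⧸ N) ∈ (⊤ : Subgroup D).map (QuotientGroup.mk' N) → ε d = 1
          then w ε else 0) = if ε = 1 then w 1 else 0 := by
      intro ε
      by_cases he : ε = 1
      · rw [if_pos he, if_pos, he]
        intro d _
        rw [he, MonoidHom.one_apply]
      · rw [if_neg he, if_neg]
        intro h3
        apply he
        ext d
        rw [h3 d d.2, MonoidHom.one_apply]
    rw [finsum_congr h2, finsum_eq_single _ (1 : M →* ℤˣ) fun ε he => if_neg he, if_pos rfl]
  constructor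
  · intro ho
    refine hwN.trans (Nat.ModEq.trans ?_ hwT.symm)
    rw [finsum_eq_single _ (1 : M →* ℤˣ) fun ε he => absurd (v2q_odd (by rwa [hMcard]) ε) he]
  · intro he
    refine hwN.trans ?_
    have hM : Even (Nat.card M) := by rwa [hMcard]
    refine v2q_sum (G := M) hM w r ?_
    intro ε hε
    -- the kernel of `ε`
    let πM : D →* M := (QuotientGroup.mk' N).codRestrict M fun g => ⟨g, Subgroup.mem_top g, rfl⟩
    have hπ : ∀ d : M, ∃ g, πM g = d := by
      rintro ⟨d, g, -, rfl⟩
      exact ⟨g, rfl⟩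
    let H : Subgroup D := (ε.comp πM).ker
    have hH : ∀ g, g ∈ H ↔ ε (πM g) = 1 := fun g => Iff.rfl
    have hNH : N ≤ H := by
      intro g hg
      rw [hH]
      have h1 : πM g = 1 := Subtype.ext ((QuotientGroup.eq_one_iff g).2 hg)
      rw [h1, map_one]
    obtain ⟨d₀, hd₀⟩ : ∃ d, ε d ≠ 1 := by
      by_contra hcon
      push Not at hcon
      exact hε (by ext d; rw [hcon d, MonoidHom.one_apply])
    obtain ⟨g₀, hg₀⟩ := hπ d₀
    have hHi : H.index = 2 := by
      show (ε.comp πM).ker.index = 2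
      rw [Subgroup.index_ker]
      have hsurj : Function.Surjective (ε.comp πM) := by
        intro u
        rcases Int.units_eq_one_or u with hu | hu
        · exact ⟨1, by rw [map_one, hu]⟩
        · refine ⟨g₀, ?_⟩
          show ε (πM g₀) = u
          rw [hg₀, hu]
          exact (Int.units_eq_one_or _).resolve_left hd₀
      rw [MonoidHom.range_eq_top.2 hsurj, Subgroup.card_top, Nat.card_eq_fintype_card]
      rfl
    have h1 := hw' H hNH
    rw [hr H (hIN.trans hNH) hHi] at h1
    refine h1.trans ?_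
    have hmemH : ∀ d : M, (d : D ⧸ N) ∈ H.map (QuotientGroup.mk' N) ↔ ε d = 1 := by
      intro d
      constructor
      · rintro ⟨g, hg, hgd⟩
        have h2 : πM g = d := Subtype.ext hgd
        rw [← h2]
        exact hg
      · intro h2
        obtain ⟨g, rfl⟩ := hπ d
        exact ⟨g, h2, rfl⟩
    have h2 : ∀ ε' : M →* ℤˣ,
        (if ∀ d : M, (d : D ⧸ N) ∈ H.map (QuotientGroup.mk' N) → ε' d = 1
          then w ε' else 0) = (if ε' = 1 then w 1 else 0) + if ε' = ε then w ε else 0 := by
      intro ε'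
      by_cases he1 : ε' = 1
      · have he2 : ε' ≠ ε := by rw [he1]; exact Ne.symm hε
        rw [if_pos he1, if_neg he2, add_zero, if_pos, he1]
        intro d _
        rw [he1, MonoidHom.one_apply]
      · by_cases he2 : ε' = ε
        · rw [if_neg he1, if_pos he2, zero_add, if_pos, he2]
          intro d hd
          rw [he2]
          exact (hmemH d).1 hd
        · rw [if_neg he1, if_neg he2, add_zero, if_neg]
          intro h3
          -- `ε'` is trivial on the kernel of `ε`
          by_cases h5 : ε' d₀ = 1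
          · apply he1
            ext d
            rw [MonoidHom.one_apply]
            by_cases h6 : ε d = 1
            · rw [h3 d ((hmemH d).2 h6)]
            · have h7 : ε (d * d₀) = 1 := by
                rw [map_mul, (Int.units_eq_one_or _).resolve_left h6,
                  (Int.units_eq_one_or _).resolve_left hd₀]
                rfl
              have h8 := h3 (d * d₀) ((hmemH _).2 h7)
              rw [map_mul, h5, mul_one] at h8
              rw [h8]
          · apply he2
            ext d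
            by_cases h6 : ε d = 1
            · rw [h6, h3 d ((hmemH d).2 h6)]
            · have h7 : ε (d * d₀) = 1 := by
                rw [map_mul, (Int.units_eq_one_or _).resolve_left h6,
                  (Int.units_eq_one_or _).resolve_left hd₀]
                rfl
              have h8 := h3 (d * d₀) ((hmemH _).2 h7)
              rw [map_mul, (Int.units_eq_one_or _).resolve_left h5] at h8
              rw [(Int.units_eq_one_or _).resolve_left h6]
              have h9 : ε' d = -1 := by
                rw [mul_neg, mul_one] at h8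
                rw [← h8, neg_neg]
              rw [h9]
    have hfin : Finite (M →* ℤˣ) := DFunLike.finite _
    rw [finsum_congr h2, finsum_add_distrib (Set.toFinite _) (Set.toFinite _),
      finsum_eq_single _ (1 : M →* ℤˣ) fun ε' he => if_neg he, if_pos rfl,
      finsum_eq_single _ ε fun ε' he => if_neg he, if_pos rfl]

end Pool.Agent.H.MP_ac3185_nt
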