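import Pool.Agent.H.MP_ac3185_nt.V2.Root
import Pool.Agent.H.MP_ac3185_nt.V2.RootP
import Pool.Agent.H.MP_ac3185_nt.V2.RootQ

/-! The change of the root number, the general case (names `v2t_`). -/

set_option autoImplicit false

open CategoryTheory AlgebraicGeometry NumberField IsDedekindDomain
open scoped MonObj Pointwise

namespace Pool.Agent.H.MP_ac3185_nt

universe u

/-- `(NE : E) = (N : N ∩ E)` for a normal subgroup `N`. -/
theorem v2t_relIndex {D : Type*} [Group D] (N E : Subgroup D) [N.Normal] :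
    E.relIndex (N ⊔ E) = E.relIndex N := by
  unfold Subgroup.relIndex
  rw [Subgroup.index_eq_card, Subgroup.index_eq_card]
  symm
  let φ : N → (N ⊔ E : Subgroup D) ⧸ E.subgroupOf (N ⊔ E) := fun n =>
    QuotientGroup.mk (⟨n.1, Subgroup.mem_sup_left n.2⟩ : (N ⊔ E : Subgroup D))
  have hφ : ∀ a b : N, (QuotientGroup.leftRel (E.subgroupOf N)) a b ↔ φ a = φ b := by
    intro a b
    rw [QuotientGroup.leftRel_apply, QuotientGroup.eq]
    exact Iff.rfl
  refine Nat.card_congr (Equiv.ofBijective (Quotient.lift φ fun a b h => (hφ a b).1 h) ⟨?_, ?_⟩)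
  · rintro ⟨a⟩ ⟨b⟩ h
    exact Quotient.sound ((hφ a b).2 h)
  · rintro ⟨x, hx⟩
    obtain ⟨n, hn, e, he, rfl⟩ := (Subgroup.mem_sup_of_normal_left (s := N) (t := E)).1 hx
    refine ⟨Quotient.mk _ ⟨n, hn⟩, ?_⟩
    refine QuotientGroup.eq.2 ?_
    rw [Subgroup.mem_subgroupOf]
    show (n⁻¹ * (n * e) : D) ∈ E
    rw [inv_mul_cancel_left]
    exact he

variable {K : Type u} [Field K] [NumberField K]

/-- The root numbers at a place above a semistable place with odd ramification index. -/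
theorem v2t_local (L : IntermediateField K (AlgebraicClosure K)) [FiniteDimensional K L]
    (A : Over (Spec (.of K))) [GrpObj A] [IsAbVar A] (W : LocalSigns K) (hW : IsRootNumbers A W)
    (v : HeightOneSpectrum (𝓞 K)) (r : ℕ) (hQ : QuadTorus A v r) (hE : OddRam L v)
    (w : HeightOneSpectrum (𝓞 L)) (w₀ : HeightOneSpectrum (𝓞 (⊥ : IntermediateField K
      (AlgebraicClosure K)))) (𝔓 : Ideal (𝓞 (AlgebraicClosure K))) (h𝔓 : Above 𝔓 v)
    (hw : PrimeOver L 𝔓 w) (hw₀ : PrimeOver ⊥ 𝔓 w₀) :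
    (Odd (L.fixingSubgroup.relIndex (decompGrp K 𝔓)) → W L w = W ⊥ w₀) ∧
      (Even (L.fixingSubgroup.relIndex (decompGrp K 𝔓)) → W L w = (-1) ^ r) := by
  obtain ⟨hss, hQ2⟩ := hQ 𝔓 h𝔓
  obtain ⟨B, hB⟩ := exists_bound v 𝔓 h𝔓
  obtain ⟨ℓ, hℓF, hℓB, h4, hp⟩ := exists_good_prime (Module.finrank K L).factorial
    (Nat.factorial_ne_zero _) B
  have hℓ : (ℓ : 𝓞 (AlgebraicClosure K)) ∉ 𝔓 := hB ℓ hℓF.out hℓB
  obtain ⟨hfd, hun⟩ := hss ℓ hℓ
  have hG : IsGalois K (AlgebraicClosure K) := IsAlgClosure.isGalois K (AlgebraicClosure K)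
  have hidx : L.fixingSubgroup.index = Module.finrank K L := by
    rw [IntermediateField.finrank_eq_fixingSubgroup_index]
  have hn : L.fixingSubgroup.index ≠ 0 := by
    rw [hidx]
    exact Module.finrank_pos.ne'
  let D := decompGrp K 𝔓
  let I : Subgroup D := (inertiaGrp K 𝔓).subgroupOf D
  let E : Subgroup D := L.fixingSubgroup.subgroupOf D
  let ρ : Representation ℚ_[ℓ] D (VTate ℓ (Pts A (AlgebraicClosure K))) :=
    (galRep A ℓ).comp D.subtype
  have hEi : E.index = L.fixingSubgroup.relIndex D := rfl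
  have hE0 : E.index ≠ 0 := by
    rw [hEi]
    exact fun h => hn (Subgroup.index_eq_zero_of_relIndex_eq_zero h)
  have hEf : E.FiniteIndex := ⟨hE0⟩
  have hI : ∀ g ∈ I, IsUnip (ρ g) := by
    intro g hg
    refine hun g.1 ⟨hg, ?_⟩
    rw [IntermediateField.fixingSubgroup_bot]
    exact Subgroup.mem_top _
  have hc : ∀ a b : D, a * b * a⁻¹ * b⁻¹ ∈ I := fun a b =>
    commutator_mem v 𝔓 h𝔓 a.1 b.1 a.2 b.2
  have hIn : I.Normal := by
    refine ⟨fun n hn g => ?_⟩
    have h1 := I.mul_mem (hc g n) hn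
    have h2 : g * n * g⁻¹ * n⁻¹ * n = g * n * g⁻¹ := by group
    rwa [h2] at h1
  have e1 : (fun g => ρ g) '' (I : Set D) = ops A ℓ (inertia K 𝔓) := by
    ext f
    constructor
    · rintro ⟨g, hg, rfl⟩
      exact ⟨g.1, hg, rfl⟩
    · rintro ⟨g, hg, rfl⟩
      exact ⟨⟨g, inertiaGrp_le 𝔓 hg⟩, hg, rfl⟩
  have e2 : (fun g => ρ g) '' ((I : Set D) ∩ E) = ops A ℓ (inertia K 𝔓 ∩
      (L.fixingSubgroup : Set (AlgebraicClosure K ≃ₐ[K] AlgebraicClosure K))) := by
    ext f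
    constructor
    · rintro ⟨g, hg, rfl⟩
      exact ⟨g.1, ⟨hg.1, hg.2⟩, rfl⟩
    · rintro ⟨g, hg, rfl⟩
      exact ⟨⟨g, inertiaGrp_le 𝔓 hg.1⟩, ⟨hg.1, hg.2⟩, rfl⟩
  have e3 : (fun g => ρ g) '' (E : Set D) = ops A ℓ (decomp K 𝔓 ∩
      (L.fixingSubgroup : Set (AlgebraicClosure K ≃ₐ[K] AlgebraicClosure K))) := by
    ext f
    constructor
    · rintro ⟨g, hg, rfl⟩
      exact ⟨g.1, ⟨g.2, hg⟩, rfl⟩
    · rintro ⟨g, hg, rfl⟩
      exact ⟨⟨g, hg.1⟩, hg.2, rfl⟩
  have e4 : ops A ℓ (inertia K 𝔓 ∩ ((⊥ : IntermediateField K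
      (AlgebraicClosure K)).fixingSubgroup :
      Set (AlgebraicClosure K ≃ₐ[K] AlgebraicClosure K))) = ops A ℓ (inertia K 𝔓) := by
    rw [IntermediateField.fixingSubgroup_bot, Subgroup.coe_top, Set.inter_univ]
  have e5 : (fun g => ρ g) '' (Set.univ : Set D) = ops A ℓ (decomp K 𝔓 ∩
      ((⊥ : IntermediateField K (AlgebraicClosure K)).fixingSubgroup :
      Set (AlgebraicClosure K ≃ₐ[K] AlgebraicClosure K))) := by
    rw [IntermediateField.fixingSubgroup_bot, Subgroup.coe_top, Set.inter_univ]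
    ext f
    constructor
    · rintro ⟨g, hg, rfl⟩
      exact ⟨g.1, g.2, rfl⟩
    · rintro ⟨g, hg, rfl⟩
      exact ⟨⟨g, hg⟩, Set.mem_univ _, rfl⟩
  have hN0 : (I ⊔ E).index ≠ 0 := fun h =>
    hE0 (Nat.eq_zero_of_zero_dvd (h ▸ Subgroup.index_dvd_of_le (le_sup_right : E ≤ I ⊔ E)))
  have hNle : (I ⊔ E).index ≤ Module.finrank K L := by
    have h1 : (I ⊔ E).index ≤ E.index :=
      Nat.le_of_dvd (Nat.pos_of_ne_zero hE0) (Subgroup.index_dvd_of_le le_sup_right)
    have h2 : E.index ≤ L.fixingSubgroup.index := by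
      rw [hEi, ← Subgroup.relIndex_top_right]
      refine Subgroup.relIndex_le_of_le_right le_top ?_
      rw [Subgroup.relIndex_top_right]
      exact hn
    rw [← hidx]
    exact h1.trans h2
  have hr : ∀ H : Subgroup D, I ≤ H → H.index = 2 →
      quotRank ((fun g => ρ g) '' (I : Set D)) ((fun g => ρ g) '' (H : Set D)) = r := by
    intro H hIH hH
    rw [e1, ← hQ2 ℓ hℓ (H.map D.subtype) ?_ ?_ ?_]
    · congr 1
      ext f
      constructor
      · rintro ⟨g, hg, rfl⟩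
        exact ⟨g.1, ⟨g, hg, rfl⟩, rfl⟩
      · rintro ⟨_, ⟨g, hg, rfl⟩, rfl⟩
        exact ⟨g, hg, rfl⟩
    · rintro _ ⟨g, -, rfl⟩
      exact g.2
    · intro g hg
      exact ⟨⟨g, inertiaGrp_le 𝔓 hg⟩, hIH hg, rfl⟩
    · show ((H.map D.subtype).subgroupOf D).index = 2
      rw [← hH]
      congr 1
      ext g
      rw [Subgroup.mem_subgroupOf]
      constructor
      · rintro ⟨g', hg', h⟩
        have : g' = g := Subtype.ext h
        rwa [← this]
      · intro hg
        exact ⟨g, hg, rfl⟩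
  have hpp : ∀ p : ℕ, p.Prime → p ≠ 2 → p ∣ (I ⊔ E).index →
      ¬ IsSquare ((pstar p : ℤ) : ℚ_[ℓ]) := by
    intro p h1 h2 h3
    refine hp p h1 h2 ?_
    rw [h1.dvd_factorial]
    exact (Nat.le_of_dvd (Nat.pos_of_ne_zero hN0) h3).trans hNle
  obtain ⟨k1, k2⟩ := v2q_abs ρ I E hI hc h4 hpp r hr
  have hpar : Odd (E.relIndex (I ⊔ E)) := by
    rw [v2t_relIndex]
    have h1 : E.relIndex I = L.fixingSubgroup.relIndex (inertiaGrp K 𝔓) :=
      Subgroup.relIndex_subgroupOf (inertiaGrp_le 𝔓)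
    rw [h1]
    exact hE 𝔓 h𝔓
  have hmul : E.relIndex (I ⊔ E) * (I ⊔ E).index = L.fixingSubgroup.relIndex D := by
    rw [← hEi]
    exact Subgroup.relIndex_mul_index le_sup_right
  rw [e2, e3, e1, e5] at k1
  rw [e2, e3] at k2
  rw [hW.semistable L w 𝔓 hw (hss.mono L) ℓ hℓ, hW.semistable ⊥ w₀ 𝔓 hw₀ hss ℓ hℓ]
  constructor
  · intro h
    rw [← hmul, Nat.odd_mul] at h
    have h1 := k1 h.2
    have h2 : localRank A ℓ L 𝔓 ≡ localRank A ℓ ⊥ 𝔓 [MOD 2] := by
      unfold localRank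
      rw [e4]
      exact h1
    rw [neg_one_pow_eq_pow_mod_two, h2, ← neg_one_pow_eq_pow_mod_two]
  · intro h
    rw [← hmul, Nat.even_mul] at h
    have h1 := k2 (h.resolve_left (Nat.not_even_iff_odd.2 hpar))
    have h2 : localRank A ℓ L 𝔓 ≡ r [MOD 2] := h1
    rw [neg_one_pow_eq_pow_mod_two, h2, ← neg_one_pow_eq_pow_mod_two]

/-- The product of the root numbers above a place `v`, if the root numbers at the places of odd
degree over `v` are the one at `v`, and those at the places of even degree are `(-1) ^ r`. -/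
theorem v2t_product (L : IntermediateField K (AlgebraicClosure K)) [FiniteDimensional K L]
    (hodd : Odd (Module.finrank K L)) (W : LocalSigns K)
    (hsign : ∀ w : HeightOneSpectrum (𝓞 (⊥ : IntermediateField K (AlgebraicClosure K))),
      W ⊥ w = 1 ∨ W ⊥ w = -1) (v : HeightOneSpectrum (𝓞 K)) (r : ℕ)
    (hv : ∀ (w : HeightOneSpectrum (𝓞 L)) (w₀ : HeightOneSpectrum (𝓞 (⊥ : IntermediateField K
      (AlgebraicClosure K)))) (𝔓 : Ideal (𝓞 (AlgebraicClosure K))), Above 𝔓 v →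
      PrimeOver L 𝔓 w → PrimeOver ⊥ 𝔓 w₀ →
      (Odd (L.fixingSubgroup.relIndex (decompGrp K 𝔓)) → W L w = W ⊥ w₀) ∧
        (Even (L.fixingSubgroup.relIndex (decompGrp K 𝔓)) → W L w = (-1) ^ r)) :
    ∏ᶠ w : {w : HeightOneSpectrum (𝓞 L) // Divides L w v}, W L w.1 =
      (-1) ^ (r * (placeCount L v - 1)) *
      ∏ᶠ w : {w : HeightOneSpectrum (𝓞 (⊥ : IntermediateField K (AlgebraicClosure K))) //
        Divides ⊥ w v}, W ⊥ w.1 := by
  classical
  obtain ⟨𝔓, h𝔓⟩ := exists_above v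
  have h1' : OnePlace (⊥ : IntermediateField K (AlgebraicClosure K)) 𝔓 := by
    intro s
    refine ⟨1, (decompGrp K 𝔓).one_mem, ?_⟩
    rw [IntermediateField.fixingSubgroup_bot]
    exact Subgroup.mem_top _
  obtain ⟨w₀, -, hw₀⟩ := exists_placeBelow ⊥ v 𝔓 h𝔓 1
  have e2 : ∏ᶠ w : {w : HeightOneSpectrum (𝓞 (⊥ : IntermediateField K (AlgebraicClosure K))) //
      Divides ⊥ w v}, W ⊥ w.1 = W ⊥ w₀ := by
    have hall : ∀ w' : {w : HeightOneSpectrum (𝓞 (⊥ : IntermediateField K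
        (AlgebraicClosure K))) // Divides ⊥ w v}, W ⊥ w'.1 = W ⊥ w₀ :=
      fun w' => congrArg (W ⊥) (vr_one ⊥ v 𝔓 h𝔓 h1' w'.1 w₀ w'.2 hw₀)
    have : Unique {w : HeightOneSpectrum (𝓞 (⊥ : IntermediateField K (AlgebraicClosure K))) //
        Divides ⊥ w v} :=
      ⟨⟨⟨w₀, hw₀⟩⟩, fun w' => Subtype.ext (vr_one ⊥ v 𝔓 h𝔓 h1' _ _ w'.2 hw₀)⟩
    rw [finprod_unique]
    exact hall _
  have hP : ∀ w : {w : HeightOneSpectrum (𝓞 L) // Divides L w v},
      ∃ 𝔔 : Ideal (𝓞 (AlgebraicClosure K)), Above 𝔔 v ∧ PrimeOver L 𝔔 w.1 := by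
    intro w
    obtain ⟨σ, hσ⟩ := exists_translate L v 𝔓 h𝔓 w.1 w.2
    exact ⟨σ • 𝔓, above_smul v 𝔓 h𝔓 σ, hσ⟩
  choose P hP using hP
  have hloc : ∀ w : {w : HeightOneSpectrum (𝓞 L) // Divides L w v},
      W L w.1 = if Odd (L.fixingSubgroup.relIndex (decompGrp K (P w))) then W ⊥ w₀
        else (-1) ^ r := by
    intro w
    have hw₀' : PrimeOver ⊥ (P w) w₀ := by
      obtain ⟨w', hw', hwv'⟩ := exists_placeBelow ⊥ v (P w) (hP w).1 1
      rw [one_smul] at hw'
      rwa [vr_one ⊥ v 𝔓 h𝔓 h1' w₀ w' hw₀ hwv']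
    obtain ⟨k1, k2⟩ := hv w.1 w₀ (P w) (hP w).1 (hP w).2 hw₀'
    by_cases h : Odd (L.fixingSubgroup.relIndex (decompGrp K (P w)))
    · rw [if_pos h, k1 h]
    · rw [if_neg h, k2 (Nat.not_odd_iff_even.1 h)]
  have hf := (v2r_places L v).1
  have _ : Fintype {w : HeightOneSpectrum (𝓞 L) // Divides L w v} := Fintype.ofFinite _
  have hsum := v2p_sum L v P hP
  rw [finsum_eq_sum_of_fintype] at hsum
  have hcard : (Finset.univ.filter fun w : {w : HeightOneSpectrum (𝓞 L) // Divides L w v} =>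
      Odd (L.fixingSubgroup.relIndex (decompGrp K (P w)))).card +
      (Finset.univ.filter fun w : {w : HeightOneSpectrum (𝓞 L) // Divides L w v} =>
      ¬ Odd (L.fixingSubgroup.relIndex (decompGrp K (P w)))).card = placeCount L v := by
    rw [Finset.card_filter_add_card_filter_not]
    unfold placeCount
    rw [Nat.card_eq_fintype_card, Finset.card_univ]
  have hoddcard : Odd (Finset.univ.filter fun w : {w : HeightOneSpectrum (𝓞 L) //
      Divides L w v} => Odd (L.fixingSubgroup.relIndex (decompGrp K (P w)))).card := by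
    rw [← Finset.odd_sum_iff_odd_card_odd, hsum]
    exact hodd
  rw [e2, finprod_eq_prod_of_fintype, Finset.prod_congr rfl fun w _ => hloc w, Finset.prod_ite,
    Finset.prod_const, Finset.prod_const]
  have hs : W ⊥ w₀ ^ (Finset.univ.filter fun w : {w : HeightOneSpectrum (𝓞 L) //
      Divides L w v} => Odd (L.fixingSubgroup.relIndex (decompGrp K (P w)))).card = W ⊥ w₀ := by
    rcases hsign w₀ with h | h
    · rw [h, one_pow]
    · rw [h, hoddcard.neg_one_pow]
  rw [hs, mul_comm, ← pow_mul]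
  congr 1
  obtain ⟨a, ha⟩ := hoddcard
  rw [ha] at hcard
  have h5 : placeCount L v - 1 = 2 * a + (Finset.univ.filter fun w : {w : HeightOneSpectrum (𝓞 L) //
      Divides L w v} => ¬ Odd (L.fixingSubgroup.relIndex (decompGrp K (P w)))).card := by
    omega
  rw [h5, mul_add, pow_add, mul_left_comm, pow_mul]
  norm_num

/-- The product of the root numbers above a semistable place with odd ramification indices. -/
theorem v2t_place (L : IntermediateField K (AlgebraicClosure K)) [FiniteDimensional K L]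
    (hodd : Odd (Module.finrank K L)) (A : Over (Spec (.of K))) [GrpObj A] [IsAbVar A]
    (W : LocalSigns K) (hW : IsRootNumbers A W) (v : HeightOneSpectrum (𝓞 K)) (r : ℕ)
    (hQ : QuadTorus A v r) (hE : OddRam L v) :
    ∏ᶠ w : {w : HeightOneSpectrum (𝓞 L) // Divides L w v}, W L w.1 =
      (-1) ^ (r * (placeCount L v - 1)) *
      ∏ᶠ w : {w : HeightOneSpectrum (𝓞 (⊥ : IntermediateField K (AlgebraicClosure K))) //
        Divides ⊥ w v}, W ⊥ w.1 :=
  v2t_product L hodd W (hW.sign ⊥) v r fun w w₀ 𝔓 h𝔓 hw hw₀ =>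
    v2t_local L A W hW v r hQ hE w w₀ 𝔓 h𝔓 hw hw₀

/-- The product of the root numbers above an unramified place. -/
theorem v2t_unr (L : IntermediateField K (AlgebraicClosure K)) [FiniteDimensional K L]
    (hodd : Odd (Module.finrank K L)) (A : Over (Spec (.of K))) [GrpObj A] [IsAbVar A]
    (W : LocalSigns K) (hW : IsRootNumbers A W) (v : HeightOneSpectrum (𝓞 K)) (r : ℕ)
    (hE : EvenSign W v r) (hL : UnrIn L v) :
    ∏ᶠ w : {w : HeightOneSpectrum (𝓞 L) // Divides L w v}, W L w.1 =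
      (-1) ^ (r * (placeCount L v - 1)) *
      ∏ᶠ w : {w : HeightOneSpectrum (𝓞 (⊥ : IntermediateField K (AlgebraicClosure K))) //
        Divides ⊥ w v}, W ⊥ w.1 := by
  refine v2t_product L hodd W (hW.sign ⊥) v r fun w w₀ 𝔓 h𝔓 hw hw₀ =>
    ⟨fun h => ?_, fun h => hE L w 𝔓 hw h𝔓 (hL 𝔓 h𝔓) h⟩
  obtain ⟨a, b, hab⟩ := hW.unramified v
  have hrel0 : (⊥ : IntermediateField K (AlgebraicClosure K)).fixingSubgroup.relIndex
      (decompGrp K 𝔓) = 1 := by
    rw [IntermediateField.fixingSubgroup_bot, Subgroup.relIndex_top_left]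
  rw [(hab L w 𝔓 hw h𝔓 (hL 𝔓 h𝔓)).1 h, (hab ⊥ w₀ 𝔓 hw₀ h𝔓 (by
    rw [IntermediateField.fixingSubgroup_bot]
    exact fun g _ => Subgroup.mem_top g)).1 (by rw [hrel0]; exact odd_one)]

/-- The change of the root number in an extension of odd degree. -/
theorem v2t_sign (L : IntermediateField K (AlgebraicClosure K)) [FiniteDimensional K L]
    (hodd : Odd (Module.finrank K L)) (A : Over (Spec (.of K))) [GrpObj A] [IsAbVar A] (g : ℕ)
    (W : LocalSigns K) (hW : IsRootNumbers A W) (T : Finset (HeightOneSpectrum (𝓞 K)))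
    (r : HeightOneSpectrum (𝓞 K) → ℕ)
    (hT : ∀ v ∈ T, SplitTorus A v (r v) ∨ (QuadTorus A v (r v) ∧ OddRam L v) ∨
      (EvenSign W v (r v) ∧ UnrIn L v))
    (hT' : ∀ v ∉ T, ∀ 𝔓, Above 𝔓 v → MildAt A L 𝔓) :
    signOver W g L = (-1) ^ signChange L g T r * signOver W g ⊥ := by
  classical
  have key : ∀ v : HeightOneSpectrum (𝓞 K),
      ∏ᶠ w : {w : HeightOneSpectrum (𝓞 L) // Divides L w v}, W L w.1 =
        (if v ∈ T then (-1 : ℤ) ^ (r v * (placeCount L v - 1)) else 1) *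
      ∏ᶠ w : {w : HeightOneSpectrum (𝓞 (⊥ : IntermediateField K (AlgebraicClosure K))) //
        Divides ⊥ w v}, W ⊥ w.1 := by
    intro v
    by_cases hv : v ∈ T
    · rw [if_pos hv]
      rcases hT v hv with h | ⟨h, h'⟩ | ⟨h, h'⟩
      · rw [v2r_split L A W hW v (r v) h, v2r_split ⊥ A W hW v (r v) h, v2r_one, ← pow_add,
          ← mul_add]
        have h1 : 1 ≤ placeCount L v := by
          have h2 := v2r_places L v
          have := h2.1
          have := h2.2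
          exact Nat.card_pos
        rw [Nat.sub_add_cancel h1]
      · exact v2t_place L hodd A W hW v (r v) h h'
      · exact v2t_unr L hodd A W hW v (r v) h h'
    · rw [if_neg hv, one_mul, v2r_mild L hodd A W hW v (hT' v hv)]
  have hsupp : (Function.mulSupport fun v : HeightOneSpectrum (𝓞 K) =>
      if v ∈ T then (-1 : ℤ) ^ (r v * (placeCount L v - 1)) else 1) ⊆ T := by
    intro v hv
    by_contra h
    exact hv (if_neg h)
  have h0 := finprod_places ⊥ (W ⊥) (hW.almost ⊥)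
  unfold signOver
  rw [(finprod_places L (W L) (hW.almost L)).2, h0.2, finprod_congr key,
    finprod_mul_distrib (T.finite_toSet.subset hsupp) h0.1,
    finprod_eq_prod_of_mulSupport_subset _ hsupp, Finset.prod_ite_mem, Finset.inter_self,
    Finset.prod_pow_eq_pow_sum]
  unfold signChange
  rw [pow_add, mul_add, pow_add]
  have h1 : ((-1 : ℤ) ^ (g * Nat.card (InfinitePlace
      (⊥ : IntermediateField K (AlgebraicClosure K))))) * (-1) ^ (g * Nat.card (InfinitePlace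
      (⊥ : IntermediateField K (AlgebraicClosure K)))) = 1 := by
    rw [← mul_pow]
    norm_num
  linear_combination (-((-1 : ℤ) ^ (g * Nat.card (InfinitePlace L)) *
    (-1) ^ (∑ v ∈ T, r v * (placeCount L v - 1)) *
    ∏ᶠ v : HeightOneSpectrum (𝓞 K), ∏ᶠ w : {w : HeightOneSpectrum (𝓞 (⊥ :
      IntermediateField K (AlgebraicClosure K))) // Divides ⊥ w v}, W ⊥ w.1)) * h1

end Pool.Agent.H.MP_ac3185_nt
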