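import Pool.Agent.H.MP_ac3185_nt.V2.Chain
import Pool.Agent.H.MP_ac3185_nt.V2.RootR
import Pool.Agent.H.MP_ac3185_nt.V.DivK

/-! Growth of ranks and change of root numbers in an extension of odd degree. -/

set_option autoImplicit false

open CategoryTheory AlgebraicGeometry NumberField IsDedekindDomain
open scoped MonObj

namespace Pool.Agent.H.MP_ac3185_nt

universe u

variable {K : Type u} [Field K] [NumberField K]

/-- If there is no new point and `A(L)` is finitely generated then the ranks are equal. -/
theorem v2_not_new (L : IntermediateField K (AlgebraicClosure K)) [FiniteDimensional K L]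
    (A : Over (Spec (.of K))) [GrpObj A] [IsAbVar A] (hMW : Module.Finite ℤ (Pts A L))
    (h : ¬ NewPoint A L) : rk A L = rk A ⊥ := by
  set j := ptsa_j A (bot_le : ⊥ ≤ L) with hj
  let N : Submodule ℤ (Pts A L) := LinearMap.range j.toIntLinearMap
  have hinj : Function.Injective j.toIntLinearMap := sp_j_inj A _
  have h4 : Module.finrank ℤ (Pts A (⊥ : IntermediateField K (AlgebraicClosure K))) =
      Module.finrank ℤ N := (LinearEquiv.ofInjective j.toIntLinearMap hinj).finrank_eq
  have e1 : Module.finrank ℤ (Pts A L ⧸ N) + Module.finrank ℤ N = Module.finrank ℤ (Pts A L) :=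
    Submodule.finrank_quotient_add_finrank N
  have e2 : Module.finrank ℤ (Pts A L ⧸ N) = 0 := by
    rw [Module.finrank_eq_zero_iff]
    rintro ⟨x⟩
    by_contra hx
    push Not at hx
    refine h ⟨toBar A L x, fun s hs => sp_bar_fix A L s hs x, fun n hn => ?_⟩
    by_contra hall
    push Not at hall
    rw [← map_nsmul] at hall
    obtain ⟨z, hz⟩ := sp_bar_of_fixed A ⊥ (toBar A L (n • x)) (fun s _ => hall s)
    refine hx (n : ℤ) (by exact_mod_cast hn.ne') ?_
    show (n : ℤ) • (Submodule.Quotient.mk x : Pts A L ⧸ N) = 0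
    rw [← Submodule.Quotient.mk_smul, Submodule.Quotient.mk_eq_zero]
    refine ⟨z, ?_⟩
    apply sp_bar_inj A L
    show toBar A L (j z) = _
    rw [hj, sp_bar_j, hz, natCast_zsmul]
  unfold rk
  omega

/-- A bound less than `m`: no new point, and equal ranks. The theorem of Mordell and Weil is not
used. -/
theorem v2_lt (L : IntermediateField K (AlgebraicClosure K)) [FiniteDimensional K L]
    (A : Over (Spec (.of K))) [GrpObj A] [IsAbVar A] (m b : ℕ) (hb : b < m) (h : A ⟶ A)
    (hmul : ∀ x, onPts h x = (2 ^ m : ℕ) • x) (hq : QuotBound L h b) :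
    ¬ NewPoint A L ∧ rk A L = rk A ⊥ := by
  obtain ⟨h1, -, h2⟩ := vd_rank_quot L A m b hb h hmul hq
  refine ⟨?_, h2⟩
  rintro ⟨x, hx, hx'⟩
  obtain ⟨y, rfl⟩ := sp_bar_of_fixed A L x hx
  obtain ⟨n, hn, z, hz⟩ := h1 y
  obtain ⟨s, hs⟩ := hx' n hn
  apply hs
  rw [← map_nsmul, ← hz]
  have h6 : toBar A L (ptsa_j A (bot_le : ⊥ ≤ L) z) = toBar A ⊥ z := sp_bar_j A _ z
  rw [h6]
  exact sp_bar_fix A ⊥ s (by
    rw [IntermediateField.fixingSubgroup_bot]
    exact Subgroup.mem_top s) z

/-- The sign rule. -/
theorem v2_signs (a c e : ℕ) (s t : ℤ) (hs : s = 1 ∨ s = -1) (ht : t = (-1) ^ e * s) :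
    (((-1 : ℤ) ^ (a + c) = t) ↔ ((-1 : ℤ) ^ a = s)) ↔ (Odd e ↔ Odd c) := by
  subst ht
  rcases Nat.even_or_odd e with he | he <;> rcases Nat.even_or_odd c with hc | hc <;>
    rcases Nat.even_or_odd a with ha | ha <;> rcases hs with rfl | rfl <;>
    simp [pow_add, he.neg_one_pow, hc.neg_one_pow, ha.neg_one_pow, he, hc] <;>
    simp_all [← Nat.not_even_iff_odd]

/-- Let `L / K` be an extension of odd degree of number fields and `A / K` an abelian variety, such
that the multiplication by `2 ^ m` on `A` is a composition `h` of isogenies of degree `2` over `K` as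
in `Chain`, with bound `b`.

(1) `A(L)` is the union of at most `2 ^ b` cosets of `A(K) + 2 ^ m A(L)`. If `b < m` then every point
of `A(L)` has a multiple in `A(K)` and the ranks are equal. If `A(L)` is finitely generated then
`m (rk A(L) - rk A(K)) ≤ b`.

(2) Suppose that for every finite place `v` of `K` in the finite set `T` one of the following holds:
`A` is semistable at `v` with a split torus of rank `r v` over `K_v`, or over the unramified quadratic
extension of `K_v`, where in the second case the ramification indices of the places of `L` above `v`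
are odd, or `v` is unramified in `L` and the root numbers of `A` over the unramified extensions of `K_v`
of even degree are `(-1) ^ r v` (this is true for the exponent `r v` of the conductor of `A` at `v`).
Suppose that `MildAt` holds for the finite places outside `T`. Then `w(A/L) = (-1) ^ e w(A/K)`, where
`e = signChange L g T r`.

(3) In the situation of (2), if `b < m` then the parity conjectures for `A` over `L` and over `K` are
equivalent if and only if `e` is even. If `b < 2 m` and `A(L)` is finitely generated, they are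
equivalent if and only if: `e` is odd if and only if some point of `A(L)` has no multiple in `A(K)`. -/
theorem v2_main (L : IntermediateField K (AlgebraicClosure K)) [FiniteDimensional K L]
    (hodd : Odd (Module.finrank K L))
    (A : Over (Spec (.of K))) [GrpObj A] [IsAbVar A]
    (m b : ℕ) (h : A ⟶ A) (hh : Chain L A A h b) (hmul : ∀ x, onPts h x = (2 ^ m : ℕ) • x) :
    QuotBound L h b ∧
    (b < m → ¬ NewPoint A L ∧ rk A L = rk A ⊥) ∧
    (Module.Finite ℤ (Pts A L) → rk A ⊥ ≤ rk A L ∧ m * (rk A L - rk A ⊥) ≤ b) ∧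
    ∀ g : ℕ, topologicalKrullDim A.left = g → ∀ W : LocalSigns K, IsRootNumbers A W →
      ∀ (T : Finset (HeightOneSpectrum (𝓞 K))) (r : HeightOneSpectrum (𝓞 K) → ℕ),
      (∀ v ∈ T, SplitTorus A v (r v) ∨ (QuadTorus A v (r v) ∧ OddRam L v) ∨
        (EvenSign W v (r v) ∧ UnrIn L v)) →
      (∀ v ∉ T, ∀ 𝔓, Above 𝔓 v → MildAt A L 𝔓) →
        signOver W g L = (-1) ^ signChange L g T r * signOver W g ⊥ ∧
        (b < m → ((ParityFor A g W L ↔ ParityFor A g W ⊥) ↔ Even (signChange L g T r))) ∧
        (b < 2 * m → Module.Finite ℤ (Pts A L) →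
          ((ParityFor A g W L ↔ ParityFor A g W ⊥) ↔
            (Odd (signChange L g T r) ↔ NewPoint A L))) := by
  have hq := v2k_chain L hodd A h b hh
  refine ⟨hq, fun hb => v2_lt L A m b hb h hmul hq, fun hMW => v2k_rank L A hMW m b h hmul hq, ?_⟩
  intro g _ W hW T r hT hT'
  have hs := v2t_sign L hodd A g W hW T r hT hT'
  have hs1 := signOver_sign A W hW g ⊥
  refine ⟨hs, fun hb => ?_, fun hb hMW => ?_⟩
  · have h2 := (v2_lt L A m b hb h hmul hq).2
    have h3 := v2_signs (rk A ⊥) 0 (signChange L g T r) _ _ hs1 hs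
    rw [add_zero, ← h2] at h3
    unfold ParityFor
    rw [← h2]
    refine h3.trans ?_
    rw [← Nat.not_even_iff_odd]
    simp
  · obtain ⟨hle, hb2⟩ := v2k_rank L A hMW m b h hmul hq
    have h0 : rk A L - rk A ⊥ < 2 := by
      by_contra hne
      have h3 : m * 2 ≤ m * (rk A L - rk A ⊥) := Nat.mul_le_mul_left m (not_lt.1 hne)
      omega
    obtain ⟨δ, hδ⟩ : ∃ δ, rk A L = rk A ⊥ + δ := ⟨rk A L - rk A ⊥, by omega⟩
    have h3 := v2_signs (rk A ⊥) δ (signChange L g T r) _ _ hs1 hs
    unfold ParityFor
    rw [hδ]
    refine h3.trans ?_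
    have h4 : Odd δ ↔ NewPoint A L := by
      constructor
      · intro ho
        by_contra hn
        have h5 := v2_not_new L A hMW hn
        have h6 : δ = 0 := by omega
        rw [h6] at ho
        exact absurd ho (by decide)
      · rintro ⟨x, hx, hx'⟩
        have h5 : rk A L ≠ rk A ⊥ := v2k_new L A hMW x hx hx'
        have h6 : δ = 1 := by omega
        rw [h6]
        exact odd_one
    rw [h4]

end Pool.Agent.H.MP_ac3185_nt
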