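import Pool.Agent.H.MP_ac3185_nt.V2.Par

/-! The square class attached to a point, for an isogeny of degree `2`. -/

set_option autoImplicit false

open CategoryTheory AlgebraicGeometry NumberField IsDedekindDomain
open scoped MonObj

namespace Pool.Agent.H.MP_ac3185_nt

universe u

section data

variable {K : Type u} [Field K] [CharZero K]

/-- For a point `P` of `C(L)`: a point `b` with `f(b) = P`, and `r` with `L(r) = L(b)`. -/
theorem v2s_data (L : IntermediateField K (AlgebraicClosure K)) [FiniteDimensional K L]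
    {B C : Over (Spec (.of K))} [GrpObj B] [IsAbVar B] [GrpObj C] [IsAbVar C] (f : B ⟶ C)
    [IsMonHom f] (hsurj : ∀ y, ∃ x, onPts f x = y) (t : Pts B (AlgebraicClosure K))
    (ht : ∀ x, onPts f x = 0 ↔ x = 0 ∨ x = t) (ht2 : t + t = 0) (htG : ∀ s, act B s t = t)
    (P : Pts C (AlgebraicClosure K)) (hP : ∀ s ∈ L.fixingSubgroup, act C s P = P) :
    ∃ (b : Pts B (AlgebraicClosure K)) (r : AlgebraicClosure K), onPts f b = P ∧ r ≠ 0 ∧
      ∀ s ∈ L.fixingSubgroup, (s r = r ∧ act B s b = b) ∨ (s r = -r ∧ act B s b = b + t) := by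
  obtain ⟨b, hb⟩ := hsurj P
  obtain ⟨E, hE, hEb⟩ := vf_finite B b
  have hcase : ∀ s ∈ L.fixingSubgroup, act B s b = b ∨ act B s b = b + t := by
    intro s hs
    have h1 : onPts f (act B s b - b) = 0 := by
      rw [v2s_onPts_sub, ← vc_onPts_act, hb, hP s hs, sub_self]
    rcases (ht _).1 h1 with h2 | h2
    · left
      exact sub_eq_zero.1 h2
    · right
      rw [← h2]
      abel
  let N := v2sStab B b ⊓ L.fixingSubgroup
  obtain ⟨r, hr, hr1, hr2⟩ := vk_kummer L E N inf_le_right (fun s hs hs' => ⟨hEb s hs', hs⟩) (by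
    intro s hs s' hs' hsN hsN'
    have h1 : act B s b = b + t := by
      rcases hcase s hs with h | h
      · exact absurd ⟨h, hs⟩ hsN
      · exact h
    have h2 : act B s' b = b + t := by
      rcases hcase s' hs' with h | h
      · exact absurd ⟨h, hs'⟩ hsN'
      · exact h
    refine ⟨?_, mul_mem hs hs'⟩
    show act B (s * s') b = b
    rw [v2s_act_mul, h2, vc_act_add, h1, htG, add_assoc, ht2, add_zero])
  refine ⟨b, r, hb, hr, fun s hs => ?_⟩
  by_cases hsN : s ∈ N
  · left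
    exact ⟨hr1 s hsN, hsN.1⟩
  · right
    refine ⟨hr2 s hs hsN, ?_⟩
    rcases hcase s hs with h | h
    · exact absurd ⟨h, hs⟩ hsN
    · exact h

/-- The trace to `K` of a point over `L`. -/
noncomputable def v2sTr (L : IntermediateField K (AlgebraicClosure K)) [FiniteDimensional K L]
    [Fintype ((AlgebraicClosure K ≃ₐ[K] AlgebraicClosure K) ⧸ L.fixingSubgroup)]
    (C : Over (Spec (.of K))) [GrpObj C] [IsAbVar C] (P : Pts C (AlgebraicClosure K)) :
    Pts C (AlgebraicClosure K) :=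
  ∑ q : (AlgebraicClosure K ≃ₐ[K] AlgebraicClosure K) ⧸ L.fixingSubgroup, act C q.out P

/-- For a point `P` of `C(L)`: `β` with `f(β) = P + Tr(P)`, and `u` with `L(u) = L(β)`; the square of
`u` is `a N(a)`. -/
theorem v2s_pt (L : IntermediateField K (AlgebraicClosure K)) [FiniteDimensional K L]
    [Fintype ((AlgebraicClosure K ≃ₐ[K] AlgebraicClosure K) ⧸ L.fixingSubgroup)]
    {B C : Over (Spec (.of K))} [GrpObj B] [IsAbVar B] [GrpObj C] [IsAbVar C] (f : B ⟶ C)
    [IsMonHom f] (hsurj : ∀ y, ∃ x, onPts f x = y) (t : Pts B (AlgebraicClosure K)) (ht0 : t ≠ 0)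
    (ht : ∀ x, onPts f x = 0 ↔ x = 0 ∨ x = t) (ht2 : t + t = 0) (htG : ∀ s, act B s t = t)
    (P : Pts C (AlgebraicClosure K)) (hP : ∀ s ∈ L.fixingSubgroup, act C s P = P) :
    ∃ (a : L) (r u : AlgebraicClosure K) (b β : Pts B (AlgebraicClosure K)), a ≠ 0 ∧
      r * r = a ∧ onPts f b = P ∧ (∀ s ∈ L.fixingSubgroup, s r = r ↔ act B s b = b) ∧
      u * u = ((a * algebraMap K L (Algebra.norm K a) : L) : AlgebraicClosure K) ∧
      onPts f β = P + v2sTr L C P ∧ (∀ s, act C s (v2sTr L C P) = v2sTr L C P) ∧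
      ∀ s ∈ L.fixingSubgroup, (s u = u ∧ act B s β = β) ∨ (s u = -u ∧ act B s β = β + t) := by
  obtain ⟨b, r, hb, hr, h⟩ := v2s_data L f hsurj t ht ht2 htG P hP
  have hft : onPts f t = 0 := (ht t).2 (Or.inr rfl)
  have ha : r * r ∈ L := by
    apply vn_mem
    intro s hs
    rcases h s hs with ⟨h1, -⟩ | ⟨h1, -⟩
    · rw [map_mul, h1]
    · rw [map_mul, h1]
      ring
  let R : AlgebraicClosure K :=
    ∏ q : (AlgebraicClosure K ≃ₐ[K] AlgebraicClosure K) ⧸ L.fixingSubgroup, q.out r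
  let S : Pts B (AlgebraicClosure K) :=
    ∑ q : (AlgebraicClosure K ≃ₐ[K] AlgebraicClosure K) ⧸ L.fixingSubgroup, act B q.out b
  have hRS : ∀ g, (g R = R ∧ act B g S = S) ∨ (g R = -R ∧ act B g S = S + t) :=
    v2s_par L B t ht2 htG r b h
  have hS : onPts f S = v2sTr L C P := by
    show onPts f (∑ q : (AlgebraicClosure K ≃ₐ[K] AlgebraicClosure K) ⧸ L.fixingSubgroup,
      act B q.out b) = _
    rw [v2s_onPts_sum]
    unfold v2sTr
    refine Finset.sum_congr rfl fun q _ => ?_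
    rw [← vc_onPts_act, hb]
  have hRR : R * R = algebraMap K (AlgebraicClosure K) (Algebra.norm K (⟨r * r, ha⟩ : L)) := by
    rw [vn_norm L]
    show (∏ q : (AlgebraicClosure K ≃ₐ[K] AlgebraicClosure K) ⧸ L.fixingSubgroup, q.out r) *
      (∏ q : (AlgebraicClosure K ≃ₐ[K] AlgebraicClosure K) ⧸ L.fixingSubgroup, q.out r) = _
    rw [← Finset.prod_mul_distrib]
    exact Finset.prod_congr rfl fun q _ => (map_mul q.out r r).symm
  refine ⟨⟨r * r, ha⟩, r, r * R, b, b + S, ?_, rfl, hb, ?_, ?_, ?_, ?_, ?_⟩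
  · intro h0
    exact mul_ne_zero hr hr (congrArg Subtype.val h0)
  · intro s hs
    rcases h s hs with ⟨h1, h2⟩ | ⟨h1, h2⟩
    · exact ⟨fun _ => h2, fun _ => h1⟩
    · constructor
      · intro h3
        exfalso
        rw [h1] at h3
        exact hr (self_eq_neg.1 h3.symm)
      · intro h3
        rw [h2] at h3
        exact absurd (add_eq_left.1 h3) ht0
  · show r * R * (r * R) = r * r * algebraMap K (AlgebraicClosure K) _
    rw [← hRR]
    ring
  · rw [vc_onPts_add, hb, hS]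
  · intro s
    rw [← hS, vc_onPts_act]
    rcases hRS s with ⟨-, h2⟩ | ⟨-, h2⟩
    · rw [h2]
    · rw [h2, vc_onPts_add, hft, add_zero]
  · intro s hs
    rcases h s hs with ⟨h1, h2⟩ | ⟨h1, h2⟩ <;> rcases hRS s with ⟨h3, h4⟩ | ⟨h3, h4⟩
    · left
      rw [map_mul, h1, h3, vc_act_add, h2, h4]
      exact ⟨rfl, rfl⟩
    · right
      rw [map_mul, h1, h3, vc_act_add, h2, h4]
      exact ⟨by ring, by abel⟩
    · right
      rw [map_mul, h1, h3, vc_act_add, h2, h4]
      exact ⟨by ring, by abel⟩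
    · left
      rw [map_mul, h1, h3, vc_act_add, h2, h4]
      refine ⟨by ring, ?_⟩
      have h5 : b + t + (S + t) = b + S + (t + t) := by abel
      rw [h5, ht2, add_zero]

end data

end Pool.Agent.H.MP_ac3185_nt
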