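import Pool.Agent.H.MP_ac3185_nt.V.Chain
import Pool.Agent.H.MP_ac3185_nt.V.Fin
import Pool.Agent.H.MP_ac3185_nt.V.Kum
import Pool.Agent.H.MP_ac3185_nt.V.Unit

/-! The square class attached to a point, for an isogeny of degree `2`. -/

set_option autoImplicit false

open CategoryTheory AlgebraicGeometry NumberField IsDedekindDomain
open scoped MonObj

namespace Pool.Agent.H.MP_ac3185_nt

universe u

section act

variable {K : Type u} [Field K]

theorem v2s_act_zero (B : Over (Spec (.of K))) [GrpObj B] [IsAbVar B]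
    (s : AlgebraicClosure K ≃ₐ[K] AlgebraicClosure K) : act B s 0 = 0 := map_zero (galHom B s)

theorem v2s_act_sub (B : Over (Spec (.of K))) [GrpObj B] [IsAbVar B]
    (s : AlgebraicClosure K ≃ₐ[K] AlgebraicClosure K) (x y : Pts B (AlgebraicClosure K)) :
    act B s (x - y) = act B s x - act B s y := map_sub (galHom B s) x y

theorem v2s_act_neg (B : Over (Spec (.of K))) [GrpObj B] [IsAbVar B]
    (s : AlgebraicClosure K ≃ₐ[K] AlgebraicClosure K) (x : Pts B (AlgebraicClosure K)) :
    act B s (-x) = -act B s x := map_neg (galHom B s) x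

theorem v2s_act_one (B : Over (Spec (.of K))) [GrpObj B] [IsAbVar B]
    (x : Pts B (AlgebraicClosure K)) :
    act B (1 : AlgebraicClosure K ≃ₐ[K] AlgebraicClosure K) x = x := by
  show galHom B 1 x = x
  rw [ptsb_galHom_one]
  rfl

theorem v2s_act_mul (B : Over (Spec (.of K))) [GrpObj B] [IsAbVar B]
    (s t : AlgebraicClosure K ≃ₐ[K] AlgebraicClosure K) (x : Pts B (AlgebraicClosure K)) :
    act B (s * t) x = act B s (act B t x) := by
  show galHom B (s * t) x = _
  rw [ptsb_galHom_mul]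
  rfl

theorem v2s_act_sum (B : Over (Spec (.of K))) [GrpObj B] [IsAbVar B]
    (s : AlgebraicClosure K ≃ₐ[K] AlgebraicClosure K) {X : Type*} (F : Finset X)
    (x : X → Pts B (AlgebraicClosure K)) :
    act B s (∑ i ∈ F, x i) = ∑ i ∈ F, act B s (x i) := map_sum (galHom B s) x F

theorem v2s_onPts_zero {B C : Over (Spec (.of K))} [GrpObj B] [IsAbVar B] [GrpObj C] [IsAbVar C]
    (f : B ⟶ C) [IsMonHom f] : onPts f (0 : Pts B (AlgebraicClosure K)) = 0 := by
  have h := vc_onPts_add f (0 : Pts B (AlgebraicClosure K)) 0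
  rw [add_zero] at h
  exact left_eq_add.1 h

theorem v2s_onPts_neg {B C : Over (Spec (.of K))} [GrpObj B] [IsAbVar B] [GrpObj C] [IsAbVar C]
    (f : B ⟶ C) [IsMonHom f] (x : Pts B (AlgebraicClosure K)) : onPts f (-x) = -onPts f x := by
  have h := vc_onPts_add f x (-x)
  rw [add_neg_cancel, v2s_onPts_zero] at h
  exact (neg_eq_of_add_eq_zero_right h.symm).symm

theorem v2s_onPts_sub {B C : Over (Spec (.of K))} [GrpObj B] [IsAbVar B] [GrpObj C] [IsAbVar C]
    (f : B ⟶ C) [IsMonHom f] (x y : Pts B (AlgebraicClosure K)) :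
    onPts f (x - y) = onPts f x - onPts f y := by
  rw [sub_eq_add_neg, vc_onPts_add, v2s_onPts_neg, sub_eq_add_neg]

theorem v2s_onPts_sum {B C : Over (Spec (.of K))} [GrpObj B] [IsAbVar B] [GrpObj C] [IsAbVar C]
    (f : B ⟶ C) [IsMonHom f] {X : Type*} (F : Finset X) (x : X → Pts B (AlgebraicClosure K)) :
    onPts f (∑ i ∈ F, x i) = ∑ i ∈ F, onPts f (x i) := by
  classical
  induction F using Finset.induction_on with
  | empty => rw [Finset.sum_empty, Finset.sum_empty, v2s_onPts_zero]
  | insert a F ha ih => rw [Finset.sum_insert ha, Finset.sum_insert ha, vc_onPts_add, ih]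

/-- The stabilizer of a point. -/
noncomputable def v2sStab (B : Over (Spec (.of K))) [GrpObj B] [IsAbVar B]
    (x : Pts B (AlgebraicClosure K)) :
    Subgroup (AlgebraicClosure K ≃ₐ[K] AlgebraicClosure K) where
  carrier := {s | act B s x = x}
  one_mem' := v2s_act_one B x
  mul_mem' := by
    intro s t hs ht
    show act B (s * t) x = x
    rw [v2s_act_mul, show act B t x = x from ht]
    exact hs
  inv_mem' := by
    intro s hs
    show act B s⁻¹ x = x
    have h1 : act B (s⁻¹ * s) x = x := by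
      rw [inv_mul_cancel, v2s_act_one]
    rwa [v2s_act_mul, show act B s x = x from hs] at h1

/-- Parallel transfer of a quadratic character and of a cocycle with values in `{0, t}`. -/
theorem v2s_par (L : IntermediateField K (AlgebraicClosure K))
    [Fintype ((AlgebraicClosure K ≃ₐ[K] AlgebraicClosure K) ⧸ L.fixingSubgroup)]
    (B : Over (Spec (.of K))) [GrpObj B] [IsAbVar B] (t : Pts B (AlgebraicClosure K))
    (ht2 : t + t = 0) (htG : ∀ s, act B s t = t) (r : AlgebraicClosure K)
    (b : Pts B (AlgebraicClosure K))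
    (h : ∀ s ∈ L.fixingSubgroup, (s r = r ∧ act B s b = b) ∨ (s r = -r ∧ act B s b = b + t))
    (g : AlgebraicClosure K ≃ₐ[K] AlgebraicClosure K) :
    (g (∏ q : (AlgebraicClosure K ≃ₐ[K] AlgebraicClosure K) ⧸ L.fixingSubgroup, q.out r) =
      ∏ q : (AlgebraicClosure K ≃ₐ[K] AlgebraicClosure K) ⧸ L.fixingSubgroup, q.out r ∧
    act B g (∑ q : (AlgebraicClosure K ≃ₐ[K] AlgebraicClosure K) ⧸ L.fixingSubgroup,
      act B q.out b) =
      ∑ q : (AlgebraicClosure K ≃ₐ[K] AlgebraicClosure K) ⧸ L.fixingSubgroup, act B q.out b) ∨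
    (g (∏ q : (AlgebraicClosure K ≃ₐ[K] AlgebraicClosure K) ⧸ L.fixingSubgroup, q.out r) =
      -∏ q : (AlgebraicClosure K ≃ₐ[K] AlgebraicClosure K) ⧸ L.fixingSubgroup, q.out r ∧
    act B g (∑ q : (AlgebraicClosure K ≃ₐ[K] AlgebraicClosure K) ⧸ L.fixingSubgroup,
      act B q.out b) =
      ∑ q : (AlgebraicClosure K ≃ₐ[K] AlgebraicClosure K) ⧸ L.fixingSubgroup,
        act B q.out b + t) := by
  classical
  have step : ∀ q : (AlgebraicClosure K ≃ₐ[K] AlgebraicClosure K) ⧸ L.fixingSubgroup,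
      (g (q.out r) = (g • q).out r ∧ act B g (act B q.out b) = act B (g • q).out b) ∨
      (g (q.out r) = -(g • q).out r ∧ act B g (act B q.out b) = act B (g • q).out b + t) := by
    intro q
    have h1 : ((g * q.out : AlgebraicClosure K ≃ₐ[K] AlgebraicClosure K) :
        (AlgebraicClosure K ≃ₐ[K] AlgebraicClosure K) ⧸ L.fixingSubgroup) = g • q := by
      rw [← smul_eq_mul, ← MulAction.Quotient.smul_coe, QuotientGroup.out_eq']
    have h2 : (g • q).out⁻¹ * (g * q.out) ∈ L.fixingSubgroup := by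
      rw [← QuotientGroup.eq, QuotientGroup.out_eq', h1]
    have h3 : g (q.out r) = (g • q).out (((g • q).out⁻¹ * (g * q.out)) r) := by
      rw [← AlgEquiv.mul_apply, ← AlgEquiv.mul_apply, mul_inv_cancel_left]
    have h4 : act B g (act B q.out b) =
        act B (g • q).out (act B ((g • q).out⁻¹ * (g * q.out)) b) := by
      rw [← v2s_act_mul, ← v2s_act_mul, mul_inv_cancel_left]
    rcases h _ h2 with ⟨h5, h6⟩ | ⟨h5, h6⟩
    · left
      rw [h3, h4, h5, h6]
      exact ⟨rfl, rfl⟩
    · right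
      rw [h3, h4, h5, h6, map_neg, vc_act_add, htG]
      exact ⟨rfl, rfl⟩
  have key : ∀ F : Finset ((AlgebraicClosure K ≃ₐ[K] AlgebraicClosure K) ⧸ L.fixingSubgroup),
      (∏ q ∈ F, g (q.out r) = ∏ q ∈ F, (g • q).out r ∧
        ∑ q ∈ F, act B g (act B q.out b) = ∑ q ∈ F, act B (g • q).out b) ∨
      (∏ q ∈ F, g (q.out r) = -∏ q ∈ F, (g • q).out r ∧
        ∑ q ∈ F, act B g (act B q.out b) = ∑ q ∈ F, act B (g • q).out b + t) := by
    intro F
    induction F using Finset.induction_on with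
    | empty => left; simp
    | insert q F hq ih =>
      rw [Finset.prod_insert hq, Finset.prod_insert hq, Finset.sum_insert hq, Finset.sum_insert hq]
      rcases step q with ⟨h1, h2⟩ | ⟨h1, h2⟩ <;> rcases ih with ⟨h3, h4⟩ | ⟨h3, h4⟩
      · left
        rw [h1, h2, h3, h4]
        exact ⟨rfl, rfl⟩
      · right
        rw [h1, h2, h3, h4]
        exact ⟨by ring, by abel⟩
      · right
        rw [h1, h2, h3, h4]
        exact ⟨by ring, by abel⟩
      · left
        rw [h1, h2, h3, h4]
        refine ⟨by ring, ?_⟩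
        have h5 : act B (g • q).out b + t + (∑ q ∈ F, act B (g • q).out b + t) =
            act B (g • q).out b + ∑ q ∈ F, act B (g • q).out b + (t + t) := by abel
        rw [h5, ht2, add_zero]
  have h1 : ∏ q : (AlgebraicClosure K ≃ₐ[K] AlgebraicClosure K) ⧸ L.fixingSubgroup,
      (g • q).out r = ∏ q : (AlgebraicClosure K ≃ₐ[K] AlgebraicClosure K) ⧸ L.fixingSubgroup,
      q.out r := Equiv.prod_comp (MulAction.toPerm g) (fun q : (AlgebraicClosure K ≃ₐ[K]
        AlgebraicClosure K) ⧸ L.fixingSubgroup => q.out r)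
  have h2 : ∑ q : (AlgebraicClosure K ≃ₐ[K] AlgebraicClosure K) ⧸ L.fixingSubgroup,
      act B (g • q).out b = ∑ q : (AlgebraicClosure K ≃ₐ[K] AlgebraicClosure K) ⧸
        L.fixingSubgroup, act B q.out b :=
    Equiv.sum_comp (MulAction.toPerm g) (fun q : (AlgebraicClosure K ≃ₐ[K]
        AlgebraicClosure K) ⧸ L.fixingSubgroup => act B q.out b)
  have h3 := key Finset.univ
  rw [h1, h2] at h3
  rw [map_prod, v2s_act_sum]
  exact h3

end act

end Pool.Agent.H.MP_ac3185_nt
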