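import Pool.Agent.H.MP_ac3185_nt.V2.Defs
import Pool.Agent.H.MP_ac3185_nt.V.RootC

/-! Local root numbers above a place (names `v2r_`). -/

set_option autoImplicit false

open CategoryTheory AlgebraicGeometry NumberField IsDedekindDomain
open scoped MonObj Pointwise

namespace Pool.Agent.H.MP_ac3185_nt

universe u

variable {K : Type u} [Field K] [NumberField K]

/-- The vectors fixed by the inertia group do not change in a finite extension of `K`, for a
semistable abelian variety. -/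
theorem v2r_fixed (L : IntermediateField K (AlgebraicClosure K)) [FiniteDimensional K L]
    (A : Over (Spec (.of K))) [GrpObj A] [IsAbVar A] (𝔓 : Ideal (𝓞 (AlgebraicClosure K)))
    (hss : SemistableOver A ⊥ 𝔓) (ℓ : ℕ) [Fact ℓ.Prime] (hℓ : (ℓ : 𝓞 (AlgebraicClosure K)) ∉ 𝔓) :
    fixedBy (ops A ℓ (inertia K 𝔓 ∩
      (L.fixingSubgroup : Set (AlgebraicClosure K ≃ₐ[K] AlgebraicClosure K)))) =
      fixedBy (ops A ℓ (inertia K 𝔓)) := by
  obtain ⟨-, hun⟩ := hss ℓ hℓ
  have hI : ∀ g ∈ inertiaGrp K 𝔓, IsUnip (galRep A ℓ g) := by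
    intro g hg
    refine hun g ⟨hg, ?_⟩
    rw [IntermediateField.fixingSubgroup_bot]
    exact Subgroup.mem_top g
  let F : IntermediateField K (AlgebraicClosure K) :=
    IntermediateField.normalClosure K L (AlgebraicClosure K)
  have hFn : Normal K F := inferInstance
  have hFf : FiniteDimensional K F := inferInstance
  exact fixedBy_finiteIndex (galRep A ℓ) (AlgEquiv.restrictNormalHom F) (inertiaGrp K 𝔓) hI
    L.fixingSubgroup (ker_le_fixingSubgroup F L (IntermediateField.le_normalClosure L))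

/-- The split rank at a place of `L` above a place where the torus is split. -/
theorem v2r_rank (L : IntermediateField K (AlgebraicClosure K)) [FiniteDimensional K L]
    (A : Over (Spec (.of K))) [GrpObj A] [IsAbVar A] (v : HeightOneSpectrum (𝓞 K)) (r : ℕ)
    (h : SplitTorus A v r) (𝔓 : Ideal (𝓞 (AlgebraicClosure K))) (h𝔓 : Above 𝔓 v) (ℓ : ℕ)
    [Fact ℓ.Prime] (hℓ : (ℓ : 𝓞 (AlgebraicClosure K)) ∉ 𝔓) : localRank A ℓ L 𝔓 = r := by
  obtain ⟨hss, h2⟩ := h 𝔓 h𝔓
  obtain ⟨h3, h4⟩ := h2 ℓ hℓ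
  unfold localRank
  rw [absb_quotRank_congr _ _ _ (v2r_fixed L A 𝔓 hss ℓ hℓ)]
  have h5 : preInv (ops A ℓ (inertia K 𝔓)) (ops A ℓ (decomp K 𝔓 ∩
      (L.fixingSubgroup : Set (AlgebraicClosure K ≃ₐ[K] AlgebraicClosure K)))) = ⊤ := by
    rw [eq_top_iff]
    intro x _
    rintro _ ⟨g, hg, rfl⟩
    exact h3 g hg.1 x
  unfold quotRank quotInv
  rw [h5, Submodule.map_top, Submodule.range_mkQ, finrank_top]
  exact h4

/-- The root numbers at the places above a place where the torus is split. -/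
theorem v2r_local (L : IntermediateField K (AlgebraicClosure K)) [FiniteDimensional K L]
    (A : Over (Spec (.of K))) [GrpObj A] [IsAbVar A] (W : LocalSigns K) (hW : IsRootNumbers A W)
    (v : HeightOneSpectrum (𝓞 K)) (r : ℕ) (h : SplitTorus A v r)
    (w : HeightOneSpectrum (𝓞 L)) (hw : Divides L w v) : W L w = (-1) ^ r := by
  obtain ⟨𝔓₀, h𝔓₀⟩ := exists_above v
  obtain ⟨σ, hσ⟩ := exists_translate L v 𝔓₀ h𝔓₀ w hw
  have h𝔓 := above_smul v 𝔓₀ h𝔓₀ σ
  obtain ⟨B, hB⟩ := exists_bound v (σ • 𝔓₀) h𝔓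
  obtain ⟨ℓ, hℓB, hℓ⟩ := Nat.exists_infinite_primes (B + 1)
  haveI : Fact ℓ.Prime := ⟨hℓ⟩
  have hℓ𝔓 : (ℓ : 𝓞 (AlgebraicClosure K)) ∉ σ • 𝔓₀ := hB ℓ hℓ (by omega)
  rw [hW.semistable L w (σ • 𝔓₀) hσ ((h _ h𝔓).1.mono L) ℓ hℓ𝔓, v2r_rank L A v r h _ h𝔓 ℓ hℓ𝔓]

/-- There are finitely many places of `L` above `v`, at least one. -/
theorem v2r_places (L : IntermediateField K (AlgebraicClosure K)) [FiniteDimensional K L]
    (v : HeightOneSpectrum (𝓞 K)) :
    Finite {w : HeightOneSpectrum (𝓞 L) // Divides L w v} ∧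
      Nonempty {w : HeightOneSpectrum (𝓞 L) // Divides L w v} := by
  obtain ⟨𝔓, h𝔓⟩ := exists_above v
  constructor
  · let F : IntermediateField K (AlgebraicClosure K) :=
      IntermediateField.normalClosure K L (AlgebraicClosure K)
    have hFn : Normal K F := inferInstance
    have hFg : IsGalois K F := ⟨⟩
    have hFf : FiniteDimensional K F := inferInstance
    obtain ⟨T, hT, -⟩ := exists_T F L (IntermediateField.le_normalClosure L) v 𝔓 h𝔓
    exact Finite.of_surjective T hT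
  · obtain ⟨w, -, hw⟩ := exists_placeBelow L v 𝔓 h𝔓 1
    exact ⟨⟨w, hw⟩⟩

/-- The product of the root numbers at the places above a place where the torus is split. -/
theorem v2r_split (L : IntermediateField K (AlgebraicClosure K)) [FiniteDimensional K L]
    (A : Over (Spec (.of K))) [GrpObj A] [IsAbVar A] (W : LocalSigns K) (hW : IsRootNumbers A W)
    (v : HeightOneSpectrum (𝓞 K)) (r : ℕ) (h : SplitTorus A v r) :
    ∏ᶠ w : {w : HeightOneSpectrum (𝓞 L) // Divides L w v}, W L w.1 =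
      (-1) ^ (r * placeCount L v) := by
  have hf := (v2r_places L v).1
  have _ : Fintype {w : HeightOneSpectrum (𝓞 L) // Divides L w v} := Fintype.ofFinite _
  rw [finprod_eq_prod_of_fintype, Finset.prod_congr rfl fun w _ =>
    v2r_local L A W hW v r h w.1 w.2, Finset.prod_const, Finset.card_univ, ← pow_mul]
  unfold placeCount
  rw [Nat.card_eq_fintype_card]

/-- One place above `v` in the trivial extension. -/
theorem v2r_one (v : HeightOneSpectrum (𝓞 K)) :
    placeCount (⊥ : IntermediateField K (AlgebraicClosure K)) v = 1 := by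
  obtain ⟨𝔓, h𝔓⟩ := exists_above v
  have h1 : OnePlace (⊥ : IntermediateField K (AlgebraicClosure K)) 𝔓 := by
    intro s
    refine ⟨1, (decompGrp K 𝔓).one_mem, ?_⟩
    rw [IntermediateField.fixingSubgroup_bot]
    exact Subgroup.mem_top _
  have hsub : Subsingleton {w : HeightOneSpectrum (𝓞 (⊥ : IntermediateField K
      (AlgebraicClosure K))) // Divides ⊥ w v} :=
    ⟨fun a b => Subtype.ext (vr_one ⊥ v 𝔓 h𝔓 h1 _ _ a.2 b.2)⟩
  have hne := (v2r_places (⊥ : IntermediateField K (AlgebraicClosure K)) v).2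
  unfold placeCount
  exact Nat.card_eq_one_iff_unique.2 ⟨hsub, hne⟩

/-- The product of the local root numbers above a mild place. -/
theorem v2r_mild (L : IntermediateField K (AlgebraicClosure K)) [FiniteDimensional K L]
    (hodd : Odd (Module.finrank K L)) (A : Over (Spec (.of K))) [GrpObj A] [IsAbVar A]
    (W : LocalSigns K) (hW : IsRootNumbers A W) (v : HeightOneSpectrum (𝓞 K))
    (hA : ∀ 𝔓 : Ideal (𝓞 (AlgebraicClosure K)), Above 𝔓 v → MildAt A L 𝔓) :
    ∏ᶠ w : {w : HeightOneSpectrum (𝓞 L) // Divides L w v}, W L w.1 =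
      ∏ᶠ w : {w : HeightOneSpectrum (𝓞 (⊥ : IntermediateField K (AlgebraicClosure K))) //
        Divides ⊥ w v}, W ⊥ w.1 := by
  by_cases hv : ∀ 𝔓 : Ideal (𝓞 (AlgebraicClosure K)), Above 𝔓 v → GoodAt A 𝔓
  · have g1 : ∀ w : {w : HeightOneSpectrum (𝓞 L) // Divides L w v}, W L w.1 = 1 := fun w =>
      vr_good A W hW v hv L w.1 w.2
    have g2 : ∀ w : {w : HeightOneSpectrum (𝓞 (⊥ : IntermediateField K (AlgebraicClosure K))) //
      Divides ⊥ w v}, W ⊥ w.1 = 1 := fun w => vr_good A W hW v hv ⊥ w.1 w.2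
    rw [finprod_eq_one_of_forall_eq_one g1, finprod_eq_one_of_forall_eq_one g2]
  · push Not at hv
    obtain ⟨𝔓, h𝔓, hbad⟩ := hv
    obtain ⟨h1, h2⟩ := (hA 𝔓 h𝔓).resolve_left hbad
    have h1' : OnePlace (⊥ : IntermediateField K (AlgebraicClosure K)) 𝔓 := by
      intro s
      refine ⟨1, (decompGrp K 𝔓).one_mem, ?_⟩
      rw [IntermediateField.fixingSubgroup_bot]
      exact Subgroup.mem_top _
    obtain ⟨w, -, hw⟩ := exists_placeBelow L v 𝔓 h𝔓 1
    obtain ⟨w₀, -, hw₀⟩ := exists_placeBelow ⊥ v 𝔓 h𝔓 1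
    have e1 : ∏ᶠ w : {w : HeightOneSpectrum (𝓞 L) // Divides L w v}, W L w.1 = W L w := by
      have hall : ∀ w' : {w : HeightOneSpectrum (𝓞 L) // Divides L w v}, W L w'.1 = W L w :=
        fun w' => congrArg (W L) (vr_one L v 𝔓 h𝔓 h1 w'.1 w w'.2 hw)
      have : Unique {w : HeightOneSpectrum (𝓞 L) // Divides L w v} :=
        ⟨⟨⟨w, hw⟩⟩, fun w' => Subtype.ext (vr_one L v 𝔓 h𝔓 h1 _ _ w'.2 hw)⟩
      rw [finprod_unique]
      exact hall _
    have e2 : ∏ᶠ w : {w : HeightOneSpectrum (𝓞 (⊥ : IntermediateField K (AlgebraicClosure K))) //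
        Divides ⊥ w v}, W ⊥ w.1 = W ⊥ w₀ := by
      have hall : ∀ w' : {w : HeightOneSpectrum (𝓞 (⊥ : IntermediateField K
          (AlgebraicClosure K))) // Divides ⊥ w v}, W ⊥ w'.1 = W ⊥ w₀ :=
        fun w' => congrArg (W ⊥) (vr_one ⊥ v 𝔓 h𝔓 h1' w'.1 w₀ w'.2 hw₀)
      have : Unique {w : HeightOneSpectrum (𝓞 (⊥ : IntermediateField K (AlgebraicClosure K))) //
          Divides ⊥ w v} :=
        ⟨⟨⟨w₀, hw₀⟩⟩, fun w' => Subtype.ext (vr_one ⊥ v 𝔓 h𝔓 h1' _ _ w'.2 hw₀)⟩
      rw [finprod_unique]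
      exact hall _
    rw [e1, e2]
    exact vr_local A W hW v 𝔓 h𝔓 L hodd h1 h2 w hw w₀ hw₀

end Pool.Agent.H.MP_ac3185_nt
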