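import Pool.Agent.H.MP_ac3185_nt.V2.Data

/-! The square class attached to a point, for an isogeny of degree `2`: all properties. -/

set_option autoImplicit false

open CategoryTheory AlgebraicGeometry NumberField IsDedekindDomain
open scoped MonObj

namespace Pool.Agent.H.MP_ac3185_nt

universe u

section conj

variable {K : Type u} [Field K]

/-- The complex conjugation of `Kbar` over `K` at a real place. -/
theorem v2s_conj (e : AlgebraicClosure K →+* ℂ)
    (he : ∀ x : K, starRingEnd ℂ (e (algebraMap K (AlgebraicClosure K) x)) =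
      e (algebraMap K (AlgebraicClosure K) x)) :
    ∃ s : AlgebraicClosure K ≃ₐ[K] AlgebraicClosure K, ∀ z, e (s z) = starRingEnd ℂ (e z) := by
  let _ : Algebra (AlgebraicClosure K) ℂ := e.toAlgebra
  let _ : Algebra K ℂ := (e.comp (algebraMap K (AlgebraicClosure K))).toAlgebra
  have _ : IsScalarTower K (AlgebraicClosure K) ℂ := IsScalarTower.of_algebraMap_eq fun x => rfl
  let ψ : AlgebraicClosure K →ₐ[K] ℂ :=
    { (starRingEnd ℂ).comp e with
      commutes' := fun x => he x }
  let φ : AlgebraicClosure K →ₐ[K] AlgebraicClosure K := ψ.restrictNormal (AlgebraicClosure K)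
  refine ⟨AlgEquiv.ofBijective φ (Algebra.IsAlgebraic.algHom_bijective φ), fun z => ?_⟩
  exact AlgHom.restrictNormal_commutes ψ (AlgebraicClosure K) z

end conj

section step

variable {K : Type u} [Field K] [NumberField K]

/-- For an isogeny `f : B → C` of degree `2` and an extension `L / K` of odd degree there is a
function `c` from `C(L)` to `L^*`, additive modulo squares, with values in the group of the elements
whose norm to `K` is a square, such that `c(P)` is a square only for `P` in `C(K) + f(B(L))`. It is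
unramified where the kernel of `f` is etale, of even valuation at the places which are alone above
their restriction to `K`, and positive at the real places if `f` has real fibres. -/
theorem v2s_gen (L : IntermediateField K (AlgebraicClosure K)) [FiniteDimensional K L]
    (hodd : Odd (Module.finrank K L)) {B C : Over (Spec (.of K))} [GrpObj B] [IsAbVar B]
    [GrpObj C] [IsAbVar C] (f : B ⟶ C) (hf : IsMonHom f) (hsurj : ∀ y, ∃ x, onPts f x = y)
    (hker : ∃ t, t ≠ 0 ∧ ∀ x, onPts f x = 0 ↔ x = 0 ∨ x = t) :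
    ∃ c : Pts C (AlgebraicClosure K) → L,
      (∀ P, c P ≠ 0) ∧
      (∀ P, (∀ s ∈ L.fixingSubgroup, act C s P = P) → IsSquare (Algebra.norm K (c P))) ∧
      (∀ P Q, (∀ s ∈ L.fixingSubgroup, act C s P = P) →
        (∀ s ∈ L.fixingSubgroup, act C s Q = Q) → IsSquare (c P * c Q * c (P + Q))) ∧
      (∀ 𝔓, EtaleAt f 𝔓 → ∀ P, (∀ s ∈ L.fixingSubgroup, act C s P = P) →
        UnrAt L 𝔓 (c P)) ∧
      (∀ 𝔓, FinPrime 𝔓 → OnePlace L 𝔓 → ∀ P, (∀ s ∈ L.fixingSubgroup, act C s P = P) →
        EvenAt L 𝔓 (c P)) ∧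
      (∀ e : AlgebraicClosure K →+* ℂ, (∀ x : L, starRingEnd ℂ (e x) = e x) →
        (∀ s : AlgebraicClosure K ≃ₐ[K] AlgebraicClosure K,
          (∀ z, e (s z) = starRingEnd ℂ (e z)) →
          ∀ x, act C s (onPts f x) = onPts f x → act B s x = x) → ∀ P,
        (∀ s ∈ L.fixingSubgroup, act C s P = P) → ∃ t : ℝ, 0 < t ∧ e (c P) = t) ∧
      (∀ P, (∀ s ∈ L.fixingSubgroup, act C s P = P) → IsSquare (c P) →
        ∃ y0 x, (∀ s, act C s y0 = y0) ∧ (∀ s ∈ L.fixingSubgroup, act B s x = x) ∧
          P = y0 + onPts f x) ∧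
      (∀ P, (∀ s ∈ L.fixingSubgroup, act C s P = P) → ∃ (a : L) (r : AlgebraicClosure K)
        (b : Pts B (AlgebraicClosure K)), a ≠ 0 ∧ r * r = a ∧ onPts f b = P ∧
        (∀ s ∈ L.fixingSubgroup, s r = r ↔ act B s b = b) ∧
        c P = a * algebraMap K L (Algebra.norm K a)) := by
  classical
  have hfi := vn_finiteIndex L
  let _ := L.fixingSubgroup.fintypeQuotientOfFiniteIndex
  obtain ⟨t, ht0, ht⟩ := hker
  have hft : onPts f t = 0 := (ht t).2 (Or.inr rfl)
  have ht2 : t + t = 0 := by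
    have h1 : onPts f (t + t) = 0 := by rw [vc_onPts_add, hft, add_zero]
    rcases (ht _).1 h1 with h2 | h2
    · exact h2
    · exact absurd (add_eq_left.1 h2) ht0
  have htG : ∀ s, act B s t = t := by
    intro s
    have h1 : onPts f (act B s t) = 0 := by
      rw [← vc_onPts_act, hft, v2s_act_zero]
    rcases (ht _).1 h1 with h2 | h2
    · exfalso
      apply ht0
      have h3 : act B s⁻¹ (act B s t) = t := by
        rw [← v2s_act_mul, inv_mul_cancel, v2s_act_one]
      rw [← h3, h2, v2s_act_zero]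
    · exact h2
  have hpt : ∀ P : Pts C (AlgebraicClosure K),
      ∃ (a : L) (r u : AlgebraicClosure K) (b β : Pts B (AlgebraicClosure K)), a ≠ 0 ∧
        ((∀ s ∈ L.fixingSubgroup, act C s P = P) → r * r = a ∧ onPts f b = P ∧
        (∀ s ∈ L.fixingSubgroup, s r = r ↔ act B s b = b) ∧
        u * u = ((a * algebraMap K L (Algebra.norm K a) : L) : AlgebraicClosure K) ∧
        onPts f β = P + v2sTr L C P ∧ (∀ s, act C s (v2sTr L C P) = v2sTr L C P) ∧
        ∀ s ∈ L.fixingSubgroup, (s u = u ∧ act B s β = β) ∨ (s u = -u ∧ act B s β = β + t)) := by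
    intro P
    by_cases hP : ∀ s ∈ L.fixingSubgroup, act C s P = P
    · obtain ⟨a, r, u, b, β, h1, h2⟩ := v2s_pt L f hsurj t ht0 ht ht2 htG P hP
      exact ⟨a, r, u, b, β, h1, fun _ => h2⟩
    · exact ⟨1, 1, 1, 0, 0, one_ne_zero, fun h => absurd h hP⟩
  choose a r u b β ha hall using hpt
  have hc0 : ∀ P, a P * algebraMap K L (Algebra.norm K (a P)) ≠ 0 := by
    intro P
    refine mul_ne_zero (ha P) ?_
    rw [ne_eq, map_eq_zero, Algebra.norm_eq_zero_iff]
    exact ha P
  have hu0 : ∀ P, (∀ s ∈ L.fixingSubgroup, act C s P = P) → u P ≠ 0 := by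
    intro P hP h
    obtain ⟨-, -, -, h1, -⟩ := hall P hP
    rw [h, mul_zero] at h1
    exact hc0 P (Subtype.ext h1.symm)
  have hiff : ∀ P, (∀ s ∈ L.fixingSubgroup, act C s P = P) → ∀ s ∈ L.fixingSubgroup,
      act B s (β P) = β P → s (u P) = u P := by
    intro P hP s hs h
    obtain ⟨-, -, -, -, -, -, h1⟩ := hall P hP
    rcases h1 s hs with h2 | h2
    · exact h2.1
    · rw [h2.2] at h
      exact absurd (add_eq_left.1 h) ht0
  refine ⟨fun P => a P * algebraMap K L (Algebra.norm K (a P)), hc0, ?_, ?_, ?_, ?_, ?_, ?_, ?_⟩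
  · intro P _
    obtain ⟨k, hk⟩ := hodd
    refine ⟨Algebra.norm K (a P) ^ (k + 1), ?_⟩
    rw [map_mul, Algebra.norm_algebraMap, hk]
    ring
  · intro P Q hP hQ
    have hPQ : ∀ s ∈ L.fixingSubgroup, act C s (P + Q) = P + Q := by
      intro s hs
      rw [vc_act_add, hP s hs, hQ s hs]
    obtain ⟨-, -, -, p1, p2, -, p3⟩ := hall P hP
    obtain ⟨-, -, -, q1, q2, -, q3⟩ := hall Q hQ
    obtain ⟨-, -, -, w1, w2, -, w3⟩ := hall (P + Q) hPQ
    have hTr : v2sTr L C (P + Q) = v2sTr L C P + v2sTr L C Q := by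
      unfold v2sTr
      rw [← Finset.sum_add_distrib]
      exact Finset.sum_congr rfl fun q _ => vc_act_add C q.out P Q
    have hδ : onPts f (β P + β Q - β (P + Q)) = 0 := by
      rw [v2s_onPts_sub, vc_onPts_add, p2, q2, w2, hTr]
      abel
    have hδG : ∀ s, act B s (β P + β Q - β (P + Q)) = β P + β Q - β (P + Q) := by
      intro s
      rcases (ht _).1 hδ with h | h
      · rw [h, v2s_act_zero]
      · rw [h, htG]
    have hmem : u P * u Q * u (P + Q) ∈ L := by
      apply vn_mem
      intro s hs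
      have h0 := hδG s
      rw [v2s_act_sub, vc_act_add] at h0
      have contra : ∀ x y z : Pts B (AlgebraicClosure K), x + y - z = β P + β Q - β (P + Q) →
          x + y - z = β P + β Q - β (P + Q) + t → False := by
        intro x y z h1 h2
        rw [h1] at h2
        exact ht0 (left_eq_add.1 h2)
      have ht3 : -t = t := neg_eq_of_add_eq_zero_left ht2
      rw [map_mul, map_mul]
      rcases p3 s hs with ⟨x1, x2⟩ | ⟨x1, x2⟩ <;> rcases q3 s hs with ⟨y1, y2⟩ | ⟨y1, y2⟩ <;>
        rcases w3 s hs with ⟨z1, z2⟩ | ⟨z1, z2⟩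
      · rw [x1, y1, z1]
      · exfalso
        refine contra _ _ _ h0 ?_
        rw [x2, y2, z2]
        have : β P + β Q - (β (P + Q) + t) = β P + β Q - β (P + Q) + -t := by abel
        rw [this, ht3]
      · exfalso
        refine contra _ _ _ h0 ?_
        rw [x2, y2, z2]
        abel
      · rw [x1, y1, z1]
        ring
      · exfalso
        refine contra _ _ _ h0 ?_
        rw [x2, y2, z2]
        abel
      · rw [x1, y1, z1]
        ring
      · rw [x1, y1, z1]
        ring
      · exfalso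
        refine contra _ _ _ h0 ?_
        rw [x2, y2, z2]
        abel
    refine ⟨⟨u P * u Q * u (P + Q), hmem⟩, ?_⟩
    apply Subtype.ext
    have h1 : (((a P * algebraMap K L (Algebra.norm K (a P))) *
        (a Q * algebraMap K L (Algebra.norm K (a Q))) *
        (a (P + Q) * algebraMap K L (Algebra.norm K (a (P + Q)))) : L) : AlgebraicClosure K) =
        ((a P * algebraMap K L (Algebra.norm K (a P)) : L) : AlgebraicClosure K) *
        ((a Q * algebraMap K L (Algebra.norm K (a Q)) : L) : AlgebraicClosure K) *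
        ((a (P + Q) * algebraMap K L (Algebra.norm K (a (P + Q))) : L) : AlgebraicClosure K) :=
      rfl
    rw [h1, ← p1, ← q1, ← w1]
    show _ = u P * u Q * u (P + Q) * (u P * u Q * u (P + Q))
    ring
  · intro 𝔓 hE P hP s hs hsL z hz
    obtain ⟨-, -, -, h1, -, -, h2⟩ := hall P hP
    obtain ⟨R, _, ρ, hρ, hρ'⟩ := hE
    have h3 : act B s (β P) = β P := by
      rcases h2 s hsL with h | h
      · exact h.2
      · exfalso
        have h4 := hρ s hs (β P)
        rw [h.2, map_add] at h4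
        exact ht0 (hρ' t hft (add_eq_left.1 h4))
    have h5 := hiff P hP s hsL h3
    rw [← h1] at hz
    rcases mul_self_eq_mul_self_iff.1 hz with h6 | h6
    · rw [h6, h5]
    · rw [h6, map_neg, h5]
  · intro 𝔓 h𝔓 h1 P hP
    exact vu_evenNorm L hodd h𝔓 h1 (ha P)
  · intro e he hR P hP
    obtain ⟨-, -, -, h1, h2, h3, h4⟩ := hall P hP
    obtain ⟨s, hs⟩ := v2s_conj e (fun x => he (algebraMap K L x))
    have hsL : s ∈ L.fixingSubgroup := by
      rw [IntermediateField.mem_fixingSubgroup_iff]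
      intro x hx
      apply e.injective
      rw [hs]
      exact he ⟨x, hx⟩
    have h5 : act B s (β P) = β P := by
      apply hR s hs
      rw [h2, vc_act_add, hP s hsL, h3]
    have h6 := hiff P hP s hsL h5
    have h7 : starRingEnd ℂ (e (u P)) = e (u P) := by
      rw [← hs, h6]
    obtain ⟨y, hy⟩ := Complex.conj_eq_iff_real.1 h7
    refine ⟨y * y, ?_, ?_⟩
    · have hy0 : y ≠ 0 := by
        intro h
        rw [h] at hy
        exact hu0 P hP (e.injective (by rw [hy, map_zero]; rfl))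
      exact mul_self_pos.2 hy0
    · have h8 : e ((a P * algebraMap K L (Algebra.norm K (a P)) : L) : AlgebraicClosure K) =
          e (u P) * e (u P) := by
        rw [← h1, map_mul]
      rw [h8, hy]
      push_cast
      rfl
  · intro P hP hsq
    obtain ⟨-, -, -, h1, h2, h3, h4⟩ := hall P hP
    obtain ⟨z, hz⟩ := hsq
    have hz' : u P * u P = (z : AlgebraicClosure K) * z := by
      rw [h1]
      exact congrArg Subtype.val hz
    have h5 : ∀ s ∈ L.fixingSubgroup, s (u P) = u P := by
      intro s hs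
      rcases mul_self_eq_mul_self_iff.1 hz' with h6 | h6
      · rw [h6]
        exact vn_fix L z.2 hs
      · rw [h6, map_neg, vn_fix L z.2 hs]
    refine ⟨-v2sTr L C P, β P, fun s => ?_, fun s hs => ?_, ?_⟩
    · rw [v2s_act_neg, h3]
    · rcases h4 s hs with h | h
      · exact h.2
      · exfalso
        rw [h5 s hs] at h
        exact hu0 P hP (self_eq_neg.1 h.1)
    · rw [h2]
      abel
  · intro P hP
    obtain ⟨h1, h2, h3, -⟩ := hall P hP
    exact ⟨a P, r P, b P, ha P, h1, h2, h3, rfl⟩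

/-- The form of `v2s_gen` for an isogeny with real fibres. -/
theorem v2s_step (L : IntermediateField K (AlgebraicClosure K)) [FiniteDimensional K L]
    (hodd : Odd (Module.finrank K L)) {B C : Over (Spec (.of K))} [GrpObj B] [IsAbVar B]
    [GrpObj C] [IsAbVar C] (f : B ⟶ C) (hf : IsMonHom f) (hsurj : ∀ y, ∃ x, onPts f x = y)
    (hker : ∃ t, t ≠ 0 ∧ ∀ x, onPts f x = 0 ↔ x = 0 ∨ x = t) :
    ∃ c : Pts C (AlgebraicClosure K) → L,
      (∀ P, c P ≠ 0) ∧
      (∀ P, (∀ s ∈ L.fixingSubgroup, act C s P = P) → IsSquare (Algebra.norm K (c P))) ∧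
      (∀ P Q, (∀ s ∈ L.fixingSubgroup, act C s P = P) →
        (∀ s ∈ L.fixingSubgroup, act C s Q = Q) → IsSquare (c P * c Q * c (P + Q))) ∧
      (∀ 𝔓, EtaleAt f 𝔓 → ∀ P, (∀ s ∈ L.fixingSubgroup, act C s P = P) →
        UnrAt L 𝔓 (c P)) ∧
      (∀ 𝔓, FinPrime 𝔓 → OnePlace L 𝔓 → ∀ P, (∀ s ∈ L.fixingSubgroup, act C s P = P) →
        EvenAt L 𝔓 (c P)) ∧
      (RealFibres f → ∀ e : AlgebraicClosure K →+* ℂ,
        (∀ x : L, starRingEnd ℂ (e x) = e x) → ∀ P,
        (∀ s ∈ L.fixingSubgroup, act C s P = P) → ∃ t : ℝ, 0 < t ∧ e (c P) = t) ∧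
      (∀ P, (∀ s ∈ L.fixingSubgroup, act C s P = P) → IsSquare (c P) →
        ∃ y0 x, (∀ s, act C s y0 = y0) ∧ (∀ s ∈ L.fixingSubgroup, act B s x = x) ∧
          P = y0 + onPts f x) ∧
      (∀ P, (∀ s ∈ L.fixingSubgroup, act C s P = P) → ∃ (a : L) (r : AlgebraicClosure K)
        (b : Pts B (AlgebraicClosure K)), a ≠ 0 ∧ r * r = a ∧ onPts f b = P ∧
        (∀ s ∈ L.fixingSubgroup, s r = r ↔ act B s b = b) ∧
        c P = a * algebraMap K L (Algebra.norm K a)) := by
  obtain ⟨c, h0, h1, h2, h3, h4, h5, h6⟩ := v2s_gen L hodd f hf hsurj hker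
  exact ⟨c, h0, h1, h2, h3, h4, fun hR e he P hP => h5 e he (fun s hs => hR e s hs) P hP, h6⟩

end step

end Pool.Agent.H.MP_ac3185_nt
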