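import Mathlib

/-! The valuation of a norm of number fields. -/

set_option autoImplicit false

open NumberField IsDedekindDomain UniqueFactorizationMonoid

namespace Pool.Agent.H.MP_ac3185_nt

universe u v

section ord

variable {M : Type u} [Field M] [NumberField M]

/-- The normalized valuation of `c` at the finite place `w` (an integer; `0` for `c = 0`). -/
noncomputable def vOrd (w : HeightOneSpectrum (𝓞 M)) (c : M) : ℤ := -WithZero.log (w.valuation M c)

theorem vOrd_ne (w : HeightOneSpectrum (𝓞 M)) {c : M} (hc : c ≠ 0) : w.valuation M c ≠ 0 :=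
  (Valuation.ne_zero_iff _).2 hc

theorem vOrd_mul (w : HeightOneSpectrum (𝓞 M)) {c d : M} (hc : c ≠ 0) (hd : d ≠ 0) :
    vOrd w (c * d) = vOrd w c + vOrd w d := by
  unfold vOrd
  rw [map_mul, WithZero.log_mul (vOrd_ne w hc) (vOrd_ne w hd)]
  ring

theorem vOrd_one (w : HeightOneSpectrum (𝓞 M)) : vOrd w (1 : M) = 0 := by
  unfold vOrd
  rw [map_one, WithZero.log_one, neg_zero]

theorem vOrd_inv (w : HeightOneSpectrum (𝓞 M)) (c : M) : vOrd w c⁻¹ = -vOrd w c := by
  unfold vOrd
  rw [map_inv₀, WithZero.log_inv]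

theorem vOrd_div (w : HeightOneSpectrum (𝓞 M)) {c d : M} (hc : c ≠ 0) (hd : d ≠ 0) :
    vOrd w (c / d) = vOrd w c - vOrd w d := by
  rw [div_eq_mul_inv, vOrd_mul w hc (inv_ne_zero hd), vOrd_inv, sub_eq_add_neg]

theorem vOrd_zpow (w : HeightOneSpectrum (𝓞 M)) (c : M) (n : ℤ) : vOrd w (c ^ n) = n * vOrd w c := by
  unfold vOrd
  rw [map_zpow₀, WithZero.log_zpow, smul_eq_mul]
  ring

theorem vOrd_pow (w : HeightOneSpectrum (𝓞 M)) (c : M) (n : ℕ) : vOrd w (c ^ n) = n * vOrd w c := by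
  have h := vOrd_zpow w c n
  rwa [zpow_natCast] at h

/-- The normalized valuation of an integer. -/
theorem vOrd_int (w : HeightOneSpectrum (𝓞 M)) {x : 𝓞 M} (hx : x ≠ 0) :
    vOrd w (x : M) = ((normalizedFactors (Ideal.span {x})).count w.asIdeal : ℕ) := by
  have hs : Ideal.span {x} ≠ 0 := by
    rwa [Ne, Ideal.zero_eq_bot, Ideal.span_singleton_eq_bot]
  unfold vOrd
  rw [show (x : M) = algebraMap (𝓞 M) M x from rfl, HeightOneSpectrum.valuation_of_algebraMap,
    HeightOneSpectrum.intValuation_if_neg w hx, WithZero.log_exp, neg_neg,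
    Ideal.count_associates_factors_eq hs w.isPrime w.ne_bot]

theorem vOrd_uniformizer (w : HeightOneSpectrum (𝓞 M)) : ∃ π : M, π ≠ 0 ∧ vOrd w π = 1 := by
  obtain ⟨π, hπ⟩ := w.valuation_exists_uniformizer M
  refine ⟨π, ?_, ?_⟩
  · rintro rfl
    rw [map_zero] at hπ
    exact WithZero.coe_ne_zero hπ.symm
  · unfold vOrd
    rw [hπ, WithZero.log_exp, neg_neg]

theorem vOrd_notMem (w : HeightOneSpectrum (𝓞 M)) {x : 𝓞 M} :
    w.valuation M (x : M) = 1 ↔ x ∉ w.asIdeal :=
  w.valuation_eq_one_iff_notMem (K := M)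

/-- Elements of valuation `0` are quotients of integers outside the prime. -/
theorem vOrd_zero (w : HeightOneSpectrum (𝓞 M)) {c : M} (hc : c ≠ 0) (h : vOrd w c = 0) :
    ∃ x y : 𝓞 M, x ∉ w.asIdeal ∧ y ∉ w.asIdeal ∧ c * (y : M) = (x : M) := by
  have h1 : w.valuation M c = 1 := by
    have h2 : WithZero.log (w.valuation M c) = 0 := by
      unfold vOrd at h
      linarith
    rw [← WithZero.exp_log (vOrd_ne w hc), h2, WithZero.exp_zero]
  obtain ⟨n, d, h3⟩ := w.exists_primeCompl_mul_eq_or_mul_eq c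
  have hd : w.valuation M ((d : 𝓞 M) : M) = 1 := (vOrd_notMem w).2 d.2
  rcases h3 with h3 | h3
  · have h3' : c * ((d : 𝓞 M) : M) = (n : M) := h3
    have h4 : w.valuation M ((n : 𝓞 M) : M) = 1 := by
      rw [← h3', map_mul, h1, one_mul]
      exact hd
    exact ⟨n, d, (vOrd_notMem w).1 h4, d.2, h3⟩
  · have h3' : c * (n : M) = ((d : 𝓞 M) : M) := h3
    have h4 : w.valuation M ((n : 𝓞 M) : M) = 1 := by
      have h5 := congrArg (w.valuation M) h3'
      rw [map_mul, h1, one_mul] at h5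
      rw [h5]
      exact hd
    exact ⟨d, n, d.2, (vOrd_notMem w).1 h4, h3⟩

theorem vOrd_unit (w : HeightOneSpectrum (𝓞 M)) {x : 𝓞 M} (hx : x ∉ w.asIdeal) :
    vOrd w (x : M) = 0 := by
  unfold vOrd
  rw [(vOrd_notMem w).2 hx, WithZero.log_one, neg_zero]

end ord

section norm

variable {K : Type u} [Field K] [NumberField K] {M : Type v} [Field M] [NumberField M] [Algebra K M]

/-- The multiplicity of `v` in the norm of an ideal. -/
theorem relNorm_count (p : Ideal (𝓞 K)) [Fintype (p.primesOver (𝓞 M))] (I : Ideal (𝓞 M)) (hI : I ≠ 0) :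
    (normalizedFactors (Ideal.relNorm (𝓞 K) I)).count p =
      ∑ q : p.primesOver (𝓞 M), q.1.inertiaDeg (𝓞 K) * (normalizedFactors I).count q.1 := by
  classical
  induction I using UniqueFactorizationMonoid.induction_on_prime with
  | h₁ => exact absurd rfl hI
  | h₂ x hx =>
    rw [Ideal.isUnit_iff.1 hx, Ideal.relNorm_top, ← Ideal.one_eq_top, ← Ideal.one_eq_top,
      normalizedFactors_one, normalizedFactors_one]
    simp
  | h₃ a P ha0 hP ih =>
    have hP0 : P ≠ 0 := hP.ne_zero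
    have hPp : P.IsPrime := Ideal.isPrime_of_prime hP
    have hPm : P.IsMaximal := hPp.isMaximal hP0
    have hra : Ideal.relNorm (𝓞 K) a ≠ 0 := by
      rw [Ne, Ideal.zero_eq_bot, Ideal.relNorm_eq_bot_iff]
      exact ha0
    have hrP : Ideal.relNorm (𝓞 K) P ≠ 0 := by
      rw [Ne, Ideal.zero_eq_bot, Ideal.relNorm_eq_bot_iff]
      exact hP0
    rw [map_mul, normalizedFactors_mul hrP hra, Multiset.count_add, ih ha0]
    have h1 : ∀ q : p.primesOver (𝓞 M), (normalizedFactors (P * a)).count q.1 =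
        (if q.1 = P then 1 else 0) + (normalizedFactors a).count q.1 := by
      intro q
      rw [normalizedFactors_mul hP0 ha0, Multiset.count_add, normalizedFactors_irreducible
        hP.irreducible, Multiset.count_singleton]
      simp
    simp only [h1, mul_add, Finset.sum_add_distrib]
    congr 1
    have hlo : P.LiesOver (P.under (𝓞 K)) := ⟨rfl⟩
    have hum : (P.under (𝓞 K)).IsMaximal := Ideal.IsMaximal.under (𝓞 K) P
    have hu0 : P.under (𝓞 K) ≠ ⊥ := by
      intro h
      exact hP0 (Ideal.eq_bot_of_comap_eq_bot h)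
    have huirr : Irreducible (P.under (𝓞 K)) :=
      (Ideal.prime_of_isPrime hu0 hum.isPrime).irreducible
    rw [Ideal.relNorm_eq_pow_of_isMaximal P (P.under (𝓞 K)), normalizedFactors_pow,
      Multiset.count_nsmul, normalizedFactors_irreducible huirr, Multiset.count_singleton]
    by_cases h : p = P.under (𝓞 K)
    · have hmem : P ∈ p.primesOver (𝓞 M) := ⟨hPp, ⟨h⟩⟩
      rw [Finset.sum_eq_single (⟨P, hmem⟩ : p.primesOver (𝓞 M))]
      · simp [h]
      · intro q _ hq
        have : q.1 ≠ P := fun h' => hq (Subtype.ext h')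
        simp [this]
      · intro h'
        exact absurd (Finset.mem_univ _) h'
    · have h2 : ∀ q : p.primesOver (𝓞 M), q.1 ≠ P := by
        intro q hq
        apply h
        rw [← hq]
        exact q.2.2.over
      simp [h, h2]

/-- The finite places of `M` above the finite place `v` of `K`. -/
def PlacesOver (M : Type v) [Field M] [NumberField M] [Algebra K M] (v : HeightOneSpectrum (𝓞 K)) :
    Type v :=
  {w : HeightOneSpectrum (𝓞 M) // w.asIdeal.comap (algebraMap (𝓞 K) (𝓞 M)) = v.asIdeal}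

theorem primesOver_ne_bot {v : HeightOneSpectrum (𝓞 K)} (q : v.asIdeal.primesOver (𝓞 M)) :
    q.1 ≠ ⊥ := by
  intro h
  apply v.ne_bot
  have h1 : v.asIdeal = q.1.under (𝓞 K) := q.2.2.over
  rw [h1, h]
  exact Ideal.comap_bot_of_injective _ (FaithfulSMul.algebraMap_injective (𝓞 K) (𝓞 M))

/-- The prime ideals above `v` are the places above `v`. -/
noncomputable def placesEquiv (v : HeightOneSpectrum (𝓞 K)) :
    v.asIdeal.primesOver (𝓞 M) ≃ PlacesOver M v where
  toFun q := ⟨⟨q.1, q.2.1, primesOver_ne_bot q⟩, q.2.2.over.symm⟩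
  invFun w := ⟨w.1.asIdeal, w.1.isPrime, ⟨w.2.symm⟩⟩
  left_inv _ := rfl
  right_inv _ := rfl

instance (v : HeightOneSpectrum (𝓞 K)) : Finite (PlacesOver M v) :=
  Finite.of_equiv _ (placesEquiv (M := M) v)

/-- The valuation of a norm is the sum of the valuations, multiplied with the residue degrees. -/
theorem vOrd_norm (v : HeightOneSpectrum (𝓞 K)) [Fintype (PlacesOver M v)] {c : M} (hc : c ≠ 0) :
    vOrd v (Algebra.norm K c) =
      ∑ w : PlacesOver M v, (w.1.asIdeal.inertiaDeg (𝓞 K) : ℤ) * vOrd w.1 c := by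
  classical
  have _ : Fintype (v.asIdeal.primesOver (𝓞 M)) := Fintype.ofEquiv _ (placesEquiv (M := M) v).symm
  have key : ∀ x : 𝓞 M, x ≠ 0 → vOrd v (Algebra.norm K (x : M)) =
      ∑ w : PlacesOver M v, (w.1.asIdeal.inertiaDeg (𝓞 K) : ℤ) * vOrd w.1 (x : M) := by
    intro x hx
    have h0 : Algebra.intNorm (𝓞 K) (𝓞 M) x ≠ 0 := by
      rwa [Ne, Algebra.intNorm_eq_zero]
    have h1 : Algebra.norm K (x : M) = ((Algebra.intNorm (𝓞 K) (𝓞 M) x : 𝓞 K) : K) :=
      (Algebra.algebraMap_intNorm (A := 𝓞 K) (K := K) (L := M) x).symm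
    have hs : Ideal.span {x} ≠ 0 := by
      rwa [Ne, Ideal.zero_eq_bot, Ideal.span_singleton_eq_bot]
    rw [h1, vOrd_int v h0, ← Ideal.relNorm_singleton, relNorm_count v.asIdeal _ hs]
    rw [← (placesEquiv (M := M) v).sum_comp]
    push_cast
    refine Finset.sum_congr rfl fun q _ => ?_
    rw [vOrd_int _ hx]
    rfl
  obtain ⟨x, y, hy, rfl⟩ := IsFractionRing.div_surjective (A := 𝓞 M) c
  have hy0 : y ≠ 0 := nonZeroDivisors.ne_zero hy
  have hx0 : x ≠ 0 := by
    rintro rfl
    exact hc (by rw [map_zero, zero_div])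
  have hxM : (x : M) ≠ 0 := fun h => hx0 (RingOfIntegers.ext h)
  have hyM : (y : M) ≠ 0 := fun h => hy0 (RingOfIntegers.ext h)
  have hNc : Algebra.norm K ((x : M) / (y : M)) ≠ 0 :=
    (Algebra.norm_ne_zero_iff).2 (div_ne_zero hxM hyM)
  have hNy : Algebra.norm K (y : M) ≠ 0 := (Algebra.norm_ne_zero_iff).2 hyM
  show vOrd v (Algebra.norm K ((x : M) / (y : M))) =
    ∑ w : PlacesOver M v, (w.1.asIdeal.inertiaDeg (𝓞 K) : ℤ) * vOrd w.1 ((x : M) / (y : M))
  have h1 : vOrd v (Algebra.norm K (x : M)) =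
      vOrd v (Algebra.norm K ((x : M) / (y : M))) + vOrd v (Algebra.norm K (y : M)) := by
    rw [← vOrd_mul v hNc hNy, ← map_mul, div_mul_cancel₀ _ hyM]
  rw [key x hx0, key y hy0] at h1
  have h2 : ∀ w : PlacesOver M v, vOrd w.1 ((x : M) / (y : M)) =
      vOrd w.1 (x : M) - vOrd w.1 (y : M) := fun w => vOrd_div w.1 hxM hyM
  simp only [h2, mul_sub, Finset.sum_sub_distrib]
  linarith

end norm

end Pool.Agent.H.MP_ac3185_nt
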