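import Pool.Agent.H.MP_ac3185_nt.V2.ValA

/-! Parities of valuations in an extension of odd degree. -/

set_option autoImplicit false

open NumberField IsDedekindDomain

namespace Pool.Agent.H.MP_ac3185_nt

universe u v

variable {K : Type u} [Field K] [NumberField K] {M : Type v} [Field M] [NumberField M] [Algebra K M]

/-- In an extension of odd degree there is a place `w` above `v` of odd residue degree (and of odd
ramification index). -/
theorem exists_odd_place (hodd : Odd (Module.finrank K M)) (v : HeightOneSpectrum (𝓞 K)) :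
    ∃ w : PlacesOver M v, Odd (w.1.asIdeal.ramificationIdx (𝓞 K)) ∧
      Odd (w.1.asIdeal.inertiaDeg (𝓞 K)) := by
  classical
  have _ : Fintype (v.asIdeal.primesOver (𝓞 M)) :=
    Fintype.ofFinite _
  have h1 := Ideal.sum_ramification_inertia_eq_finrank v.asIdeal (𝓞 M)
  rw [IsFractionRing.finrank_eq (𝓞 K) K (𝓞 M) M] at hodd
  rw [← h1] at hodd
  by_contra hcon
  push Not at hcon
  apply (Nat.not_even_iff_odd.2 hodd)
  refine Finset.even_sum _ fun q _ => ?_
  rw [Nat.even_mul]
  by_cases h2 : Even (q.1.ramificationIdx (𝓞 K))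
  · exact Or.inl h2
  · right
    have h3 := hcon (placesEquiv v q) (Nat.not_even_iff_odd.1 h2)
    exact Nat.not_odd_iff_even.1 h3

/-- If the norm of `c` is a square, and if the valuations of `c` at all places above `v` but one are
even, then all are even: one of the parities is determined by the others. -/
theorem exists_last (hodd : Odd (Module.finrank K M)) (v : HeightOneSpectrum (𝓞 K)) :
    ∃ w₀ : PlacesOver M v, ∀ c : M, c ≠ 0 → IsSquare (Algebra.norm K c) →
      (∀ w : PlacesOver M v, w ≠ w₀ → Even (vOrd w.1 c)) → Even (vOrd w₀.1 c) := by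
  classical
  obtain ⟨w₀, -, hw₀⟩ := exists_odd_place (M := M) hodd v
  refine ⟨w₀, fun c hc hsq hall => ?_⟩
  have _ : Fintype (PlacesOver M v) := Fintype.ofFinite _
  have h1 := vOrd_norm (M := M) v hc
  have h2 : Even (vOrd v (Algebra.norm K c)) := by
    obtain ⟨d, hd⟩ := hsq
    have hN : Algebra.norm K c ≠ 0 := (Algebra.norm_ne_zero_iff).2 hc
    have hd0 : d ≠ 0 := by
      rintro rfl
      exact hN (by rw [hd, mul_zero])
    rw [hd, vOrd_mul v hd0 hd0]
    exact ⟨_, rfl⟩
  rw [h1, ← Finset.add_sum_erase _ _ (Finset.mem_univ w₀)] at h2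
  have h3 : Even (∑ w ∈ Finset.univ.erase w₀,
      (w.1.asIdeal.inertiaDeg (𝓞 K) : ℤ) * vOrd w.1 c) :=
    Finset.even_sum _ fun w hw => (hall w (Finset.ne_of_mem_erase hw)).mul_left _
  have h4 : Even ((w₀.1.asIdeal.inertiaDeg (𝓞 K) : ℤ) * vOrd w₀.1 c) :=
    (Int.even_add.1 h2).2 h3
  rcases Int.even_mul.1 h4 with h5 | h5
  · exfalso
    rw [Int.even_coe_nat] at h5
    exact Nat.not_even_iff_odd.2 hw₀ h5
  · exact h5

/-- An element of `K` of even valuation at `v` has even valuation at the places above `v`. -/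
theorem vOrd_base (v : HeightOneSpectrum (𝓞 K)) (w : PlacesOver M v) {d : K} (hd : d ≠ 0)
    (h : Even (vOrd v d)) : Even (vOrd w.1 (algebraMap K M d)) := by
  obtain ⟨k, hk⟩ := h
  obtain ⟨π, hπ, hπ1⟩ := vOrd_uniformizer v
  have hdπ : d / (π ^ k * π ^ k) ≠ 0 :=
    div_ne_zero hd (mul_ne_zero (zpow_ne_zero _ hπ) (zpow_ne_zero _ hπ))
  have h1 : vOrd v (d / (π ^ k * π ^ k)) = 0 := by
    rw [vOrd_div v hd (mul_ne_zero (zpow_ne_zero _ hπ) (zpow_ne_zero _ hπ)),
      vOrd_mul v (zpow_ne_zero _ hπ) (zpow_ne_zero _ hπ), vOrd_zpow, hπ1, hk]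
    ring
  obtain ⟨x, y, hx, hy, hxy⟩ := vOrd_zero v hdπ h1
  have hmem : ∀ z : 𝓞 K, z ∉ v.asIdeal → algebraMap (𝓞 K) (𝓞 M) z ∉ w.1.asIdeal := by
    intro z hz hz'
    apply hz
    rw [← w.2]
    exact hz'
  have hM : ∀ z : K, z ≠ 0 → algebraMap K M z ≠ 0 := fun z hz =>
    (map_ne_zero (algebraMap K M)).2 hz
  have e1 : vOrd w.1 (algebraMap K M (x : K)) = 0 := vOrd_unit w.1 (hmem x hx)
  have e2 : vOrd w.1 (algebraMap K M (y : K)) = 0 := vOrd_unit w.1 (hmem y hy)
  have hy0 : (y : K) ≠ 0 := by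
    intro h
    apply hy
    have : y = 0 := RingOfIntegers.ext h
    rw [this]
    exact v.asIdeal.zero_mem
  have h2 : d * (y : K) = π ^ k * π ^ k * (x : K) := by
    rw [← hxy]
    field_simp
  have h3 := congrArg (fun z => vOrd w.1 (algebraMap K M z)) h2
  have hx0 : (x : K) ≠ 0 := by
    intro h
    apply hx
    have : x = 0 := RingOfIntegers.ext h
    rw [this]
    exact v.asIdeal.zero_mem
  simp only [map_mul] at h3
  rw [vOrd_mul w.1 (hM d hd) (hM _ hy0), e2,
    vOrd_mul w.1 (mul_ne_zero (hM _ (zpow_ne_zero _ hπ)) (hM _ (zpow_ne_zero _ hπ))) (hM _ hx0), e1,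
    vOrd_mul w.1 (hM _ (zpow_ne_zero _ hπ)) (hM _ (zpow_ne_zero _ hπ)), add_zero, add_zero] at h3
  exact ⟨_, h3⟩

/-- If all valuations of `a` above `v` are even, then so are those of `a N(a)`. -/
theorem vOrd_mul_norm (v : HeightOneSpectrum (𝓞 K)) {a : M} (ha : a ≠ 0)
    (h : ∀ w : PlacesOver M v, Even (vOrd w.1 a)) (w : PlacesOver M v) :
    Even (vOrd w.1 (a * algebraMap K M (Algebra.norm K a))) := by
  classical
  have _ : Fintype (PlacesOver M v) := Fintype.ofFinite _
  have hN : Algebra.norm K a ≠ 0 := (Algebra.norm_ne_zero_iff).2 ha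
  rw [vOrd_mul w.1 ha ((map_ne_zero (algebraMap K M)).2 hN)]
  refine (h w).add (vOrd_base v w hN ?_)
  rw [vOrd_norm (M := M) v ha]
  exact Finset.even_sum _ fun w _ => (h w).mul_left _

end Pool.Agent.H.MP_ac3185_nt
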