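import Pool.Agent.H.MP_ac3185_nt.V2.ValB
import Pool.Agent.H.MP_ac3185_nt.V.Defs

/-! Parities of valuations: comparison with `EvenAt`, and the index of the subgroup of the points with
even valuations. -/

set_option autoImplicit false

open NumberField IsDedekindDomain

namespace Pool.Agent.H.MP_ac3185_nt

universe u v

section index

variable {K : Type u} [Field K] [NumberField K] {M : Type v} [Field M] [NumberField M] [Algebra K M]

theorem vOrd_even_of_isSquare (w : HeightOneSpectrum (𝓞 M)) {c : M} (hc : c ≠ 0)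
    (h : IsSquare c) : Even (vOrd w c) := by
  obtain ⟨d, rfl⟩ := h
  have hd : d ≠ 0 := left_ne_zero_of_mul hc
  rw [vOrd_mul w hd hd]
  exact ⟨_, rfl⟩

/-- The parity of the valuation. -/
noncomputable def vPar (w : HeightOneSpectrum (𝓞 M)) (c : M) : ZMod 2 := (vOrd w c : ℤ)

theorem vPar_eq_zero (w : HeightOneSpectrum (𝓞 M)) (c : M) : vPar w c = 0 ↔ Even (vOrd w c) := by
  unfold vPar
  exact ZMod.intCast_eq_zero_iff_even

theorem vPar_add (w : HeightOneSpectrum (𝓞 M)) {a b c : M} (ha : a ≠ 0) (hb : b ≠ 0) (hc : c ≠ 0)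
    (h : IsSquare (a * b * c)) : vPar w c = vPar w a + vPar w b := by
  have h1 := vOrd_even_of_isSquare w (mul_ne_zero (mul_ne_zero ha hb) hc) h
  rw [vOrd_mul w (mul_ne_zero ha hb) hc, vOrd_mul w ha hb] at h1
  have h2 : ((vOrd w a + vOrd w b + vOrd w c : ℤ) : ZMod 2) = 0 :=
    ZMod.intCast_eq_zero_iff_even.2 h1
  push_cast at h2
  unfold vPar
  have h3 : ∀ x y z : ZMod 2, x + y + z = 0 → z = x + y := by decide
  exact h3 _ _ _ h2

/-- The elements `P` for which `φ(P)` has even valuation at all places above the places of `S` form a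
subgroup of index at most `2 ^ ∑ (g_v - 1)`, where `g_v` is the number of places above `v`; the
hypotheses say that `φ` is a homomorphism modulo squares with values in the kernel of the norm to
`Kˣ / Kˣ²`. -/
theorem exists_even_subgroup (hodd : Odd (Module.finrank K M)) {A : Type*} [AddCommGroup A]
    (φ : A → M) (h0 : ∀ P, φ P ≠ 0) (h1 : ∀ P, IsSquare (Algebra.norm K (φ P)))
    (h2 : ∀ P Q, IsSquare (φ P * φ Q * φ (P + Q))) (S : Finset (HeightOneSpectrum (𝓞 K))) :
    ∃ B : AddSubgroup A, B.index ≠ 0 ∧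
      B.index ≤ 2 ^ (∑ v ∈ S, (Nat.card (PlacesOver M v) - 1)) ∧
      ∀ P, P ∈ B ↔ ∀ v ∈ S, ∀ w : PlacesOver M v, Even (vOrd w.1 (φ P)) := by
  classical
  choose w₀ hw₀ using fun v : HeightOneSpectrum (𝓞 K) => exists_last (M := M) hodd v
  let T : Type _ := (v : S) → {w : PlacesOver M v.1 // w ≠ w₀ v.1} → ZMod 2
  have hadd : ∀ (w : HeightOneSpectrum (𝓞 M)) (P Q : A),
      vPar w (φ (P + Q)) = vPar w (φ P) + vPar w (φ Q) := fun w P Q =>
    vPar_add w (h0 P) (h0 Q) (h0 (P + Q)) (h2 P Q)
  let g : A →+ T :=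
    { toFun := fun P v w => vPar w.1.1 (φ P)
      map_zero' := by
        funext v w
        have := hadd w.1.1 0 0
        rw [add_zero] at this
        exact left_eq_add.1 this
      map_add' := fun P Q => by
        funext v w
        exact hadd w.1.1 P Q }
  have _ : ∀ v : HeightOneSpectrum (𝓞 K), Fintype (PlacesOver M v) := fun v => Fintype.ofFinite _
  have hT : Finite T := by
    show Finite ((v : S) → {w : PlacesOver M v.1 // w ≠ w₀ v.1} → ZMod 2)
    infer_instance
  have hcard : Nat.card T = 2 ^ (∑ v ∈ S, (Nat.card (PlacesOver M v) - 1)) := by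
    show Nat.card ((v : S) → {w : PlacesOver M v.1 // w ≠ w₀ v.1} → ZMod 2) = _
    rw [Nat.card_pi]
    have e : ∀ v : S, Nat.card ({w : PlacesOver M v.1 // w ≠ w₀ v.1} → ZMod 2) =
        2 ^ (Nat.card (PlacesOver M v.1) - 1) := by
      intro v
      rw [Nat.card_fun, Nat.card_zmod]
      congr 1
      rw [Nat.card_eq_fintype_card, Nat.card_eq_fintype_card, Fintype.card_subtype_compl]
      simp
    rw [Finset.prod_congr rfl fun v _ => e v, Finset.prod_pow_eq_pow_sum]
    congr 1
    exact Finset.sum_coe_sort S fun v => Nat.card (PlacesOver M v) - 1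
  refine ⟨g.ker, ?_, ?_, fun P => ?_⟩
  · rw [AddSubgroup.index_ker]
    exact Nat.card_pos.ne'
  · rw [AddSubgroup.index_ker, ← hcard]
    exact Nat.card_le_card_of_injective _ Subtype.val_injective
  · rw [AddMonoidHom.mem_ker]
    constructor
    · intro h v hv
      have h3 : ∀ w : PlacesOver M v, w ≠ w₀ v → Even (vOrd w.1 (φ P)) := by
        intro w hw
        rw [← vPar_eq_zero]
        exact congrFun (congrFun h ⟨v, hv⟩) ⟨w, hw⟩
      intro w
      by_cases hw : w = w₀ v
      · rw [hw]
        exact hw₀ v (φ P) (h0 P) (h1 P) h3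
      · exact h3 w hw
    · intro h
      funext v w
      exact (vPar_eq_zero _ _).2 (h v.1 v.2 w.1)

end index

section bar

variable {K : Type u} [Field K] [NumberField K]

/-- `EvenAt L 𝔓 c` says that the valuation of `c` at the place of `L` below `𝔓` is even. -/
theorem evenAt_iff (L : IntermediateField K (AlgebraicClosure K)) [NumberField L]
    {𝔓 : Ideal (𝓞 (AlgebraicClosure K))} {w : HeightOneSpectrum (𝓞 L)} (hw : PrimeOver L 𝔓 w)
    {c : L} (hc : c ≠ 0) : EvenAt L 𝔓 (c : AlgebraicClosure K) ↔ Even (vOrd w c) := by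
  have hP : 𝔓.IsPrime := hw.1
  have hmem : ∀ z : 𝓞 L, algebraMap (𝓞 L) (𝓞 (AlgebraicClosure K)) z ∈ 𝔓 ↔ z ∈ w.asIdeal := by
    intro z
    rw [← hw.2]
    exact Iff.rfl
  have hco : ∀ z : 𝓞 L, ((algebraMap (𝓞 L) (𝓞 (AlgebraicClosure K)) z :
      𝓞 (AlgebraicClosure K)) : AlgebraicClosure K) = ((z : L) : AlgebraicClosure K) :=
    fun z => rfl
  constructor
  · rintro ⟨b, hb, hb0, x, y, hx, hy, hxy⟩
    have hbL : (⟨b, hb⟩ : L) ≠ 0 := fun h => hb0 (congrArg Subtype.val h)
    set β : L := ⟨b, hb⟩ with hβ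
    have hu0 : c / (β * β) ≠ 0 := div_ne_zero hc (mul_ne_zero hbL hbL)
    -- the quotient `c / b²` is a unit at `𝔓`
    have hu : ((c / (β * β) : L) : AlgebraicClosure K) * (y : AlgebraicClosure K) = x := by
      have h1 : ((c / (β * β) : L) : AlgebraicClosure K) = (c : AlgebraicClosure K) / (b * b) := rfl
      rw [h1, div_mul_eq_mul_div, hxy, mul_comm (b * b), mul_div_assoc,
        div_self (mul_ne_zero hb0 hb0), mul_one]
    have h0 : vOrd w (c / (β * β)) = 0 := by
      obtain ⟨n, d, h⟩ := w.exists_primeCompl_mul_eq_or_mul_eq (c / (β * β))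
      have hd : (d : 𝓞 L) ∉ w.asIdeal := d.2
      rcases h with h | h
      · have h' : (c / (β * β)) * ((d : 𝓞 L) : L) = (n : L) := h
        have h2 : x * algebraMap (𝓞 L) (𝓞 (AlgebraicClosure K)) d =
            algebraMap (𝓞 L) (𝓞 (AlgebraicClosure K)) n * y := by
          apply RingOfIntegers.ext
          show (x : AlgebraicClosure K) * (((d : 𝓞 L) : L) : AlgebraicClosure K) =
            ((n : L) : AlgebraicClosure K) * (y : AlgebraicClosure K)
          rw [← h', ← hu]
          show _ = (((c / (β * β) : L) : AlgebraicClosure K) *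
            (((d : 𝓞 L) : L) : AlgebraicClosure K)) * (y : AlgebraicClosure K)
          ring
        have hn : n ∉ w.asIdeal := by
          intro hn
          have h3 : x * algebraMap (𝓞 L) (𝓞 (AlgebraicClosure K)) d ∈ 𝔓 := by
            rw [h2]
            exact Ideal.mul_mem_right _ _ ((hmem n).2 hn)
          rcases hP.mem_or_mem h3 with h4 | h4
          · exact hx h4
          · exact hd ((hmem _).1 h4)
        have e := congrArg (vOrd w) h'
        have hd0 : ((d : 𝓞 L) : L) ≠ 0 := by
          intro h5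
          apply hd
          have : (d : 𝓞 L) = 0 := RingOfIntegers.ext h5
          rw [this]
          exact w.asIdeal.zero_mem
        rw [vOrd_mul w hu0 hd0, vOrd_unit w hd, vOrd_unit w hn, add_zero] at e
        exact e
      · have h' : (c / (β * β)) * (n : L) = ((d : 𝓞 L) : L) := h
        have h2 : x * algebraMap (𝓞 L) (𝓞 (AlgebraicClosure K)) n =
            algebraMap (𝓞 L) (𝓞 (AlgebraicClosure K)) d * y := by
          apply RingOfIntegers.ext
          show (x : AlgebraicClosure K) * ((n : L) : AlgebraicClosure K) =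
            (((d : 𝓞 L) : L) : AlgebraicClosure K) * (y : AlgebraicClosure K)
          rw [← h', ← hu]
          show _ = (((c / (β * β) : L) : AlgebraicClosure K) *
            ((n : L) : AlgebraicClosure K)) * (y : AlgebraicClosure K)
          ring
        have hn : n ∉ w.asIdeal := by
          intro hn
          have h3 : algebraMap (𝓞 L) (𝓞 (AlgebraicClosure K)) d * y ∈ 𝔓 := by
            rw [← h2]
            exact Ideal.mul_mem_left _ _ ((hmem n).2 hn)
          rcases hP.mem_or_mem h3 with h4 | h4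
          · exact hd ((hmem _).1 h4)
          · exact hy h4
        have e := congrArg (vOrd w) h'
        have hn0 : (n : L) ≠ 0 := by
          intro h5
          apply hn
          have : n = 0 := RingOfIntegers.ext h5
          rw [this]
          exact w.asIdeal.zero_mem
        rw [vOrd_mul w hu0 hn0, vOrd_unit w hd, vOrd_unit w hn, add_zero] at e
        exact e
    rw [vOrd_div w hc (mul_ne_zero hbL hbL), vOrd_mul w hbL hbL] at h0
    exact ⟨vOrd w β, by linarith⟩
  · rintro ⟨k, hk⟩
    obtain ⟨π, hπ, hπ1⟩ := vOrd_uniformizer w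
    have hπk : π ^ k ≠ 0 := zpow_ne_zero _ hπ
    have hu0 : c / (π ^ k * π ^ k) ≠ 0 := div_ne_zero hc (mul_ne_zero hπk hπk)
    have h1 : vOrd w (c / (π ^ k * π ^ k)) = 0 := by
      rw [vOrd_div w hc (mul_ne_zero hπk hπk), vOrd_mul w hπk hπk, vOrd_zpow, hπ1, hk]
      ring
    obtain ⟨x, y, hx, hy, hxy⟩ := vOrd_zero w hu0 h1
    refine ⟨((π ^ k : L) : AlgebraicClosure K), (π ^ k : L).2, fun h => hπk (Subtype.ext h),
      algebraMap _ _ x, algebraMap _ _ y, fun h => hx ((hmem x).1 h), fun h => hy ((hmem y).1 h), ?_⟩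
    have h2 : c * (y : L) = π ^ k * π ^ k * (x : L) := by
      rw [← hxy, mul_comm (π ^ k * π ^ k), div_mul_eq_mul_div, div_mul_cancel₀ _
        (mul_ne_zero hπk hπk)]
    exact congrArg (fun z : L => (z : AlgebraicClosure K)) h2

end bar

end Pool.Agent.H.MP_ac3185_nt
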